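import Pool.Agent.Benzel.FourSum

/-! The weighted number of tilings of the (n,2n-4)-benzel as a triple sum, continued. -/

namespace Pool.Agent.Benzel

open Relation

variable {R : Type*} [CommSemiring R]

/-- triples of natural numbers with a given sum -/
def tri (M : ℕ) : Finset (ℕ × ℕ × ℕ) :=
  (Finset.range (M + 1) ×ˢ Finset.range (M + 1) ×ˢ Finset.range (M + 1)).filter
    (fun q => q.1 + q.2.1 + q.2.2 = M)

lemma mem_tri {M : ℕ} {q : ℕ × ℕ × ℕ} : q ∈ tri M ↔ q.1 + q.2.1 + q.2.2 = M := by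
  unfold tri
  rw [Finset.mem_filter, Finset.mem_product, Finset.mem_product, Finset.mem_range,
    Finset.mem_range, Finset.mem_range]
  omega

/-- weighted number of all tilings of the region with truncated corners -/
noncomputable def T4 (m : ℤ) (r l b1 b2 b3 : R) : R :=
  W Al1 (wt r l b1 b2 b3) (F1 m) (F2 m) (F3 m)

/-- possible junctions -/
noncomputable def Reg (m : ℤ) : Finset Tri := F1 m ×ˢ F2 m ×ˢ F3 m

instance (p : Tri) : Decidable (tyJ p) := by unfold tyJ; infer_instance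

open Classical in
lemma T4_sum {m : ℤ} (hm : 1 ≤ m) (r l b1 b2 b3 : R) :
    T4 m r l b1 b2 b3 = ∑ J ∈ (Reg m).filter (fun J => tyJ J),
      wt r l b1 b2 b3 J * W4 m r l b1 b2 b3 J.1 J.2.1 J.2.2 := by
  have h1 : ∀ J ∈ (Reg m).filter (fun J => tyJ J),
      wt r l b1 b2 b3 J * W4 m r l b1 b2 b3 J.1 J.2.1 J.2.2 =
        ∑ M ∈ mats Al1 (F1 m) (F2 m) (F3 m), if J ∈ M then ∏ p ∈ M, wt r l b1 b2 b3 p else 0 := by
    intro J hJ
    rw [Finset.mem_filter, Reg, Finset.mem_product, Finset.mem_product] at hJ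
    obtain ⟨⟨j1, j2, j3⟩, hJt⟩ := hJ
    rw [← Finset.sum_filter, sum_mem Al1 (wt r l b1 b2 b3) _ _ _ J hJt.al1 j1 j2 j3]
    congr 1
    unfold W4 W
    apply Finset.sum_congr _ (fun _ _ => rfl)
    ext M
    rw [mem_mats, mem_mats]
    constructor
    · exact fun h => h.al1
    · intro h
      refine { h with al := ?_ }
      intro p hp
      rcases (Al1_iff p).1 (h.al p hp) with h2 | h2
      · exact h2
      · exfalso
        have hins := h.insert hJt.al1 j1 j2 j3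
        obtain ⟨J0, _, _, hu⟩ := uniqueJ4 hm hins
        have e1 := hu J (Finset.mem_insert_self _ _) hJt
        have e2 := hu p (Finset.mem_insert_of_mem hp) h2
        have : p = J := e2.trans e1.symm
        have h3 := h.m1 p hp
        rw [this, Finset.mem_erase] at h3
        exact h3.1 rfl
  rw [Finset.sum_congr rfl h1, Finset.sum_comm]
  unfold T4 W
  apply Finset.sum_congr rfl
  intro M hM
  rw [mem_mats] at hM
  obtain ⟨J, hJ, hJt, hu⟩ := uniqueJ4 hm hM
  rw [← Finset.sum_filter]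
  have : ((Reg m).filter (fun J => tyJ J)).filter (fun J => J ∈ M) = {J} := by
    ext J'
    rw [Finset.mem_filter, Finset.mem_filter, Finset.mem_singleton]
    constructor
    · rintro ⟨⟨_, h2⟩, h3⟩
      exact hu J' h3 h2
    · rintro rfl
      refine ⟨⟨?_, hJt⟩, hJ⟩
      rw [Reg, Finset.mem_product, Finset.mem_product]
      exact ⟨hM.m1 _ hJ, hM.m2 _ hJ, hM.m3 _ hJ⟩
  rw [this, Finset.sum_singleton]

lemma good_of_J {m : ℤ} {J : Tri} (hJ : J ∈ Reg m) (h : tyJ J) : Good4 m J.1 J.2.1 J.2.2 := by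
  rw [Reg, Finset.mem_product, Finset.mem_product] at hJ
  have := tyJ_rel h
  exact ⟨F1_sub m hJ.1, F2_sub m hJ.2.1, F3_sub m hJ.2.2, this.1, this.2.1, this.2.2.1⟩

lemma mem_Reg {m : ℤ} {J : Tri} : J ∈ Reg m ↔ J.1 ∈ F1 m ∧ J.2.1 ∈ F2 m ∧ J.2.2 ∈ F3 m := by
  rw [Reg, Finset.mem_product, Finset.mem_product]

/-- sum over the five kinds of junctions -/
lemma sum_J (m : ℤ) (f : Tri → R) :
    ∑ J ∈ (Reg m).filter (fun J => tyJ J), f J =
      ∑ J ∈ (Reg m).filter (fun J => dd J (-1) 1 0 (-1) 0 1), f J +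
      ∑ J ∈ (Reg m).filter (fun J => dd J (-1) 0 1 0 (-1) 1), f J +
      ∑ J ∈ (Reg m).filter (fun J => dd J (-1) 1 0 0 (-1) 1), f J +
      ∑ J ∈ (Reg m).filter (fun J => dd J (-1) 0 1 (-1) (-1) 2), f J +
      ∑ J ∈ (Reg m).filter (fun J => dd J (-2) 1 1 (-1) 0 1), f J := by
  classical
  rw [Finset.sum_filter, Finset.sum_filter, Finset.sum_filter, Finset.sum_filter,
    Finset.sum_filter, Finset.sum_filter, ← Finset.sum_add_distrib, ← Finset.sum_add_distrib,
    ← Finset.sum_add_distrib, ← Finset.sum_add_distrib]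
  apply Finset.sum_congr rfl
  intro J _
  by_cases h1 : dd J (-1) 1 0 (-1) 0 1
  · have g1 : tyJ J := Or.inl h1
    have g2 : ¬ dd J (-1) 0 1 0 (-1) 1 := by unfold dd dv at *; omega
    have g3 : ¬ dd J (-1) 1 0 0 (-1) 1 := by unfold dd dv at *; omega
    have g4 : ¬ dd J (-1) 0 1 (-1) (-1) 2 := by unfold dd dv at *; omega
    have g5 : ¬ dd J (-2) 1 1 (-1) 0 1 := by unfold dd dv at *; omega
    rw [if_pos g1, if_pos h1, if_neg g2, if_neg g3, if_neg g4, if_neg g5]
    ring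
  by_cases h2 : dd J (-1) 0 1 0 (-1) 1
  · have g1 : tyJ J := Or.inr (Or.inl h2)
    have g3 : ¬ dd J (-1) 1 0 0 (-1) 1 := by unfold dd dv at *; omega
    have g4 : ¬ dd J (-1) 0 1 (-1) (-1) 2 := by unfold dd dv at *; omega
    have g5 : ¬ dd J (-2) 1 1 (-1) 0 1 := by unfold dd dv at *; omega
    rw [if_pos g1, if_neg h1, if_pos h2, if_neg g3, if_neg g4, if_neg g5]
    ring
  by_cases h3 : dd J (-1) 1 0 0 (-1) 1
  · have g1 : tyJ J := Or.inr (Or.inr (Or.inl h3))
    have g4 : ¬ dd J (-1) 0 1 (-1) (-1) 2 := by unfold dd dv at *; omega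
    have g5 : ¬ dd J (-2) 1 1 (-1) 0 1 := by unfold dd dv at *; omega
    rw [if_pos g1, if_neg h1, if_neg h2, if_pos h3, if_neg g4, if_neg g5]
    ring
  by_cases h4 : dd J (-1) 0 1 (-1) (-1) 2
  · have g1 : tyJ J := Or.inr (Or.inr (Or.inr (Or.inl h4)))
    have g5 : ¬ dd J (-2) 1 1 (-1) 0 1 := by unfold dd dv at *; omega
    rw [if_pos g1, if_neg h1, if_neg h2, if_neg h3, if_pos h4, if_neg g5]
    ring
  by_cases h5 : dd J (-2) 1 1 (-1) 0 1
  · have g1 : tyJ J := Or.inr (Or.inr (Or.inr (Or.inr h5)))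
    rw [if_pos g1, if_neg h1, if_neg h2, if_neg h3, if_neg h4, if_pos h5]
    ring
  have g1 : ¬ tyJ J := by unfold tyJ; tauto
  rw [if_neg g1, if_neg h1, if_neg h2, if_neg h3, if_neg h4, if_neg h5]
  ring

/-- Reindexing a sum over one kind of junction. -/
lemma reidx {m : ℤ} {M : ℕ} (P : Tri → Prop) [DecidablePred P] (f : Tri → R)
    (F : ℕ → ℕ → ℕ → R) (φ : ℤ → ℤ → ℤ → Tri) (ψ : Tri → ℤ × ℤ × ℤ)
    (h1 : ∀ x y z : ℕ, x + y + z = M → φ x y z ∈ Reg m ∧ P (φ x y z) ∧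
      ψ (φ x y z) = ((x : ℤ), (y : ℤ), (z : ℤ)) ∧ f (φ x y z) = F x y z)
    (h2 : ∀ J ∈ Reg m, P J → 0 ≤ (ψ J).1 ∧ 0 ≤ (ψ J).2.1 ∧ 0 ≤ (ψ J).2.2 ∧
      (ψ J).1 + (ψ J).2.1 + (ψ J).2.2 = M ∧ φ (ψ J).1 (ψ J).2.1 (ψ J).2.2 = J) :
    ∑ J ∈ (Reg m).filter P, f J = ∑ q ∈ tri M, F q.1 q.2.1 q.2.2 := by
  symm
  refine Finset.sum_bij' (fun q _ => φ q.1 q.2.1 q.2.2)
    (fun J _ => ((ψ J).1.toNat, (ψ J).2.1.toNat, (ψ J).2.2.toNat)) ?_ ?_ ?_ ?_ ?_
  · intro q hq
    rw [mem_tri] at hq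
    rw [Finset.mem_filter]
    have := h1 q.1 q.2.1 q.2.2 hq
    exact ⟨this.1, this.2.1⟩
  · intro J hJ
    rw [Finset.mem_filter] at hJ
    have := h2 J hJ.1 hJ.2
    rw [mem_tri]
    simp only
    omega
  · intro q hq
    rw [mem_tri] at hq
    have := (h1 q.1 q.2.1 q.2.2 hq).2.2.1
    rw [this]
    simp
  · intro J hJ
    rw [Finset.mem_filter] at hJ
    obtain ⟨a, b, c, _, e⟩ := h2 J hJ.1 hJ.2
    simp only
    rw [Int.toNat_of_nonneg a, Int.toNat_of_nonneg b, Int.toNat_of_nonneg c, e]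
  · intro q hq
    rw [mem_tri] at hq
    exact (h1 q.1 q.2.1 q.2.2 hq).2.2.2.symm

/-- The total weighted number of tilings. -/
theorem T4_eq (k : ℕ) (r r' l b1 b2 b3 : R) (hr : r' * r = 1) :
    T4 ((k : ℤ) + 2) r l b1 b2 b3 = r ^ (D0 ((k : ℤ) + 2)).card *
      (∑ q ∈ tri (k + 1), r * (pc (r' * b1) (r' * l) q.2.2 q.2.1 *
          pc (r' * b2) (r' * l) q.1 q.2.2 * pc (r' * b3) (r' * l) q.2.1 q.1) +
       ∑ q ∈ tri k, (r * (pc (r' * b1) (r' * l) q.2.2 (q.2.1 + 1) *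
          pc (r' * b2) (r' * l) q.1 (q.2.2 + 1) * pc (r' * b3) (r' * l) q.2.1 (q.1 + 1)) +
         b1 * (pc (r' * b1) (r' * l) q.2.2 (q.2.1 + 1) *
          pc (r' * b2) (r' * l) q.1 q.2.2 * pc (r' * b3) (r' * l) q.2.1 (q.1 + 1)) +
         b2 * (pc (r' * b1) (r' * l) q.2.2 (q.2.1 + 1) *
          pc (r' * b2) (r' * l) q.1 (q.2.2 + 1) * pc (r' * b3) (r' * l) q.2.1 q.1) +
         b3 * (pc (r' * b1) (r' * l) q.2.2 q.2.1 *
          pc (r' * b2) (r' * l) q.1 (q.2.2 + 1) * pc (r' * b3) (r' * l) q.2.1 (q.1 + 1)))) := by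
  classical
  have hm : (1 : ℤ) ≤ (k : ℤ) + 2 := by omega
  rw [T4_sum hm]
  have hW : ∀ J ∈ (Reg ((k : ℤ) + 2)).filter (fun J => tyJ J),
      wt r l b1 b2 b3 J * W4 ((k : ℤ) + 2) r l b1 b2 b3 J.1 J.2.1 J.2.2 =
      wt r l b1 b2 b3 J * (pz (r' * b1) (r' * l) J.1.2.1 J.1.2.2 *
        pz (r' * b2) (r' * l) J.2.1.2.2 J.2.1.1 * pz (r' * b3) (r' * l) J.2.2.1 J.2.2.2.1 *
        r ^ (D0 ((k : ℤ) + 2)).card) := by
    intro J hJ
    rw [Finset.mem_filter] at hJ
    rw [W4_eq hm r r' l b1 b2 b3 hr (good_of_J hJ.1 hJ.2)]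
  rw [Finset.sum_congr rfl hW, sum_J]
  rw [reidx (M := k + 1) (fun J => dd J (-1) 1 0 (-1) 0 1) _
    (fun x y z => r * (pc (r' * b1) (r' * l) z y * pc (r' * b2) (r' * l) x z *
      pc (r' * b3) (r' * l) y x * r ^ (D0 ((k : ℤ) + 2)).card))
    (fun x y z => ((x + 1, y, z), (x, y + 1, z), (x, y, z + 1)))
    (fun J => (J.1.1 - 1, J.1.2.1, J.1.2.2))]
  · rw [reidx (M := k) (fun J => dd J (-1) 0 1 0 (-1) 1) _
      (fun x y z => r * (pc (r' * b1) (r' * l) z (y + 1) * pc (r' * b2) (r' * l) x (z + 1) *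
        pc (r' * b3) (r' * l) y (x + 1) * r ^ (D0 ((k : ℤ) + 2)).card))
      (fun x y z => ((x + 1, y + 1, z), (x, y + 1, z + 1), (x + 1, y, z + 1)))
      (fun J => (J.1.1 - 1, J.1.2.1 - 1, J.1.2.2))]
    · rw [reidx (M := k) (fun J => dd J (-1) 1 0 0 (-1) 1) _
        (fun x y z => b1 * (pc (r' * b1) (r' * l) z (y + 1) * pc (r' * b2) (r' * l) x z *
          pc (r' * b3) (r' * l) y (x + 1) * r ^ (D0 ((k : ℤ) + 2)).card))
        (fun x y z => ((x + 1, y + 1, z), (x, y + 2, z), (x + 1, y, z + 1)))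
        (fun J => (J.1.1 - 1, J.1.2.1 - 1, J.1.2.2))]
      · rw [reidx (M := k) (fun J => dd J (-1) 0 1 (-1) (-1) 2) _
          (fun x y z => b2 * (pc (r' * b1) (r' * l) z (y + 1) * pc (r' * b2) (r' * l) x (z + 1) *
            pc (r' * b3) (r' * l) y x * r ^ (D0 ((k : ℤ) + 2)).card))
          (fun x y z => ((x + 1, y + 1, z), (x, y + 1, z + 1), (x, y, z + 2)))
          (fun J => (J.1.1 - 1, J.1.2.1 - 1, J.1.2.2))]
        · rw [reidx (M := k) (fun J => dd J (-2) 1 1 (-1) 0 1) _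
            (fun x y z => b3 * (pc (r' * b1) (r' * l) z y * pc (r' * b2) (r' * l) x (z + 1) *
              pc (r' * b3) (r' * l) y (x + 1) * r ^ (D0 ((k : ℤ) + 2)).card))
            (fun x y z => ((x + 2, y, z), (x, y + 1, z + 1), (x + 1, y, z + 1)))
            (fun J => (J.1.1 - 2, J.1.2.1, J.1.2.2))]
          · simp only [Finset.mul_sum, Finset.sum_add_distrib, mul_add]
            have : ∀ (a b c d : R), a * (b * c * d * r ^ (D0 ((k : ℤ) + 2)).card) =
              r ^ (D0 ((k : ℤ) + 2)).card * (a * (b * c * d)) := by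
              intro a b c d; ring
            simp only [this]
            ring
          · intro x y z hxyz
            refine ⟨?_, ?_, ?_, ?_⟩
            · rw [mem_Reg, mem_F1, mem_F2, mem_F3]
              simp only
              omega
            · refine ⟨⟨?_, ?_, ?_⟩, ?_, ?_, ?_⟩ <;> dsimp only <;> omega
            · simp
            · rw [wt_k3]
              · rfl
              · refine Or.inr (Or.inr ?_)
                refine ⟨⟨?_, ?_, ?_⟩, ?_, ?_, ?_⟩ <;> dsimp only <;> omega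
          · intro J hJ hP
            rw [mem_Reg, mem_F1, mem_F2, mem_F3] at hJ
            unfold dd dv at hP
            refine ⟨?_, ?_, ?_, ?_, ?_⟩
            · simp only; omega
            · simp only; omega
            · simp only; omega
            · simp only; omega
            · refine Prod.ext ?_ (Prod.ext ?_ ?_) <;> rw [site_ext_iff] <;> refine ⟨?_, ?_, ?_⟩ <;>
                dsimp only <;> omega
        · intro x y z hxyz
          refine ⟨?_, ?_, ?_, ?_⟩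
          · rw [mem_Reg, mem_F1, mem_F2, mem_F3]
            simp only
            omega
          · refine ⟨⟨?_, ?_, ?_⟩, ?_, ?_, ?_⟩ <;> dsimp only <;> omega
          · simp
          · rw [wt_k2]
            · rfl
            · refine Or.inr (Or.inr ?_)
              refine ⟨⟨?_, ?_, ?_⟩, ?_, ?_, ?_⟩ <;> dsimp only <;> omega
        · intro J hJ hP
          rw [mem_Reg, mem_F1, mem_F2, mem_F3] at hJ
          unfold dd dv at hP
          refine ⟨?_, ?_, ?_, ?_, ?_⟩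
          · simp only; omega
          · simp only; omega
          · simp only; omega
          · simp only; omega
          · refine Prod.ext ?_ (Prod.ext ?_ ?_) <;> rw [site_ext_iff] <;> refine ⟨?_, ?_, ?_⟩ <;>
                dsimp only <;> omega
      · intro x y z hxyz
        refine ⟨?_, ?_, ?_, ?_⟩
        · rw [mem_Reg, mem_F1, mem_F2, mem_F3]
          simp only
          omega
        · refine ⟨⟨?_, ?_, ?_⟩, ?_, ?_, ?_⟩ <;> dsimp only <;> omega
        · simp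
        · rw [wt_k1]
          · rfl
          · refine Or.inr (Or.inr ?_)
            refine ⟨⟨?_, ?_, ?_⟩, ?_, ?_, ?_⟩ <;> dsimp only <;> omega
      · intro J hJ hP
        rw [mem_Reg, mem_F1, mem_F2, mem_F3] at hJ
        unfold dd dv at hP
        refine ⟨?_, ?_, ?_, ?_, ?_⟩
        · simp only; omega
        · simp only; omega
        · simp only; omega
        · simp only; omega
        · refine Prod.ext ?_ (Prod.ext ?_ ?_) <;> rw [site_ext_iff] <;> refine ⟨?_, ?_, ?_⟩ <;>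
                dsimp only <;> omega
    · intro x y z hxyz
      refine ⟨?_, ?_, ?_, ?_⟩
      · rw [mem_Reg, mem_F1, mem_F2, mem_F3]
        simp only
        omega
      · refine ⟨⟨?_, ?_, ?_⟩, ?_, ?_, ?_⟩ <;> dsimp only <;> omega
      · simp
      · rw [wt_R]
        · rfl
        · refine Or.inr (Or.inr ?_)
          refine ⟨⟨?_, ?_, ?_⟩, ?_, ?_, ?_⟩ <;> dsimp only <;> omega
    · intro J hJ hP
      rw [mem_Reg, mem_F1, mem_F2, mem_F3] at hJ
      unfold dd dv at hP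
      refine ⟨?_, ?_, ?_, ?_, ?_⟩
      · simp only; omega
      · simp only; omega
      · simp only; omega
      · simp only; omega
      · refine Prod.ext ?_ (Prod.ext ?_ ?_) <;> rw [site_ext_iff] <;> refine ⟨?_, ?_, ?_⟩ <;>
                dsimp only <;> omega
  · intro x y z hxyz
    refine ⟨?_, ?_, ?_, ?_⟩
    · rw [mem_Reg, mem_F1, mem_F2, mem_F3]
      simp only
      omega
    · refine ⟨⟨?_, ?_, ?_⟩, ?_, ?_, ?_⟩ <;> dsimp only <;> omega
    · simp
    · rw [wt_R]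
      · rfl
      · refine Or.inr (Or.inl ?_)
        refine ⟨⟨?_, ?_, ?_⟩, ?_, ?_, ?_⟩ <;> dsimp only <;> omega
  · intro J hJ hP
    rw [mem_Reg, mem_F1, mem_F2, mem_F3] at hJ
    unfold dd dv at hP
    refine ⟨?_, ?_, ?_, ?_, ?_⟩
    · simp only; omega
    · simp only; omega
    · simp only; omega
    · simp only; omega
    · refine Prod.ext ?_ (Prod.ext ?_ ?_) <;> rw [site_ext_iff] <;> refine ⟨?_, ?_, ?_⟩ <;>
                dsimp only <;> omega

end Pool.Agent.Benzel
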