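import Pool.Agent.Benzel.Geometry
import Pool.Agent.Benzel.FourTotal

/-! Weighted counts of tilings of a region equal weighted counts of exact covers. -/

namespace Pool.Agent.Benzel

open Classical in
/-- weights of the five prototiles -/
noncomputable def wtC {R : Type*} [CommSemiring R] (r l b1 b2 b3 : R) (t : Finset Cell) : R :=
  if IsRightStone t then r else if IsLeftStone t then l else if IsBone 0 1 (-1) t then b1 else
    if IsBone (-1) 0 1 t then b2 else if IsBone 1 (-1) 0 t then b3 else 0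

/-- all five prototiles -/
def Tile5 (t : Finset Cell) : Prop :=
  IsRightStone t ∨ IsLeftStone t ∨ IsBone 0 1 (-1) t ∨ IsBone (-1) 0 1 t ∨ IsBone 1 (-1) 0 t

section iffs

variable {m : ℤ} {p : Tri}

lemma kR_iff (hp : sm3 m p) : IsRightStone (tileOf p) ↔ kR p := by
  constructor
  · intro h
    obtain ⟨q, h1, h2, h3, h4, h5⟩ := classR m h
    rw [tileOf_inj hp ⟨h1, h2, h3⟩ h5]
    exact h4
  · exact unclassR

lemma kL_iff (hp : sm3 m p) : IsLeftStone (tileOf p) ↔ kL p := by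
  constructor
  · intro h
    obtain ⟨q, h1, h2, h3, h4, h5⟩ := classL m h
    rw [tileOf_inj hp ⟨h1, h2, h3⟩ h5]
    exact h4
  · exact unclassL

lemma k1_iff (hp : sm3 m p) : IsBone 0 1 (-1) (tileOf p) ↔ k1 p := by
  constructor
  · intro h
    obtain ⟨q, h1, h2, h3, h4, h5⟩ := class1 m h
    rw [tileOf_inj hp ⟨h1, h2, h3⟩ h5]
    exact h4
  · exact unclass1

lemma k2_iff (hp : sm3 m p) : IsBone (-1) 0 1 (tileOf p) ↔ k2 p := by
  constructor
  · intro h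
    obtain ⟨q, h1, h2, h3, h4, h5⟩ := class2 m h
    rw [tileOf_inj hp ⟨h1, h2, h3⟩ h5]
    exact h4
  · exact unclass2

lemma k3_iff (hp : sm3 m p) : IsBone 1 (-1) 0 (tileOf p) ↔ k3 p := by
  constructor
  · intro h
    obtain ⟨q, h1, h2, h3, h4, h5⟩ := class3 m h
    rw [tileOf_inj hp ⟨h1, h2, h3⟩ h5]
    exact h4
  · exact unclass3

lemma Tile5_iff (hp : sm3 m p) : Tile5 (tileOf p) ↔ Al1 p := by
  unfold Tile5 Al1
  rw [kR_iff hp, kL_iff hp, k1_iff hp, k2_iff hp, k3_iff hp]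

lemma wtC_tile {R : Type*} [CommSemiring R] (r l b1 b2 b3 : R) (hp : sm3 m p) :
    wtC r l b1 b2 b3 (tileOf p) = wt r l b1 b2 b3 p := by
  unfold wtC wt
  simp only [kR_iff hp, kL_iff hp, k1_iff hp, k2_iff hp, k3_iff hp]

lemma Tile5_exists (m : ℤ) {t : Finset Cell} (h : Tile5 t) :
    ∃ p : Tri, sm3 m p ∧ Al1 p ∧ t = tileOf p := by
  rcases h with h | h | h | h | h
  · obtain ⟨q, h1, h2, h3, h4, h5⟩ := classR m h
    exact ⟨q, ⟨h1, h2, h3⟩, Or.inl h4, h5⟩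
  · obtain ⟨q, h1, h2, h3, h4, h5⟩ := classL m h
    exact ⟨q, ⟨h1, h2, h3⟩, Or.inr (Or.inl h4), h5⟩
  · obtain ⟨q, h1, h2, h3, h4, h5⟩ := class1 m h
    exact ⟨q, ⟨h1, h2, h3⟩, Or.inr (Or.inr (Or.inl h4)), h5⟩
  · obtain ⟨q, h1, h2, h3, h4, h5⟩ := class2 m h
    exact ⟨q, ⟨h1, h2, h3⟩, Or.inr (Or.inr (Or.inr (Or.inl h4))), h5⟩
  · obtain ⟨q, h1, h2, h3, h4, h5⟩ := class3 m h
    exact ⟨q, ⟨h1, h2, h3⟩, Or.inr (Or.inr (Or.inr (Or.inr h4))), h5⟩

end iffs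

/-- the region `B` has cells of the three kinds exactly at `R1`, `R2`, `R3` -/
structure Spec (m : ℤ) (B : Set Cell) (R1 R2 R3 : Finset Site) : Prop where
  plane : ∀ c ∈ B, c.1 + c.2.1 + c.2.2 = 1
  s1 : ∀ s ∈ R1, sm m s
  s2 : ∀ s ∈ R2, sm m s
  s3 : ∀ s ∈ R3, sm m s
  r1 : ∀ s, sm m s → (e1c s ∈ B ↔ s ∈ R1)
  r2 : ∀ s, sm m s → (e2c s ∈ B ↔ s ∈ R2)
  r3 : ∀ s, sm m s → (e3c s ∈ B ↔ s ∈ R3)

open Classical in
/-- the finite set of tilings -/
noncomputable def tils (R1 R2 R3 : Finset Site) : Finset (Finset (Finset Cell)) :=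
  (mats Al1 R1 R2 R3).image (fun M => M.image tileOf)

section bridge

variable {m : ℤ} {B : Set Cell} {R1 R2 R3 : Finset Site}

lemma IsMat.sm3 (hS : Spec m B R1 R2 R3) {M : Finset Tri} (h : IsMat Al1 R1 R2 R3 M)
    {p : Tri} (hp : p ∈ M) : sm3 m p :=
  ⟨hS.s1 _ (h.m1 p hp), hS.s2 _ (h.m2 p hp), hS.s3 _ (h.m3 p hp)⟩

lemma mats_sm3 (hS : Spec m B R1 R2 R3) {M : Finset Tri} (h : M ∈ mats Al1 R1 R2 R3)
    {p : Tri} (hp : p ∈ M) : Pool.Agent.Benzel.sm3 m p := (mem_mats.1 h).sm3 hS hp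

lemma image_inj (hS : Spec m B R1 R2 R3) {M M' : Finset Tri} (h : M ∈ mats Al1 R1 R2 R3)
    (h' : M' ∈ mats Al1 R1 R2 R3) (e : M.image tileOf = M'.image tileOf) : M = M' := by
  ext p
  constructor
  · intro hp
    have : tileOf p ∈ M'.image tileOf := by rw [← e]; exact Finset.mem_image_of_mem _ hp
    obtain ⟨q, hq, e2⟩ := Finset.mem_image.1 this
    rw [← tileOf_inj (mats_sm3 hS h' hq) (mats_sm3 hS h hp) e2]
    exact hq
  · intro hp
    have : tileOf p ∈ M.image tileOf := by rw [e]; exact Finset.mem_image_of_mem _ hp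
    obtain ⟨q, hq, e2⟩ := Finset.mem_image.1 this
    rw [← tileOf_inj (mats_sm3 hS h hq) (mats_sm3 hS h' hp) e2]
    exact hq

lemma tile_sub (hS : Spec m B R1 R2 R3) {p : Tri} (hp : Pool.Agent.Benzel.sm3 m p) :
    (tileOf p : Set Cell) ⊆ B ↔ p.1 ∈ R1 ∧ p.2.1 ∈ R2 ∧ p.2.2 ∈ R3 := by
  rw [← hS.r1 _ hp.1, ← hS.r2 _ hp.2.1, ← hS.r3 _ hp.2.2]
  unfold tileOf
  constructor
  · intro h
    refine ⟨h ?_, h ?_, h ?_⟩ <;> simp
  · rintro ⟨h1, h2, h3⟩ c hc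
    rw [Finset.mem_coe, Finset.mem_insert, Finset.mem_insert, Finset.mem_singleton] at hc
    rcases hc with rfl | rfl | rfl
    · exact h1
    · exact h2
    · exact h3

lemma mem_tils (hS : Spec m B R1 R2 R3) {P : Finset (Finset Cell)} :
    P ∈ tils R1 R2 R3 ↔ IsTiling Tile5 B P := by
  classical
  unfold tils
  rw [Finset.mem_image]
  constructor
  · rintro ⟨M, hM, rfl⟩
    have h := mem_mats.1 hM
    refine ⟨?_, ?_⟩
    · intro t ht
      obtain ⟨p, hp, rfl⟩ := Finset.mem_image.1 ht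
      refine ⟨(Tile5_iff (h.sm3 hS hp)).2 (h.al p hp), ?_⟩
      rw [tile_sub hS (h.sm3 hS hp)]
      exact ⟨h.m1 p hp, h.m2 p hp, h.m3 p hp⟩
    · intro c hc
      rcases cover_cell m (hS.plane c hc) with ⟨s, hs, rfl⟩ | ⟨s, hs, rfl⟩ | ⟨s, hs, rfl⟩
      · obtain ⟨p, hp, e⟩ := h.c1 s ((hS.r1 s hs).1 hc)
        refine ⟨tileOf p, ⟨Finset.mem_image_of_mem _ hp,
          (mem_tile1 (h.sm3 hS hp) hs).2 e.symm⟩, ?_⟩
        rintro t ⟨ht, hct⟩
        obtain ⟨q, hq, rfl⟩ := Finset.mem_image.1 ht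
        rw [h.u1 q hq p hp (((mem_tile1 (h.sm3 hS hq) hs).1 hct).symm.trans e.symm)]
      · obtain ⟨p, hp, e⟩ := h.c2 s ((hS.r2 s hs).1 hc)
        refine ⟨tileOf p, ⟨Finset.mem_image_of_mem _ hp,
          (mem_tile2 (h.sm3 hS hp) hs).2 e.symm⟩, ?_⟩
        rintro t ⟨ht, hct⟩
        obtain ⟨q, hq, rfl⟩ := Finset.mem_image.1 ht
        rw [h.u2 q hq p hp (((mem_tile2 (h.sm3 hS hq) hs).1 hct).symm.trans e.symm)]
      · obtain ⟨p, hp, e⟩ := h.c3 s ((hS.r3 s hs).1 hc)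
        refine ⟨tileOf p, ⟨Finset.mem_image_of_mem _ hp,
          (mem_tile3 (h.sm3 hS hp) hs).2 e.symm⟩, ?_⟩
        rintro t ⟨ht, hct⟩
        obtain ⟨q, hq, rfl⟩ := Finset.mem_image.1 ht
        rw [h.u3 q hq p hp (((mem_tile3 (h.sm3 hS hq) hs).1 hct).symm.trans e.symm)]
  · rintro ⟨h1, h2⟩
    refine ⟨(R1 ×ˢ R2 ×ˢ R3).filter (fun p => Al1 p ∧ tileOf p ∈ P), ?_, ?_⟩
    · rw [mem_mats]
      have key : ∀ p : Tri, p ∈ (R1 ×ˢ R2 ×ˢ R3).filter (fun p => Al1 p ∧ tileOf p ∈ P) ↔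
          (p.1 ∈ R1 ∧ p.2.1 ∈ R2 ∧ p.2.2 ∈ R3) ∧ Al1 p ∧ tileOf p ∈ P := by
        intro p
        rw [Finset.mem_filter, Finset.mem_product, Finset.mem_product]
      have ksm : ∀ p : Tri, (p.1 ∈ R1 ∧ p.2.1 ∈ R2 ∧ p.2.2 ∈ R3) →
          Pool.Agent.Benzel.sm3 m p := fun p hp => ⟨hS.s1 _ hp.1, hS.s2 _ hp.2.1, hS.s3 _ hp.2.2⟩
      have kex : ∀ t ∈ P, ∃ p : Tri, tileOf p = t ∧
          p ∈ (R1 ×ˢ R2 ×ˢ R3).filter (fun p => Al1 p ∧ tileOf p ∈ P) := by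
        intro t ht
        obtain ⟨p, hp1, hp2, rfl⟩ := Tile5_exists m (h1 t ht).1
        refine ⟨p, rfl, (key p).2 ⟨(tile_sub hS hp1).1 (h1 _ ht).2, hp2, ht⟩⟩
      constructor
      · intro p hp; exact ((key p).1 hp).2.1
      · intro p hp; exact ((key p).1 hp).1.1
      · intro p hp; exact ((key p).1 hp).1.2.1
      · intro p hp; exact ((key p).1 hp).1.2.2
      · intro p hp q hq e
        have hp' := (key p).1 hp
        have hq' := (key q).1 hq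
        have sp := ksm p hp'.1
        have sq := ksm q hq'.1
        obtain ⟨t, _, ht2⟩ := h2 (e1c p.1) ((hS.r1 _ sp.1).2 hp'.1.1)
        have a1 := ht2 _ ⟨hp'.2.2, (mem_tile1 sp sp.1).2 rfl⟩
        have a2 := ht2 _ ⟨hq'.2.2, (mem_tile1 sq sp.1).2 e⟩
        exact tileOf_inj sp sq (a1.trans a2.symm)
      · intro p hp q hq e
        have hp' := (key p).1 hp
        have hq' := (key q).1 hq
        have sp := ksm p hp'.1
        have sq := ksm q hq'.1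
        obtain ⟨t, _, ht2⟩ := h2 (e2c p.2.1) ((hS.r2 _ sp.2.1).2 hp'.1.2.1)
        have a1 := ht2 _ ⟨hp'.2.2, (mem_tile2 sp sp.2.1).2 rfl⟩
        have a2 := ht2 _ ⟨hq'.2.2, (mem_tile2 sq sp.2.1).2 e⟩
        exact tileOf_inj sp sq (a1.trans a2.symm)
      · intro p hp q hq e
        have hp' := (key p).1 hp
        have hq' := (key q).1 hq
        have sp := ksm p hp'.1
        have sq := ksm q hq'.1
        obtain ⟨t, _, ht2⟩ := h2 (e3c p.2.2) ((hS.r3 _ sp.2.2).2 hp'.1.2.2)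
        have a1 := ht2 _ ⟨hp'.2.2, (mem_tile3 sp sp.2.2).2 rfl⟩
        have a2 := ht2 _ ⟨hq'.2.2, (mem_tile3 sq sp.2.2).2 e⟩
        exact tileOf_inj sp sq (a1.trans a2.symm)
      · intro s hs
        obtain ⟨t, ⟨ht, hst⟩, _⟩ := h2 (e1c s) ((hS.r1 _ (hS.s1 _ hs)).2 hs)
        obtain ⟨p, rfl, hp⟩ := kex t ht
        exact ⟨p, hp, ((mem_tile1 (ksm p ((key p).1 hp).1) (hS.s1 _ hs)).1 hst).symm⟩
      · intro s hs
        obtain ⟨t, ⟨ht, hst⟩, _⟩ := h2 (e2c s) ((hS.r2 _ (hS.s2 _ hs)).2 hs)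
        obtain ⟨p, rfl, hp⟩ := kex t ht
        exact ⟨p, hp, ((mem_tile2 (ksm p ((key p).1 hp).1) (hS.s2 _ hs)).1 hst).symm⟩
      · intro s hs
        obtain ⟨t, ⟨ht, hst⟩, _⟩ := h2 (e3c s) ((hS.r3 _ (hS.s3 _ hs)).2 hs)
        obtain ⟨p, rfl, hp⟩ := kex t ht
        exact ⟨p, hp, ((mem_tile3 (ksm p ((key p).1 hp).1) (hS.s3 _ hs)).1 hst).symm⟩
    · ext t
      rw [Finset.mem_image]
      constructor
      · rintro ⟨p, hp, rfl⟩
        exact (Finset.mem_filter.1 hp).2.2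
      · intro ht
        obtain ⟨p, hp1, hp2, rfl⟩ := Tile5_exists m (h1 t ht).1
        refine ⟨p, ?_, rfl⟩
        rw [Finset.mem_filter, Finset.mem_product, Finset.mem_product]
        exact ⟨(tile_sub hS hp1).1 (h1 _ ht).2, hp2, ht⟩

lemma sum_tils {R : Type*} [CommSemiring R] (hS : Spec m B R1 R2 R3) (r l b1 b2 b3 : R) :
    ∑ P ∈ tils R1 R2 R3, ∏ t ∈ P, wtC r l b1 b2 b3 t = W Al1 (wt r l b1 b2 b3) R1 R2 R3 := by
  classical
  unfold tils W
  rw [Finset.sum_image]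
  · apply Finset.sum_congr rfl
    intro M hM
    rw [Finset.prod_image]
    · apply Finset.prod_congr rfl
      intro p hp
      exact wtC_tile r l b1 b2 b3 (mats_sm3 hS hM hp)
    · intro p hp q hq e
      exact tileOf_inj (mats_sm3 hS hM hp) (mats_sm3 hS hM hq) e
  · intro M hM M' hM' e
    exact image_inj hS hM hM' e

/-- Counting the tilings by a subset of the prototiles. -/
lemma ncard_tilings (hS : Spec m B R1 R2 R3) (Tile : Finset Cell → Prop)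
    (h5 : ∀ t, Tile t → Tile5 t) (r l b1 b2 b3 : ℕ)
    (hw : ∀ t, Tile5 t → (Tile t → wtC r l b1 b2 b3 t = 1) ∧
      (¬ Tile t → wtC r l b1 b2 b3 t = 0)) :
    Set.ncard {P | IsTiling Tile B P} = W Al1 (wt r l b1 b2 b3) R1 R2 R3 := by
  classical
  have h : {P | IsTiling Tile B P} =
      ((tils R1 R2 R3).filter (fun P => ∀ t ∈ P, Tile t) : Set (Finset (Finset Cell))) := by
    ext P
    rw [Finset.mem_coe, Finset.mem_filter, mem_tils hS, Set.mem_ofPred_eq]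
    constructor
    · rintro ⟨h1, h2⟩
      exact ⟨⟨fun t ht => ⟨h5 t (h1 t ht).1, (h1 t ht).2⟩, h2⟩, fun t ht => (h1 t ht).1⟩
    · rintro ⟨⟨h1, h2⟩, h3⟩
      exact ⟨fun t ht => ⟨h3 t ht, (h1 t ht).2⟩, h2⟩
  rw [h, Set.ncard_coe_finset, ← sum_tils hS, Finset.card_filter]
  apply Finset.sum_congr rfl
  intro P hP
  rw [mem_tils hS] at hP
  by_cases hall : ∀ t ∈ P, Tile t
  · rw [if_pos hall]
    symm
    apply Finset.prod_eq_one
    intro t ht
    exact (hw t (hP.1 t ht).1).1 (hall t ht)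
  · rw [if_neg hall]
    push Not at hall
    obtain ⟨t, ht, hnt⟩ := hall
    symm
    exact Finset.prod_eq_zero ht ((hw t (hP.1 t ht).1).2 hnt)

end bridge

/-- the truncated triangle of the `(n,2n-4)`-benzel -/
lemma spec4 {m : ℤ} (_hm : 1 ≤ m) : Spec m (benzel (m + 2) (2 * m)) (F1 m) (F2 m) (F3 m) := by
  constructor
  · intro c hc
    exact hc.1
  · intro s hs
    rw [mem_F1] at hs
    unfold sm
    omega
  · intro s hs
    rw [mem_F2] at hs
    unfold sm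
    omega
  · intro s hs
    rw [mem_F3] at hs
    unfold sm
    omega
  · intro s hs
    rw [mem_F1]
    unfold sm at hs
    unfold benzel e1c
    rw [Set.mem_ofPred_eq]
    dsimp only
    omega
  · intro s hs
    rw [mem_F2]
    unfold sm at hs
    unfold benzel e2c
    rw [Set.mem_ofPred_eq]
    dsimp only
    omega
  · intro s hs
    rw [mem_F3]
    unfold sm at hs
    unfold benzel e3c
    rw [Set.mem_ofPred_eq]
    dsimp only
    omega

end Pool.Agent.Benzel
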