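import Pool.Agent.Benzel.TwoAdic
import Pool.Agent.Benzel.Bridge

/-! 2-adic continuity of the weighted counts for the (n,2n-4)-benzels. -/

namespace Pool.Agent.Benzel

lemma wt_map {R R' : Type*} [CommSemiring R] [CommSemiring R'] (φ : R →+* R')
    (r l b1 b2 b3 : R) (p : Tri) :
    φ (wt r l b1 b2 b3 p) = wt (φ r) (φ l) (φ b1) (φ b2) (φ b3) p := by
  unfold wt
  by_cases h1 : kR p
  · rw [if_pos h1, if_pos h1]
  rw [if_neg h1, if_neg h1]
  by_cases h2 : kL p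
  · rw [if_pos h2, if_pos h2]
  rw [if_neg h2, if_neg h2]
  by_cases h3 : k1 p
  · rw [if_pos h3, if_pos h3]
  rw [if_neg h3, if_neg h3]
  by_cases h4 : k2 p
  · rw [if_pos h4, if_pos h4]
  rw [if_neg h4, if_neg h4]
  by_cases h5 : k3 p
  · rw [if_pos h5, if_pos h5]
  rw [if_neg h5, if_neg h5, map_zero]

lemma W_map {R R' : Type*} [CommSemiring R] [CommSemiring R'] (φ : R →+* R') (Al : Tri → Prop)
    (r l b1 b2 b3 : R) (R1 R2 R3 : Finset Site) :
    φ (W Al (wt r l b1 b2 b3) R1 R2 R3) =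
      W Al (wt (φ r) (φ l) (φ b1) (φ b2) (φ b3)) R1 R2 R3 := by
  unfold W
  rw [map_sum]
  apply Finset.sum_congr rfl
  intro M _
  rw [map_prod]
  apply Finset.prod_congr rfl
  intro p _
  exact wt_map φ r l b1 b2 b3 p

section

variable {R : Type*} [CommRing R]

lemma Per.congr {f g : ℕ → R} (hf : Per f) (h : ∀ n, g n = f n) : Per g := by
  obtain ⟨e, he⟩ := hf
  exact ⟨e, fun n hn => by rw [h, h, he n hn]⟩

/-- the bracket in the formula for `T4` -/
noncomputable def br4 (r r' l b1 b2 b3 : R) (k : ℕ) : R :=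
  (∑ q ∈ tri (k + 1), r * (pc (r' * b1) (r' * l) q.2.2 q.2.1 *
          pc (r' * b2) (r' * l) q.1 q.2.2 * pc (r' * b3) (r' * l) q.2.1 q.1) +
       ∑ q ∈ tri k, (r * (pc (r' * b1) (r' * l) q.2.2 (q.2.1 + 1) *
          pc (r' * b2) (r' * l) q.1 (q.2.2 + 1) * pc (r' * b3) (r' * l) q.2.1 (q.1 + 1)) +
         b1 * (pc (r' * b1) (r' * l) q.2.2 (q.2.1 + 1) *
          pc (r' * b2) (r' * l) q.1 q.2.2 * pc (r' * b3) (r' * l) q.2.1 (q.1 + 1)) +
         b2 * (pc (r' * b1) (r' * l) q.2.2 (q.2.1 + 1) *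
          pc (r' * b2) (r' * l) q.1 (q.2.2 + 1) * pc (r' * b3) (r' * l) q.2.1 q.1) +
         b3 * (pc (r' * b1) (r' * l) q.2.2 q.2.1 *
          pc (r' * b2) (r' * l) q.1 (q.2.2 + 1) * pc (r' * b3) (r' * l) q.2.1 (q.1 + 1))))

lemma br4_per {K : ℕ} (hK : (2 : R) ^ K = 0) (r r' l b1 b2 b3 : R)
    (h1 : Sep (fun y z => pc (r' * b1) (r' * l) z y))
    (h2 : Sep (fun y z => pc (r' * b2) (r' * l) z y))
    (h3 : Sep (fun y z => pc (r' * b3) (r' * l) z y)) :
    Per (fun k => br4 r r' l b1 b2 b3 k) := by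
  have a := (Sep.tri hK h1 h2 h3).shift
  have b := Sep.tri hK h1.shift1 h2.shift1 h3.shift1
  have c := Sep.tri hK h1.shift1 h2 h3.shift1
  have d := Sep.tri hK h1.shift1 h2.shift1 h3
  have e := Sep.tri hK h1 h2.shift1 h3.shift1
  have f := (((Per.const r).mul a).add ((((Per.const r).mul b).add ((Per.const b1).mul c)).add
    ((Per.const b2).mul d))).add ((Per.const b3).mul e)
  refine f.congr (fun k => ?_)
  unfold br4
  simp only [Finset.sum_add_distrib, ← Finset.mul_sum]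
  ring

lemma T4_br4 (k : ℕ) (r r' l b1 b2 b3 : R) (hr : r' * r = 1) :
    T4 ((k : ℤ) + 2) r l b1 b2 b3 =
      r ^ (D0 ((k : ℤ) + 2)).card * br4 r r' l b1 b2 b3 k :=
  T4_eq k r r' l b1 b2 b3 hr

/-- Multiplying by periodic factors. -/
lemma Sep.smul {N : ℕ → ℕ → R} (h : Sep N) {a b : ℕ → R} (ha : Per a) (hb : Per b) :
    Sep (fun y z => a y * b z * N y z) := by
  obtain ⟨K, α, β, h1, h2, h3⟩ := h
  refine ⟨K, fun i y => a y * α i y, fun i z => b z * β i z, fun i => ha.mul (h1 i),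
    fun i => hb.mul (h2 i), fun y z => ?_⟩
  beta_reduce
  rw [h3, Finset.mul_sum]
  apply Finset.sum_congr rfl
  intro i _
  ring

lemma pc_scale (c b l : R) : ∀ z y : ℕ, pc (c * b) (c ^ 2 * l) z y =
    c ^ y * (c ^ 2) ^ z * pc b l z y := by
  intro z
  induction z with
  | zero =>
    intro y
    rw [pc_zero, pc_zero, mul_pow]
    ring
  | succ z ihz =>
    intro y
    induction y with
    | zero =>
      rw [pc_succ_zero, pc_succ_zero, ihz, ihz]
      ring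
    | succ y ihy =>
      rw [pc_succ_succ, pc_succ_succ, ihy, ihz, ihz]
      ring

lemma per_pow {c : R} {e : ℕ} (hc : c ^ (2 ^ e) = 1) : Per (fun n => c ^ n) := by
  refine ⟨e, fun n _ => ?_⟩
  simp only [pow_add, hc, mul_one]

end

/-- From periodicity to 2-adic continuity. -/
lemma cont_of_per (T : ℤ → ℕ) (c : ℤ) (h : ∀ K : ℕ, ∃ e : ℕ, ∀ n : ℤ, c ≤ n →
    (T (n + 2 ^ e) : ZMod (2 ^ K)) = (T n : ZMod (2 ^ K))) :
    ∀ k : ℕ, ∃ m : ℕ, ∀ n n' : ℤ, c ≤ n → c ≤ n' → n ≡ n' [ZMOD 2 ^ m] →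
      (T n : ℤ) ≡ (T n' : ℤ) [ZMOD 2 ^ k] := by
  intro k
  obtain ⟨e, he⟩ := h k
  refine ⟨e, ?_⟩
  have hj : ∀ j : ℕ, ∀ n : ℤ, c ≤ n → (T (n + j * 2 ^ e) : ZMod (2 ^ k)) = (T n : ZMod (2 ^ k)) := by
    intro j
    induction j with
    | zero => intro n _; simp
    | succ j ih =>
      intro n hn
      have e1 : n + ((j + 1 : ℕ) : ℤ) * 2 ^ e = (n + j * 2 ^ e) + 2 ^ e := by push_cast; ring
      rw [e1, he _ (by have : (0:ℤ) ≤ j * 2 ^ e := by positivity
                       omega), ih n hn]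
  have main : ∀ n n' : ℤ, c ≤ n → n ≤ n' → n ≡ n' [ZMOD 2 ^ e] →
      (T n : ZMod (2 ^ k)) = (T n' : ZMod (2 ^ k)) := by
    intro n n' hn hle hmod
    obtain ⟨q, hq⟩ := (Int.modEq_iff_dvd.1 hmod)
    have hq0 : 0 ≤ q := by
      by_contra hneg
      push Not at hneg
      have hp : (0 : ℤ) < 2 ^ e := by positivity
      nlinarith
    obtain ⟨j, rfl⟩ := Int.eq_ofNat_of_zero_le hq0
    have : n' = n + j * 2 ^ e := by linarith
    rw [this, hj j n hn]
  intro n n' hn hn' hmod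
  have key : ((T n : ℤ) : ZMod (2 ^ k)) = ((T n' : ℤ) : ZMod (2 ^ k)) := by
    push_cast
    rcases le_total n n' with hle | hle
    · exact main n n' hn hle hmod
    · exact (main n' n hn' hle hmod.symm).symm
  have := (ZMod.intCast_eq_intCast_iff _ _ _).1 key
  push_cast at this
  exact this

end Pool.Agent.Benzel
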