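import Mathlib

/-! Benzels and their prototiles. -/

namespace Pool.Agent.Benzel

/-- Triples of integers. The cells of the hexagonal grid are the triples with coordinate sum `1`. -/
abbrev Cell := ℤ × ℤ × ℤ

/-- The `(a,b)`-benzel: the cells `(i,j,k)` with `i+j+k = 1` and
`-(a-1) ≤ j-i, k-j, i-k ≤ b-1`. -/
def benzel (a b : ℤ) : Set Cell :=
  {c | c.1 + c.2.1 + c.2.2 = 1 ∧
    (-(a - 1) ≤ c.2.1 - c.1 ∧ c.2.1 - c.1 ≤ b - 1) ∧
    (-(a - 1) ≤ c.2.2 - c.2.1 ∧ c.2.2 - c.2.1 ≤ b - 1) ∧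
    (-(a - 1) ≤ c.1 - c.2.2 ∧ c.1 - c.2.2 ≤ b - 1)}

/-- A right stone: `{u+e₁, u+e₂, u+e₃}` with `u` of coordinate sum `0`. -/
def IsRightStone (t : Finset Cell) : Prop :=
  ∃ x y z : ℤ, x + y + z = 0 ∧ t = {(x + 1, y, z), (x, y + 1, z), (x, y, z + 1)}

/-- A left stone: `{v-e₁, v-e₂, v-e₃}` with `v` of coordinate sum `2`. -/
def IsLeftStone (t : Finset Cell) : Prop :=
  ∃ x y z : ℤ, x + y + z = 2 ∧ t = {(x - 1, y, z), (x, y - 1, z), (x, y, z - 1)}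

/-- A bone in direction `(d,e,f)`: three cells `c, c+(d,e,f), c+2(d,e,f)`. -/
def IsBone (d e f : ℤ) (t : Finset Cell) : Prop :=
  ∃ x y z : ℤ, x + y + z = 1 ∧
    t = {(x, y, z), (x + d, y + e, z + f), (x + 2 * d, y + 2 * e, z + 2 * f)}

/-- `P` is a tiling (partition) of the set `B` of cells into sets satisfying `Tile`. -/
def IsTiling (Tile : Finset Cell → Prop) (B : Set Cell) (P : Finset (Finset Cell)) : Prop :=
  (∀ t ∈ P, Tile t ∧ (t : Set Cell) ⊆ B) ∧ ∀ c ∈ B, ∃! t, t ∈ P ∧ c ∈ t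

end Pool.Agent.Benzel
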