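import Mathlib

/-! Chains of a partial injection with a strictly monotone potential. -/

namespace Pool.Agent.Benzel

open Relation

variable {α : Type*} {r : α → α → Prop}

lemma exists_end (μ : α → ℤ) (L : ℤ) (h1 : ∀ s t, r s t → μ t < μ s)
    (h2 : ∀ s t, r s t → L ≤ μ t) (s : α) : ∃ e, ReflTransGen r s e ∧ ∀ t, ¬ r e t := by
  have key : ∀ n : ℕ, ∀ s : α, (μ s - L).toNat ≤ n → ∃ e, ReflTransGen r s e ∧ ∀ t, ¬ r e t := by
    intro n
    induction n with
    | zero =>
      intro s hs
      by_cases h : ∃ t, r s t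
      · obtain ⟨t, ht⟩ := h
        exfalso
        have := h1 s t ht
        have := h2 s t ht
        omega
      · push Not at h
        exact ⟨s, ReflTransGen.refl, h⟩
    | succ n ih =>
      intro s hs
      by_cases h : ∃ t, r s t
      · obtain ⟨t, ht⟩ := h
        have a1 := h1 s t ht
        have a2 := h2 s t ht
        obtain ⟨e, he, he2⟩ := ih t (by omega)
        exact ⟨e, ReflTransGen.head ht he, he2⟩
      · push Not at h
        exact ⟨s, ReflTransGen.refl, h⟩
  exact key _ s le_rfl

lemma exists_start (μ : α → ℤ) (U : ℤ) (h1 : ∀ s t, r s t → μ t < μ s)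
    (h2 : ∀ s t, r s t → μ s ≤ U) (t : α) : ∃ b, ReflTransGen r b t ∧ ∀ s, ¬ r s b := by
  have key : ∀ n : ℕ, ∀ t : α, (U - μ t).toNat ≤ n → ∃ b, ReflTransGen r b t ∧ ∀ s, ¬ r s b := by
    intro n
    induction n with
    | zero =>
      intro t hs
      by_cases h : ∃ s, r s t
      · obtain ⟨s, ht⟩ := h
        exfalso
        have := h1 s t ht
        have := h2 s t ht
        omega
      · push Not at h
        exact ⟨t, ReflTransGen.refl, h⟩
    | succ n ih =>
      intro t hs
      by_cases h : ∃ s, r s t
      · obtain ⟨s, ht⟩ := h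
        have a1 := h1 s t ht
        have a2 := h2 s t ht
        obtain ⟨e, he, he2⟩ := ih s (by omega)
        exact ⟨e, ReflTransGen.tail he ht, he2⟩
      · push Not at h
        exact ⟨t, ReflTransGen.refl, h⟩
  exact key _ t le_rfl

lemma start_unique (hl : ∀ s s' t, r s t → r s' t → s = s') {b b' t : α}
    (h : ReflTransGen r b t) (h' : ReflTransGen r b' t)
    (hb : ∀ s, ¬ r s b) (hb' : ∀ s, ¬ r s b') : b = b' := by
  induction h with
  | refl =>
    rcases ReflTransGen.cases_tail h' with e | ⟨c, _, hc⟩
    · exact e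
    · exact absurd hc (hb c)
  | tail h1 h2 ih =>
    rcases ReflTransGen.cases_tail h' with e | ⟨c, hc1, hc⟩
    · subst e
      exact absurd h2 (hb' _)
    · have := hl _ _ _ h2 hc
      subst this
      exact ih hc1

lemma end_unique (hr : ∀ s t t', r s t → r s t' → t = t') {s e e' : α}
    (h : ReflTransGen r s e) (h' : ReflTransGen r s e')
    (hb : ∀ t, ¬ r e t) (hb' : ∀ t, ¬ r e' t) : e = e' := by
  induction h using ReflTransGen.head_induction_on with
  | refl =>
    rcases ReflTransGen.cases_head h' with e1 | ⟨c, hc, _⟩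
    · exact e1
    · exact absurd hc (hb c)
  | head h1 h2 ih =>
    rcases ReflTransGen.cases_head h' with e1 | ⟨c, hc, hc1⟩
    · subst e1
      exact absurd h1 (hb' _)
    · have := hr _ _ _ h1 hc
      subst this
      exact ih hc1

lemma mono_chain (f g : α → ℤ) (h : ∀ s t, r s t → f t ≤ f s ∧ g s ≤ g t) {s t : α}
    (hst : ReflTransGen r s t) : f t ≤ f s ∧ g s ≤ g t := by
  induction hst with
  | refl => exact ⟨le_rfl, le_rfl⟩
  | tail h1 h2 ih =>
    have := h _ _ h2
    omega

lemma inv_chain (V : α → Prop) (h : ∀ s t, V s → r s t → V t) {s t : α}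
    (hst : ReflTransGen r s t) (hs : V s) : V t := by
  induction hst with
  | refl => exact hs
  | tail h1 h2 ih => exact h _ _ ih h2

lemma inv_chain_back (V : α → Prop) (h : ∀ s t, V t → r s t → V s) {s t : α}
    (hst : ReflTransGen r s t) (hs : V t) : V s := by
  induction hst using ReflTransGen.head_induction_on with
  | refl => exact hs
  | head h1 h2 ih => exact h _ _ ih h1

end Pool.Agent.Benzel
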