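import Pool.Agent.Benzel.Gen

/-! Tilings of the (n,2n-4)-benzel: exactly one junction. -/

namespace Pool.Agent.Benzel

open Relation

/-- the corners -/
def vA (m : ℤ) : Site := (m, 0, 0)
/-- the corners -/
def vB (m : ℤ) : Site := (0, m, 0)
/-- the corners -/
def vC (m : ℤ) : Site := (0, 0, m)

/-- sites whose e1 cell is present -/
noncomputable def F1 (m : ℤ) : Finset Site := ((Dl m).erase (vB m)).erase (vC m)
/-- sites whose e2 cell is present -/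
noncomputable def F2 (m : ℤ) : Finset Site := ((Dl m).erase (vA m)).erase (vC m)
/-- sites whose e3 cell is present -/
noncomputable def F3 (m : ℤ) : Finset Site := ((Dl m).erase (vA m)).erase (vB m)

lemma mem_F1 {m : ℤ} {s : Site} : s ∈ F1 m ↔
    0 ≤ s.1 ∧ 0 ≤ s.2.1 ∧ 0 ≤ s.2.2 ∧ s.1 + s.2.1 + s.2.2 = m ∧ s.2.1 ≠ m ∧ s.2.2 ≠ m := by
  unfold F1 vB vC
  rw [Finset.mem_erase, Finset.mem_erase, mem_Dl]
  simp only [ne_eq, site_ext_iff]
  omega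

lemma mem_F2 {m : ℤ} {s : Site} : s ∈ F2 m ↔
    0 ≤ s.1 ∧ 0 ≤ s.2.1 ∧ 0 ≤ s.2.2 ∧ s.1 + s.2.1 + s.2.2 = m ∧ s.1 ≠ m ∧ s.2.2 ≠ m := by
  unfold F2 vA vC
  rw [Finset.mem_erase, Finset.mem_erase, mem_Dl]
  simp only [ne_eq, site_ext_iff]
  omega

lemma mem_F3 {m : ℤ} {s : Site} : s ∈ F3 m ↔
    0 ≤ s.1 ∧ 0 ≤ s.2.1 ∧ 0 ≤ s.2.2 ∧ s.1 + s.2.1 + s.2.2 = m ∧ s.1 ≠ m ∧ s.2.1 ≠ m := by
  unfold F3 vA vB
  rw [Finset.mem_erase, Finset.mem_erase, mem_Dl]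
  simp only [ne_eq, site_ext_iff]
  omega

lemma F1_sub (m : ℤ) : F1 m ⊆ Dl m := fun _ hs =>
  Finset.mem_of_mem_erase (Finset.mem_of_mem_erase hs)
lemma F2_sub (m : ℤ) : F2 m ⊆ Dl m := fun _ hs =>
  Finset.mem_of_mem_erase (Finset.mem_of_mem_erase hs)
lemma F3_sub (m : ℤ) : F3 m ⊆ Dl m := fun _ hs =>
  Finset.mem_of_mem_erase (Finset.mem_of_mem_erase hs)

section full

variable {M : Finset Tri} {m : ℤ} {R1 R2 R3 : Finset Site}

lemma A4 (h : IsMat Al1 (F1 m) (F2 m) (F3 m) M) {s : Site} (hs : actA M s) :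
    ∃ J ∈ M, tyJ J ∧ ReflTransGen (Ar M) s J.1 := by
  rcases hs.next h with ⟨t, ht⟩ | ⟨J, hJ, h1, h2⟩
  · obtain ⟨e, he, e2, e3, _, h5, _⟩ := fwdA h (F2_sub m) ht
    have he1 : e ∈ F1 m := by
      rw [mem_F2] at e2
      rw [mem_F3] at e3
      rw [mem_F1]
      omega
    rcases h5 with h5 | ⟨J, hJ, h6, h7⟩
    · exact absurd he1 h5
    · exact ⟨J, hJ, h6, by rw [h7]; exact ReflTransGen.head ht he⟩
  · exact ⟨J, hJ, h1, by rw [h2]⟩

lemma C4 (h : IsMat Al1 (F1 m) (F2 m) (F3 m) M) {s : Site} (hs : actC M s) :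
    ∃ J ∈ M, tyJ J ∧ ReflTransGen (Cr M) s J.2.2 := by
  rcases hs.next h with ⟨t, ht⟩ | ⟨J, hJ, h1, h2⟩
  · obtain ⟨e, he, e1, e2, _, h5, _⟩ := fwdC h (F1_sub m) ht
    have he1 : e ∈ F3 m := by
      rw [mem_F1] at e1
      rw [mem_F2] at e2
      rw [mem_F3]
      omega
    rcases h5 with h5 | ⟨J, hJ, h6, h7⟩
    · exact absurd he1 h5
    · exact ⟨J, hJ, h6, by rw [h7]; exact ReflTransGen.head ht he⟩
  · exact ⟨J, hJ, h1, by rw [h2]⟩

/-- all three cells of `s` lie in different tiles -/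
def isS (M : Finset Tri) (s : Site) : Prop := actA M s ∧ actB M s ∧ actC M s

lemma B4 (h : IsMat Al1 (F1 m) (F2 m) (F3 m) M) {t : Site} (ht : actB M t) :
    ∃ b, ReflTransGen (Br M) b t ∧ (b = vB m ∨ isS M b) := by
  obtain ⟨b, hb, hb2⟩ := exists_start (r := Br M) (fun s => s.2.1 - s.1) m
    (fun s t hst => (hst.mono h).2.2)
    (fun s t hst => by
      have := mem_F2.1 (h.m2 _ hst.1)
      simp only at this ⊢
      omega) t
  refine ⟨b, hb, ?_⟩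
  have hact : actB M b := by
    rcases ReflTransGen.cases_head hb with e | ⟨c, hc, _⟩
    · subst e; exact ht
    · exact ⟨_, hc.1, rfl, hc.2.symm, hc.2.symm⟩
  obtain ⟨p', hp', e1, e2, e3⟩ := hact
  have hb3 : b ∈ F2 m := by rw [← e1]; exact h.m2 _ hp'
  by_cases hvB : b = vB m
  · exact Or.inl hvB
  right
  have hb4 : b ∈ F1 m ∧ b ∈ F3 m := by
    unfold vB at hvB
    rw [site_ext_iff] at hvB
    simp only at hvB
    rw [mem_F2] at hb3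
    rw [mem_F1, mem_F3]
    omega
  obtain ⟨p, hp, hp1⟩ := h.c1 b hb4.1
  obtain ⟨q, hq, hq1⟩ := h.c3 b hb4.2
  have hpp : p.2.1 ≠ b := fun e => e2 (by rw [← h.u2 _ hp _ hp' (e.trans e1.symm)]; exact hp1)
  have hpq : p ≠ q := by
    intro e
    subst e
    apply hb2 p.2.1
    refine ⟨?_, hpp⟩
    have : p = (b, p.2.1, b) := by
      refine Prod.ext hp1 (Prod.ext rfl hq1)
    rw [← this]
    exact hp
  refine ⟨⟨p, hp, hp1, hpp, ?_⟩, ⟨p', hp', e1, e2, e3⟩, ⟨q, hq, hq1, ?_, ?_⟩⟩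
  · intro e
    exact hpq (h.u3 _ hp _ hq (e.trans hq1.symm))
  · intro e
    exact hpq (h.u1 _ hp _ hq (hp1.trans e.symm))
  · intro e
    exact e3 (by rw [← h.u2 _ hq _ hp' (e.trans e1.symm)]; exact hq1)

lemma J_actB {J : Tri} (hJ : J ∈ M) (h : tyJ J) : actB M J.2.1 :=
  ⟨J, hJ, rfl, (tyJ_ne h).1, (tyJ_ne h).2.2.symm⟩

lemma J_noB (h : IsMat Al1 R1 R2 R3 M) {J : Tri} (hJ : J ∈ M) (hJ2 : tyJ J) (t : Site) :
    ¬ Br M J.2.1 t := by
  intro hb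
  have := h.u2 _ hJ _ hb.1 rfl
  apply (tyJ_ne hJ2).2.1
  rw [this]

lemma J_noA (h : IsMat Al1 R1 R2 R3 M) {J : Tri} (hJ : J ∈ M) (hJ2 : tyJ J) (t : Site) :
    ¬ Ar M J.1 t := by
  intro hb
  have := h.u1 _ hJ _ hb.1 rfl
  apply (tyJ_ne hJ2).2.2
  rw [this]

lemma J_noC (h : IsMat Al1 R1 R2 R3 M) {J : Tri} (hJ : J ∈ M) (hJ2 : tyJ J) (t : Site) :
    ¬ Cr M J.2.2 t := by
  intro hb
  have := h.u3 _ hJ _ hb.1 rfl
  apply (tyJ_ne hJ2).1
  rw [this]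

/-- If two junctions are reached from the same corner, they agree. -/
lemma J_eq (h : IsMat Al1 R1 R2 R3 M) {J J' : Tri} (hJ : J ∈ M) (hJ2 : tyJ J)
    (hJ' : J' ∈ M) (hJ2' : tyJ J') {b : Site} (h1 : ReflTransGen (Br M) b J.2.1)
    (h2 : ReflTransGen (Br M) b J'.2.1) : J = J' := by
  have := end_unique (r := Br M) (fun s t t' h1 h2 => h1.right_unique h h2) h1 h2
    (J_noB h hJ hJ2) (J_noB h hJ' hJ2')
  exact h.u2 _ hJ _ hJ' this

lemma noS4 (h : IsMat Al1 (F1 m) (F2 m) (F3 m) M) (s : Site) : ¬ isS M s := by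
  classical
  intro hs
  have hmem : ∀ s, isS M s → s ∈ Dl m := by
    rintro s ⟨⟨p, hp, e, _⟩, _⟩
    rw [← e]
    exact F1_sub m (h.m1 _ hp)
  have hne : ((Dl m).filter (fun s => isS M s)).Nonempty :=
    ⟨s, Finset.mem_filter.2 ⟨hmem s hs, hs⟩⟩
  obtain ⟨s1, hs1, hmin⟩ := Finset.exists_min_image _ (fun s : Site => s.1) hne
  obtain ⟨s2, hs2, hmax⟩ := Finset.exists_max_image _ (fun s : Site => s.2.1) hne
  rw [Finset.mem_filter] at hs1 hs2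
  obtain ⟨J1, hJ1, hJ1t, c1⟩ := A4 h hs1.2.1
  obtain ⟨J2, hJ2, hJ2t, c2⟩ := C4 h hs2.2.2.2
  have m1 := mono_chain (r := Ar M) (fun s => s.1) (fun s => s.2.2)
    (fun s t hst => ⟨(hst.mono h).1, (hst.mono h).2.1⟩) c1
  have m2 := mono_chain (r := Cr M) (fun s => s.2.2) (fun s => s.2.1)
    (fun s t hst => ⟨(hst.mono h).1, (hst.mono h).2.1⟩) c2
  obtain ⟨b1, hb1, hb1'⟩ := B4 h (J_actB hJ1 hJ1t)
  obtain ⟨b2, hb2, hb2'⟩ := B4 h (J_actB hJ2 hJ2t)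
  have m3 := mono_chain (r := Br M) (fun s => s.2.1) (fun s => s.1)
    (fun s t hst => ⟨(hst.mono h).1, (hst.mono h).2.1⟩) hb1
  have m4 := mono_chain (r := Br M) (fun s => s.2.1) (fun s => s.1)
    (fun s t hst => ⟨(hst.mono h).1, (hst.mono h).2.1⟩) hb2
  have r1 := tyJ_rel hJ1t
  have r2 := tyJ_rel hJ2t
  have hb1'' : b1 = vB m := by
    rcases hb1' with e | e
    · exact e
    · exfalso
      have := hmin b1 (Finset.mem_filter.2 ⟨hmem _ e, e⟩)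
      omega
  have hb2'' : b2 = vB m := by
    rcases hb2' with e | e
    · exact e
    · exfalso
      have := hmax b2 (Finset.mem_filter.2 ⟨hmem _ e, e⟩)
      omega
  subst hb1''
  rw [hb2''] at hb2
  have hJJ := J_eq h hJ1 hJ1t hJ2 hJ2t hb1 hb2
  subst hJJ
  have q1 := hmin s2 (Finset.mem_filter.2 hs2)
  have q2 := hmax s1 (Finset.mem_filter.2 hs1)
  have q3 := mem_Dl.1 hs1.1
  have q4 := mem_Dl.1 hs2.1
  omega

lemma uniqueJ4 (hm : 1 ≤ m) (h : IsMat Al1 (F1 m) (F2 m) (F3 m) M) :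
    ∃ J ∈ M, tyJ J ∧ ∀ J' ∈ M, tyJ J' → J' = J := by
  have hvA : vA m ∈ F1 m := by
    rw [mem_F1]
    unfold vA
    simp only
    omega
  have hvA2 : vA m ∉ F2 m := by
    rw [mem_F2]
    unfold vA
    simp only
    omega
  have hvA3 : vA m ∉ F3 m := by
    rw [mem_F3]
    unfold vA
    simp only
    omega
  obtain ⟨p, hp, e⟩ := h.c1 _ hvA
  have hact : actA M (vA m) := by
    refine ⟨p, hp, e, ?_, ?_⟩
    · intro e2
      exact hvA2 (by rw [← e2]; exact h.m2 _ hp)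
    · intro e2
      exact hvA3 (by rw [← e2]; exact h.m3 _ hp)
  obtain ⟨J, hJ, hJt, _⟩ := A4 h hact
  refine ⟨J, hJ, hJt, ?_⟩
  intro J' hJ' hJt'
  obtain ⟨b1, hb1, hb1'⟩ := B4 h (J_actB hJ hJt)
  obtain ⟨b2, hb2, hb2'⟩ := B4 h (J_actB hJ' hJt')
  have e1 : b1 = vB m := by
    rcases hb1' with e | e
    · exact e
    · exact absurd e (noS4 h _)
  have e2 : b2 = vB m := by
    rcases hb2' with e | e
    · exact e
    · exact absurd e (noS4 h _)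
  rw [e1] at hb1
  rw [e2] at hb2
  exact J_eq h hJ' hJt' hJ hJt hb2 hb1

end full

end Pool.Agent.Benzel
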