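import Pool.Agent.Benzel.Four

/-! Counting tilings without junction of the region with three holes. -/

namespace Pool.Agent.Benzel

open Relation

variable {R : Type*} [CommSemiring R]

lemma wt_R {r l b1 b2 b3 : R} {p : Tri} (h : kR p) : wt r l b1 b2 b3 p = r := by
  unfold wt
  rw [if_pos h]

lemma wt_L {r l b1 b2 b3 : R} {p : Tri} (h : kL p) : wt r l b1 b2 b3 p = l := by
  have h1 : ¬ kR p := by
    unfold kR kL dd dv at *
    omega
  unfold wt
  rw [if_neg h1, if_pos h]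

lemma wt_k1 {r l b1 b2 b3 : R} {p : Tri} (h : k1 p) : wt r l b1 b2 b3 p = b1 := by
  have h1 : ¬ kR p := by
    unfold kR k1 dd dv at *
    omega
  have h2 : ¬ kL p := by
    unfold kL k1 dd dv at *
    omega
  unfold wt
  rw [if_neg h1, if_neg h2, if_pos h]

lemma wt_k2 {r l b1 b2 b3 : R} {p : Tri} (h : k2 p) : wt r l b1 b2 b3 p = b2 := by
  have h1 : ¬ kR p := by
    unfold kR k2 dd dv at *
    omega
  have h2 : ¬ kL p := by
    unfold kL k2 dd dv at *
    omega
  have h3 : ¬ k1 p := by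
    unfold k1 k2 dd dv at *
    omega
  unfold wt
  rw [if_neg h1, if_neg h2, if_neg h3, if_pos h]

lemma wt_k3 {r l b1 b2 b3 : R} {p : Tri} (h : k3 p) : wt r l b1 b2 b3 p = b3 := by
  have h1 : ¬ kR p := by
    unfold kR k3 dd dv at *
    omega
  have h2 : ¬ kL p := by
    unfold kL k3 dd dv at *
    omega
  have h3 : ¬ k1 p := by
    unfold k1 k3 dd dv at *
    omega
  have h4 : ¬ k2 p := by
    unfold k2 k3 dd dv at *
    omega
  unfold wt
  rw [if_neg h1, if_neg h2, if_neg h3, if_neg h4, if_pos h]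

lemma IsMat.al1 {R1 R2 R3 : Finset Site} {M : Finset Tri} (h : IsMat Al0 R1 R2 R3 M) :
    IsMat Al1 R1 R2 R3 M :=
  { h with al := fun p hp => (h.al p hp).al1 }

lemma Al0.not_J {p : Tri} (h : Al0 p) : ¬ tyJ p := by
  intro hJ
  have := tyJ_ne hJ
  rcases h with h | h | h | h
  · exact this.1 (tyO_eq h).1.symm
  · exact this.2.2 (tyA_eq h)
  · exact this.2.1 (tyB_eq h).symm
  · exact this.1 (tyC_eq h).symm

lemma tyO_mk (s : Site) : tyO (s, s, s) := by
  unfold tyO dd dv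
  simp only
  omega

/-- weighted number of junction-free tilings with holes `tA`, `tB`, `tC` -/
noncomputable def W4 (m : ℤ) (r l b1 b2 b3 : R) (tA tB tC : Site) : R :=
  W Al0 (wt r l b1 b2 b3) ((F1 m).erase tA) ((F2 m).erase tB) ((F3 m).erase tC)

/-- admissible holes -/
structure Good4 (m : ℤ) (tA tB tC : Site) : Prop where
  dA : tA ∈ Dl m
  dB : tB ∈ Dl m
  dC : tC ∈ Dl m
  x : tB.1 < tA.1
  y : tC.2.1 < tB.2.1
  z : tA.2.2 < tC.2.2

section boxes

variable {m : ℤ} {tA tB tC : Site} {M : Finset Tri}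

lemma boxA4 (h : IsMat Al0 ((F1 m).erase tA) ((F2 m).erase tB) ((F3 m).erase tC) M)
    {s t : Site} (hst : Ar M s t) :
    ReflTransGen (Ar M) t tA ∧ tA.1 ≤ t.1 ∧ t.2.2 ≤ tA.2.2 := by
  have h1 := h.al1
  obtain ⟨e, he, e2, e3, _, h5, h6, h7⟩ := fwdA (m := m) h1
    ((Finset.erase_subset _ _).trans (F2_sub m)) hst
  have he1 : e ∈ F1 m := by
    have e2' := mem_F2.1 (Finset.mem_of_mem_erase e2)
    have e3' := mem_F3.1 (Finset.mem_of_mem_erase e3)
    rw [mem_F1]
    omega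
  rcases h5 with h5 | ⟨J, hJ, h8, _⟩
  · have : e = tA := by
      by_contra hne
      exact h5 (Finset.mem_erase.2 ⟨hne, he1⟩)
    subst this
    exact ⟨he, h6, h7⟩
  · exact absurd h8 (h.al _ hJ).not_J

lemma boxB4 (h : IsMat Al0 ((F1 m).erase tA) ((F2 m).erase tB) ((F3 m).erase tC) M)
    {s t : Site} (hst : Br M s t) :
    ReflTransGen (Br M) t tB ∧ tB.2.1 ≤ t.2.1 ∧ t.1 ≤ tB.1 := by
  have h1 := h.al1
  obtain ⟨e, he, e2, e3, _, h5, h6, h7⟩ := fwdB (m := m) h1
    ((Finset.erase_subset _ _).trans (F1_sub m)) hst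
  have he1 : e ∈ F2 m := by
    have e2' := mem_F1.1 (Finset.mem_of_mem_erase e2)
    have e3' := mem_F3.1 (Finset.mem_of_mem_erase e3)
    rw [mem_F2]
    omega
  rcases h5 with h5 | ⟨J, hJ, h8, _⟩
  · have : e = tB := by
      by_contra hne
      exact h5 (Finset.mem_erase.2 ⟨hne, he1⟩)
    subst this
    exact ⟨he, h6, h7⟩
  · exact absurd h8 (h.al _ hJ).not_J

lemma boxC4 (h : IsMat Al0 ((F1 m).erase tA) ((F2 m).erase tB) ((F3 m).erase tC) M)
    {s t : Site} (hst : Cr M s t) :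
    ReflTransGen (Cr M) t tC ∧ tC.2.2 ≤ t.2.2 ∧ t.2.1 ≤ tC.2.1 := by
  have h1 := h.al1
  obtain ⟨e, he, e2, e3, _, h5, h6, h7⟩ := fwdC (m := m) h1
    ((Finset.erase_subset _ _).trans (F1_sub m)) hst
  have he1 : e ∈ F3 m := by
    have e2' := mem_F1.1 (Finset.mem_of_mem_erase e2)
    have e3' := mem_F2.1 (Finset.mem_of_mem_erase e3)
    rw [mem_F3]
    omega
  rcases h5 with h5 | ⟨J, hJ, h8, _⟩
  · have : e = tC := by
      by_contra hne
      exact h5 (Finset.mem_erase.2 ⟨hne, he1⟩)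
    subst this
    exact ⟨he, h6, h7⟩
  · exact absurd h8 (h.al _ hJ).not_J

lemma bg4 (h : IsMat Al0 ((F1 m).erase tA) ((F2 m).erase tB) ((F3 m).erase tC) M)
    {t : Site} (ht : t ∈ (F1 m).erase tA)
    (hA : ¬ (tA.1 ≤ t.1 ∧ t.2.2 ≤ tA.2.2)) (hB : ¬ (tB.2.1 ≤ t.2.1 ∧ t.1 ≤ tB.1))
    (hC : ¬ (tC.2.2 ≤ t.2.2 ∧ t.2.1 ≤ tC.2.1)) : (t, t, t) ∈ M := by
  obtain ⟨p, hp, rfl⟩ := h.c1 t ht
  rcases split (h.al p hp).al1 with h1 | h1 | h1 | h1 | h1
  · have : p = (p.1, p.1, p.1) := Prod.ext rfl (Prod.ext h1.1 h1.2)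
    rw [← this]
    exact hp
  · exfalso
    have e : p = (p.1, p.2.1, p.2.1) := Prod.ext rfl (Prod.ext rfl h1.1.symm)
    have ha : Ar M p.1 p.2.1 := ⟨by rw [← e]; exact hp, h1.2.1⟩
    have h2 := boxA4 h ha
    have h3 := ha.mono h.al1
    omega
  · exfalso
    have e : p = (p.1, p.2.1, p.1) := Prod.ext rfl (Prod.ext rfl h1.1)
    have ha : Br M p.2.1 p.1 := ⟨by rw [← e]; exact hp, h1.2.1⟩
    have h2 := boxB4 h ha
    exact hB h2.2
  · exfalso
    have e : p = (p.1, p.1, p.2.2) := Prod.ext rfl (Prod.ext h1.1 rfl)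
    have ha : Cr M p.2.2 p.1 := ⟨by rw [← e]; exact hp, h1.2.1⟩
    have h2 := boxC4 h ha
    exact hC h2.2
  · exact absurd h1 (h.al _ hp).not_J

lemma arrA4 (hm : 1 ≤ m)
    (h : IsMat Al0 ((F1 m).erase tA) ((F2 m).erase tB) ((F3 m).erase tC) M)
    (hne : tA ≠ vA m) : ∃ s, Ar M s tA := by
  have hvA : vA m ∈ (F1 m).erase tA := by
    rw [Finset.mem_erase, mem_F1]
    refine ⟨hne.symm, ?_⟩
    unfold vA
    simp only
    omega
  have hvA2 : vA m ∉ F2 m := by
    rw [mem_F2]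
    unfold vA
    simp only
    omega
  have hvA3 : vA m ∉ F3 m := by
    rw [mem_F3]
    unfold vA
    simp only
    omega
  obtain ⟨p, hp, e⟩ := h.c1 _ hvA
  have hact : actA M (vA m) := by
    refine ⟨p, hp, e, ?_, ?_⟩
    · intro e2
      exact hvA2 (by rw [← e2]; exact Finset.mem_of_mem_erase (h.m2 _ hp))
    · intro e2
      exact hvA3 (by rw [← e2]; exact Finset.mem_of_mem_erase (h.m3 _ hp))
  rcases hact.next h.al1 with ⟨t, ht⟩ | ⟨J, hJ, hJt, _⟩
  · obtain ⟨h1, _⟩ := boxA4 h ht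
    rcases ReflTransGen.cases_tail h1 with e1 | ⟨c, _, hc⟩
    · rw [e1]
      exact ⟨_, ht⟩
    · exact ⟨c, hc⟩
  · exact absurd hJt (h.al _ hJ).not_J

end boxes

lemma part4 {m : ℤ} {tA tB tC : Site} (r l b1 b2 b3 : R) (hG : Good4 m tA tB tC)
    (hne : tA ≠ vA m) (s : Site) (hA : tyA (s, tA, tA)) :
    r * ∑ M ∈ (mats Al0 ((F1 m).erase tA) ((F2 m).erase tB) ((F3 m).erase tC)).filter
        (fun M => (s, tA, tA) ∈ M), ∏ q ∈ M, wt r l b1 b2 b3 q
      = wt r l b1 b2 b3 (s, tA, tA) * (if s ∈ Dl m then W4 m r l b1 b2 b3 s tB tC else 0) := by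
  classical
  have hmono := tyA_mono hA
  simp only at hmono
  have hx := hG.x
  have hy := hG.y
  have hz := hG.z
  have dA := mem_Dl.1 hG.dA
  have dB := mem_Dl.1 hG.dB
  have dC := mem_Dl.1 hG.dC
  have hAm : tA.1 ≠ m := by
    intro e
    apply hne
    unfold vA
    rw [site_ext_iff]
    simp only
    omega
  by_cases hs : s ∈ Dl m
  · rw [if_pos hs]
    have ds := mem_Dl.1 hs
    have q1 : s ∈ (F1 m).erase tA := by
      rw [Finset.mem_erase, mem_F1]
      refine ⟨?_, ?_⟩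
      · intro e
        rw [site_ext_iff] at e
        omega
      · omega
    have q2 : tA ∈ (F2 m).erase tB := by
      rw [Finset.mem_erase, mem_F2]
      refine ⟨?_, ?_⟩
      · intro e
        rw [site_ext_iff] at e
        omega
      · omega
    have q3 : tA ∈ (F3 m).erase tC := by
      rw [Finset.mem_erase, mem_F3]
      refine ⟨?_, ?_⟩
      · intro e
        rw [site_ext_iff] at e
        omega
      · omega
    have q4 : tA ∈ (F1 m).erase s := by
      rw [Finset.mem_erase, mem_F1]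
      refine ⟨?_, ?_⟩
      · intro e
        rw [site_ext_iff] at e
        omega
      · omega
    rw [sum_mem Al0 (wt r l b1 b2 b3) _ _ _ (s, tA, tA) (Or.inr (Or.inl hA)) q1 q2 q3]
    have hf : W4 m r l b1 b2 b3 s tB tC = r * W Al0 (wt r l b1 b2 b3)
        (((F1 m).erase s).erase tA) (((F2 m).erase tB).erase tA) (((F3 m).erase tC).erase tA) := by
      unfold W4
      rw [W_forced Al0 (wt r l b1 b2 b3) ((F1 m).erase s) ((F2 m).erase tB) ((F3 m).erase tC)
        (tA, tA, tA) (Or.inl (tyO_mk tA)) q4 q2 q3]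
      · rw [wt_R (Or.inl (tyO_mk tA))]
      · intro M hM
        refine bg4 hM q4 ?_ ?_ ?_
        · omega
        · omega
        · omega
    rw [hf, Finset.erase_right_comm]
    simp only
    ring
  · rw [if_neg hs, mul_zero, Finset.sum_eq_zero, mul_zero]
    intro M hM
    rw [Finset.mem_filter, mem_mats] at hM
    exact absurd (F1_sub m (Finset.mem_of_mem_erase (hM.1.m1 _ hM.2))) hs

/-- sources of the three possible last steps -/
def sa (t : Site) : Site := (t.1 + 1, t.2.1 - 1, t.2.2)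
/-- sources of the three possible last steps -/
def sb (t : Site) : Site := (t.1, t.2.1 + 1, t.2.2 - 1)
/-- sources of the three possible last steps -/
def sc (t : Site) : Site := (t.1 + 1, t.2.1, t.2.2 - 1)

lemma tyA_iff {s t : Site} : tyA (s, t, t) ↔ s = sa t ∨ s = sb t ∨ s = sc t := by
  unfold tyA sa sb sc dd dv
  simp only [site_ext_iff]
  omega

lemma retract4 {m : ℤ} (hm : 1 ≤ m) {tA tB tC : Site} (r l b1 b2 b3 : R)
    (hG : Good4 m tA tB tC) (hne : tA ≠ vA m) :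
    r * W4 m r l b1 b2 b3 tA tB tC =
      b1 * (if sa tA ∈ Dl m then W4 m r l b1 b2 b3 (sa tA) tB tC else 0) +
      b1 * (if sb tA ∈ Dl m then W4 m r l b1 b2 b3 (sb tA) tB tC else 0) +
      l * (if sc tA ∈ Dl m then W4 m r l b1 b2 b3 (sc tA) tB tC else 0) := by
  classical
  have ha : tyA (sa tA, tA, tA) := tyA_iff.2 (Or.inl rfl)
  have hb : tyA (sb tA, tA, tA) := tyA_iff.2 (Or.inr (Or.inl rfl))
  have hc : tyA (sc tA, tA, tA) := tyA_iff.2 (Or.inr (Or.inr rfl))
  have wa : wt r l b1 b2 b3 (sa tA, tA, tA) = b1 := by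
    apply wt_k1
    unfold k1 sa dd dv
    simp only
    omega
  have wb : wt r l b1 b2 b3 (sb tA, tA, tA) = b1 := by
    apply wt_k1
    unfold k1 sb dd dv
    simp only
    omega
  have wc : wt r l b1 b2 b3 (sc tA, tA, tA) = l := by
    apply wt_L
    unfold kL sc dd dv
    simp only
    omega
  have pa := part4 r l b1 b2 b3 hG hne (sa tA) ha
  have pb := part4 r l b1 b2 b3 hG hne (sb tA) hb
  have pc := part4 r l b1 b2 b3 hG hne (sc tA) hc
  rw [wa] at pa
  rw [wb] at pb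
  rw [wc] at pc
  rw [← pa, ← pb, ← pc, ← mul_add, ← mul_add]
  congr 1
  rw [Finset.sum_filter, Finset.sum_filter, Finset.sum_filter, ← Finset.sum_add_distrib,
    ← Finset.sum_add_distrib]
  unfold W4 W
  apply Finset.sum_congr rfl
  intro M hM
  rw [mem_mats] at hM
  obtain ⟨s, hs⟩ := arrA4 hm hM hne
  have key : ∀ s' : Site, (s', tA, tA) ∈ M → s' = s := by
    intro s' h'
    exact congrArg Prod.fst (hM.u2 _ h' _ hs.1 rfl)
  have nab : sa tA ≠ sb tA := by
    unfold sa sb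
    rw [Ne, site_ext_iff]
    simp only
    omega
  have nac : sa tA ≠ sc tA := by
    unfold sa sc
    rw [Ne, site_ext_iff]
    simp only
    omega
  have nbc : sb tA ≠ sc tA := by
    unfold sb sc
    rw [Ne, site_ext_iff]
    simp only
    omega
  rcases tyA_iff.1 (hs.ty hM.al1) with e | e | e
  · have i1 : (sa tA, tA, tA) ∈ M := by rw [← e]; exact hs.1
    have i2 : (sb tA, tA, tA) ∉ M := fun h' => nab (by rw [key _ h', ← e])
    have i3 : (sc tA, tA, tA) ∉ M := fun h' => nac (by rw [key _ h', ← e])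
    rw [if_pos i1, if_neg i2, if_neg i3, add_zero, add_zero]
  · have i1 : (sb tA, tA, tA) ∈ M := by rw [← e]; exact hs.1
    have i2 : (sa tA, tA, tA) ∉ M := fun h' => nab (by rw [key _ h', ← e])
    have i3 : (sc tA, tA, tA) ∉ M := fun h' => nbc (by rw [key _ h', ← e])
    rw [if_pos i1, if_neg i2, if_neg i3, add_zero, zero_add]
  · have i1 : (sc tA, tA, tA) ∈ M := by rw [← e]; exact hs.1
    have i2 : (sa tA, tA, tA) ∉ M := fun h' => nac (by rw [key _ h', ← e])
    have i3 : (sb tA, tA, tA) ∉ M := fun h' => nbc (by rw [key _ h', ← e])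
    rw [if_pos i1, if_neg i2, if_neg i3, add_zero, zero_add]

end Pool.Agent.Benzel
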