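import Pool.Agent.Benzel.FourCount

/-! The weighted number of tilings of the (n,2n-4)-benzel as a triple sum. -/

namespace Pool.Agent.Benzel

open Relation

section paths

variable {R : Type*} [CommSemiring R]

/-- weighted ballot-type numbers; the first argument is the number of slots, the second the
height -/
def pc (b l : R) : ℕ → ℕ → R
  | 0, y => b ^ y
  | z + 1, 0 => b * pc b l z 1 + l * pc b l z 0
  | z + 1, y + 1 => b * pc b l (z + 1) y + b * pc b l z (y + 2) + l * pc b l z (y + 1)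
termination_by z y => (z, y)

lemma pc_zero (b l : R) (y : ℕ) : pc b l 0 y = b ^ y := by rw [pc]
lemma pc_succ_zero (b l : R) (z : ℕ) : pc b l (z + 1) 0 = b * pc b l z 1 + l * pc b l z 0 := by
  rw [pc]
lemma pc_succ_succ (b l : R) (z y : ℕ) : pc b l (z + 1) (y + 1) =
    b * pc b l (z + 1) y + b * pc b l z (y + 2) + l * pc b l z (y + 1) := by
  rw [pc]

/-- integer-argument version -/
def pz (b l : R) (y z : ℤ) : R := pc b l z.toNat y.toNat

lemma pz_rec (b l : R) (y z : ℤ) (hy : 0 ≤ y) (hz : 0 ≤ z) (h : y ≠ 0 ∨ z ≠ 0) :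
    pz b l y z = b * (if 1 ≤ y then pz b l (y - 1) z else 0) +
      b * (if 1 ≤ z then pz b l (y + 1) (z - 1) else 0) +
      l * (if 1 ≤ z then pz b l y (z - 1) else 0) := by
  obtain ⟨a, rfl⟩ := Int.eq_ofNat_of_zero_le hy
  obtain ⟨c, rfl⟩ := Int.eq_ofNat_of_zero_le hz
  unfold pz
  rcases c with _ | c
  · rcases a with _ | a
    · simp at h
    · rw [if_pos (by push_cast; omega), if_neg (by simp), if_neg (by simp)]
      have e1 : ((((a + 1 : ℕ) : ℤ)) - 1).toNat = a := by omega
      have e2 : (((a + 1 : ℕ) : ℤ)).toNat = a + 1 := by omega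
      have e3 : (((0 : ℕ) : ℤ)).toNat = 0 := by omega
      rw [e1, e2, e3, pc_zero, pc_zero, pow_succ]
      ring
  · have e3 : (((c + 1 : ℕ) : ℤ)).toNat = c + 1 := by omega
    have e4 : ((((c + 1 : ℕ) : ℤ)) - 1).toNat = c := by omega
    rcases a with _ | a
    · rw [if_neg (by simp), if_pos (by push_cast; omega), if_pos (by push_cast; omega)]
      have e5 : ((((0 : ℕ) : ℤ)) + 1).toNat = 1 := by omega
      have e6 : (((0 : ℕ) : ℤ)).toNat = 0 := by omega
      rw [e3, e4, e5, e6, pc_succ_zero]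
      ring
    · rw [if_pos (by push_cast; omega), if_pos (by push_cast; omega),
        if_pos (by push_cast; omega)]
      have e1 : ((((a + 1 : ℕ) : ℤ)) - 1).toNat = a := by omega
      have e2 : (((a + 1 : ℕ) : ℤ)).toNat = a + 1 := by omega
      have e5 : ((((a + 1 : ℕ) : ℤ)) + 1).toNat = a + 2 := by omega
      rw [e1, e2, e3, e4, e5, pc_succ_succ]

lemma sa_mem {m : ℤ} {t : Site} (h : t ∈ Dl m) : sa t ∈ Dl m ↔ 1 ≤ t.2.1 := by
  rw [mem_Dl] at h ⊢
  unfold sa
  simp only
  omega
lemma sb_mem {m : ℤ} {t : Site} (h : t ∈ Dl m) : sb t ∈ Dl m ↔ 1 ≤ t.2.2 := by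
  rw [mem_Dl] at h ⊢
  unfold sb
  simp only
  omega
lemma sc_mem {m : ℤ} {t : Site} (h : t ∈ Dl m) : sc t ∈ Dl m ↔ 1 ≤ t.2.2 := by
  rw [mem_Dl] at h ⊢
  unfold sc
  simp only
  omega

lemma Good4.step {m : ℤ} {tA tB tC s : Site} (h : Good4 m tA tB tC) (hs : s ∈ Dl m)
    (hx : tA.1 ≤ s.1) (hz : s.2.2 ≤ tA.2.2) : Good4 m s tB tC := by
  have := h.x
  have := h.z
  exact ⟨hs, h.dB, h.dC, by omega, h.y, by omega⟩

lemma W4_A {m : ℤ} (hm : 1 ≤ m) {tB tC : Site} (r r' l b1 b2 b3 : R) (hr : r' * r = 1) :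
    ∀ k : ℕ, ∀ tA : Site, Good4 m tA tB tC → (tA.2.1 + 2 * tA.2.2).toNat ≤ k →
      W4 m r l b1 b2 b3 tA tB tC =
        pz (r' * b1) (r' * l) tA.2.1 tA.2.2 * W4 m r l b1 b2 b3 (vA m) tB tC := by
  intro k
  induction k with
  | zero =>
    intro tA hG hk
    have h1 := mem_Dl.1 hG.dA
    have h2 : tA = vA m := by
      unfold vA
      rw [site_ext_iff]
      simp only
      omega
    have h3 : tA.2.1 = 0 := by omega
    have h4 : tA.2.2 = 0 := by omega
    rw [h3, h4, ← h2]
    unfold pz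
    simp [pc_zero]
  | succ k ih =>
    intro tA hG hk
    have h1 := mem_Dl.1 hG.dA
    by_cases h2 : tA = vA m
    · have h3 : tA.2.1 = 0 := by rw [h2]; rfl
      have h4 : tA.2.2 = 0 := by rw [h2]; rfl
      rw [h3, h4, ← h2]
      unfold pz
      simp [pc_zero]
    · have h3 : tA.2.1 ≠ 0 ∨ tA.2.2 ≠ 0 := by
        by_contra hcon
        apply h2
        unfold vA
        rw [site_ext_iff]
        simp only
        omega
      have key := retract4 hm r l b1 b2 b3 hG h2
      have f1 : (if sa tA ∈ Dl m then W4 m r l b1 b2 b3 (sa tA) tB tC else 0)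
          = (if 1 ≤ tA.2.1 then pz (r' * b1) (r' * l) (tA.2.1 - 1) tA.2.2 else 0)
            * W4 m r l b1 b2 b3 (vA m) tB tC := by
        by_cases hs : sa tA ∈ Dl m
        · have hs' := (sa_mem hG.dA).1 hs
          rw [if_pos hs, if_pos hs', ih (sa tA)]
          · rfl
          · apply hG.step hs <;> unfold sa <;> simp only <;> omega
          · unfold sa
            simp only
            omega
        · rw [if_neg hs, if_neg (fun h => hs ((sa_mem hG.dA).2 h)), zero_mul]
      have f2 : (if sb tA ∈ Dl m then W4 m r l b1 b2 b3 (sb tA) tB tC else 0)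
          = (if 1 ≤ tA.2.2 then pz (r' * b1) (r' * l) (tA.2.1 + 1) (tA.2.2 - 1) else 0)
            * W4 m r l b1 b2 b3 (vA m) tB tC := by
        by_cases hs : sb tA ∈ Dl m
        · have hs' := (sb_mem hG.dA).1 hs
          rw [if_pos hs, if_pos hs', ih (sb tA)]
          · rfl
          · apply hG.step hs <;> unfold sb <;> simp only <;> omega
          · unfold sb
            simp only
            omega
        · rw [if_neg hs, if_neg (fun h => hs ((sb_mem hG.dA).2 h)), zero_mul]
      have f3 : (if sc tA ∈ Dl m then W4 m r l b1 b2 b3 (sc tA) tB tC else 0)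
          = (if 1 ≤ tA.2.2 then pz (r' * b1) (r' * l) tA.2.1 (tA.2.2 - 1) else 0)
            * W4 m r l b1 b2 b3 (vA m) tB tC := by
        by_cases hs : sc tA ∈ Dl m
        · have hs' := (sc_mem hG.dA).1 hs
          rw [if_pos hs, if_pos hs', ih (sc tA)]
          · rfl
          · apply hG.step hs <;> unfold sc <;> simp only <;> omega
          · unfold sc
            simp only
            omega
        · rw [if_neg hs, if_neg (fun h => hs ((sc_mem hG.dA).2 h)), zero_mul]
      rw [f1, f2, f3] at key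
      calc W4 m r l b1 b2 b3 tA tB tC = r' * (r * W4 m r l b1 b2 b3 tA tB tC) := by
            rw [← mul_assoc, hr, one_mul]
        _ = _ := by
            rw [key, pz_rec _ _ _ _ h1.2.1 h1.2.2.1 h3]
            ring

lemma W4_rot (m : ℤ) (r l b1 b2 b3 : R) (tA tB tC : Site) :
    W4 m r l b1 b2 b3 tA tB tC = W4 m r l b2 b3 b1 (rho tB) (rho tC) (rho tA) := by
  have hinj : ∀ s t : Site, rho s = rho t ↔ s = t := by
    intro s t
    unfold rho
    rw [site_ext_iff, site_ext_iff]
    simp only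
    omega
  unfold W4
  refine W_rot (fun p => Al0_rot p) (fun p => wt_rot r l b1 b2 b3 p) ?_ ?_ ?_
  · intro s
    rw [Finset.mem_erase, Finset.mem_erase, ne_eq, ne_eq, hinj, mem_F1, mem_F2]
    refine and_congr Iff.rfl ?_
    unfold rho
    simp only
    omega
  · intro s
    rw [Finset.mem_erase, Finset.mem_erase, ne_eq, ne_eq, hinj, mem_F2, mem_F3]
    refine and_congr Iff.rfl ?_
    unfold rho
    simp only
    omega
  · intro s
    rw [Finset.mem_erase, Finset.mem_erase, ne_eq, ne_eq, hinj, mem_F3, mem_F1]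
    refine and_congr Iff.rfl ?_
    unfold rho
    simp only
    omega

/-- the sites different from the three corners -/
noncomputable def D0 (m : ℤ) : Finset Site := (F1 m).erase (vA m)

lemma mem_D0 {m : ℤ} {s : Site} : s ∈ D0 m ↔
    0 ≤ s.1 ∧ 0 ≤ s.2.1 ∧ 0 ≤ s.2.2 ∧ s.1 + s.2.1 + s.2.2 = m ∧ s.1 ≠ m ∧ s.2.1 ≠ m ∧
      s.2.2 ≠ m := by
  unfold D0 vA
  rw [Finset.mem_erase, mem_F1]
  simp only [ne_eq, site_ext_iff]
  omega

lemma D0_eq2 (m : ℤ) : (F2 m).erase (vB m) = D0 m := by
  ext s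
  rw [mem_D0, Finset.mem_erase, mem_F2]
  unfold vB
  simp only [ne_eq, site_ext_iff]
  omega

lemma D0_eq3 (m : ℤ) : (F3 m).erase (vC m) = D0 m := by
  ext s
  rw [mem_D0, Finset.mem_erase, mem_F3]
  unfold vC
  simp only [ne_eq, site_ext_iff]
  omega

lemma W4_base (m : ℤ) (r l b1 b2 b3 : R) :
    W4 m r l b1 b2 b3 (vA m) (vB m) (vC m) = r ^ (D0 m).card := by
  classical
  have hm : mats Al0 ((F1 m).erase (vA m)) ((F2 m).erase (vB m)) ((F3 m).erase (vC m))
      = {(D0 m).image (fun s : Site => ((s, s, s) : Tri))} := by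
    ext M
    rw [Finset.mem_singleton, mem_mats]
    constructor
    · intro h
      have hbg : ∀ p ∈ M, p = (p.1, p.1, p.1) := by
        intro p hp
        rcases split (h.al p hp).al1 with h1 | h1 | h1 | h1 | h1
        · exact Prod.ext rfl (Prod.ext h1.1 h1.2)
        · exfalso
          have e : p = (p.1, p.2.1, p.2.1) := Prod.ext rfl (Prod.ext rfl h1.1.symm)
          have ha : Ar M p.1 p.2.1 := ⟨by rw [← e]; exact hp, h1.2.1⟩
          have h2 := (boxA4 h ha).2.1
          have h3 := mem_F2.1 (Finset.mem_of_mem_erase (h.m2 _ hp))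
          unfold vA at h2
          simp only at h2
          omega
        · exfalso
          have e : p = (p.1, p.2.1, p.1) := Prod.ext rfl (Prod.ext rfl h1.1)
          have ha : Br M p.2.1 p.1 := ⟨by rw [← e]; exact hp, h1.2.1⟩
          have h2 := (boxB4 h ha).2.1
          have h3 := mem_F1.1 (Finset.mem_of_mem_erase (h.m1 _ hp))
          unfold vB at h2
          simp only at h2
          omega
        · exfalso
          have e : p = (p.1, p.1, p.2.2) := Prod.ext rfl (Prod.ext h1.1 rfl)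
          have ha : Cr M p.2.2 p.1 := ⟨by rw [← e]; exact hp, h1.2.1⟩
          have h2 := (boxC4 h ha).2.1
          have h3 := mem_F1.1 (Finset.mem_of_mem_erase (h.m1 _ hp))
          unfold vC at h2
          simp only at h2
          omega
        · exact absurd h1 (h.al _ hp).not_J
      ext p
      rw [Finset.mem_image]
      constructor
      · intro hp
        exact ⟨p.1, h.m1 _ hp, (hbg p hp).symm⟩
      · rintro ⟨s, hs, rfl⟩
        obtain ⟨p, hp, e⟩ := h.c1 s hs
        have := hbg p hp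
        rw [e] at this
        rw [← this]
        exact hp
    · rintro rfl
      rw [D0_eq2, D0_eq3]
      change IsMat Al0 (D0 m) (D0 m) (D0 m) _
      have hmem : ∀ p, p ∈ (D0 m).image (fun s : Site => ((s, s, s) : Tri)) ↔
          ∃ s ∈ D0 m, (s, s, s) = p := by
        intro p
        rw [Finset.mem_image]
      constructor
      · intro p hp
        obtain ⟨s, hs, rfl⟩ := (hmem p).1 hp
        exact Or.inl (tyO_mk s)
      · intro p hp
        obtain ⟨s, hs, rfl⟩ := (hmem p).1 hp
        exact hs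
      · intro p hp
        obtain ⟨s, hs, rfl⟩ := (hmem p).1 hp
        exact hs
      · intro p hp
        obtain ⟨s, hs, rfl⟩ := (hmem p).1 hp
        exact hs
      · intro p hp q hq e
        obtain ⟨s, hs, rfl⟩ := (hmem p).1 hp
        obtain ⟨t, ht, rfl⟩ := (hmem q).1 hq
        simp only at e
        rw [e]
      · intro p hp q hq e
        obtain ⟨s, hs, rfl⟩ := (hmem p).1 hp
        obtain ⟨t, ht, rfl⟩ := (hmem q).1 hq
        simp only at e
        rw [e]
      · intro p hp q hq e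
        obtain ⟨s, hs, rfl⟩ := (hmem p).1 hp
        obtain ⟨t, ht, rfl⟩ := (hmem q).1 hq
        simp only at e
        rw [e]
      · intro s hs
        exact ⟨(s, s, s), (hmem _).2 ⟨s, hs, rfl⟩, rfl⟩
      · intro s hs
        exact ⟨(s, s, s), (hmem _).2 ⟨s, hs, rfl⟩, rfl⟩
      · intro s hs
        exact ⟨(s, s, s), (hmem _).2 ⟨s, hs, rfl⟩, rfl⟩
  unfold W4 W
  rw [hm, Finset.sum_singleton, Finset.prod_image]
  · rw [Finset.prod_congr rfl (g := fun _ => r)]
    · rw [Finset.prod_const]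
    · intro s _
      exact wt_R (Or.inl (tyO_mk s))
  · intro s _ t _ e
    exact congrArg Prod.fst e

/-- The product formula. -/
theorem W4_eq {m : ℤ} (hm : 1 ≤ m) {tA tB tC : Site} (r r' l b1 b2 b3 : R) (hr : r' * r = 1)
    (hG : Good4 m tA tB tC) :
    W4 m r l b1 b2 b3 tA tB tC =
      pz (r' * b1) (r' * l) tA.2.1 tA.2.2 * pz (r' * b2) (r' * l) tB.2.2 tB.1 *
        pz (r' * b3) (r' * l) tC.1 tC.2.1 * r ^ (D0 m).card := by
  have hx := hG.x
  have hy := hG.y
  have hz := hG.z
  have dA := mem_Dl.1 hG.dA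
  have dB := mem_Dl.1 hG.dB
  have dC := mem_Dl.1 hG.dC
  have hvA : vA m ∈ Dl m := by
    rw [mem_Dl]; unfold vA; simp only; omega
  have hvB : vB m ∈ Dl m := by
    rw [mem_Dl]; unfold vB; simp only; omega
  have hvC : vC m ∈ Dl m := by
    rw [mem_Dl]; unfold vC; simp only; omega
  have rD : ∀ s : Site, s ∈ Dl m → rho s ∈ Dl m := by
    intro s hs
    rw [mem_Dl] at hs ⊢
    unfold rho
    simp only
    omega
  rw [W4_A hm r r' l b1 b2 b3 hr _ tA hG le_rfl, W4_rot]
  have e1 : rho (vA m) = vC m := rfl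
  have e2 : rho (vC m) = vB m := rfl
  have hG2 : Good4 m (rho tB) (rho tC) (vC m) := by
    refine ⟨rD _ hG.dB, rD _ hG.dC, hvC, ?_, ?_, ?_⟩
    · change tC.2.1 < tB.2.1; omega
    · change (0 : ℤ) < tC.2.2; omega
    · change tB.1 < m; omega
  rw [e1, W4_A hm r r' l b2 b3 b1 hr _ (rho tB) hG2 le_rfl, W4_rot, e1, e2]
  have hG3 : Good4 m (rho (rho tC)) (vB m) (vC m) := by
    refine ⟨rD _ (rD _ hG.dC), hvB, hvC, ?_, ?_, ?_⟩
    · change (0 : ℤ) < tC.2.2; omega
    · change (0 : ℤ) < m; omega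
    · change tC.2.1 < m; omega
  rw [W4_A hm r r' l b3 b1 b2 hr _ (rho (rho tC)) hG3 le_rfl, W4_base]
  have e3 : (rho tB).2.1 = tB.2.2 := rfl
  have e4 : (rho tB).2.2 = tB.1 := rfl
  have e5 : (rho (rho tC)).2.1 = tC.1 := rfl
  have e6 : (rho (rho tC)).2.2 = tC.2.1 := rfl
  rw [e3, e4, e5, e6]
  ring

end paths

end Pool.Agent.Benzel
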