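import Pool.Agent.Benzel.Types
import Pool.Agent.Benzel.Flow

/-! General facts about exact covers: arrows of the three types and their chains. -/

namespace Pool.Agent.Benzel

open Relation

lemma split {p : Tri} (h : Al1 p) :
    (p.2.1 = p.1 ∧ p.2.2 = p.1) ∨ (p.2.1 = p.2.2 ∧ p.1 ≠ p.2.1 ∧ tyA p) ∨
    (p.2.2 = p.1 ∧ p.2.1 ≠ p.1 ∧ tyB p) ∨ (p.2.1 = p.1 ∧ p.2.2 ≠ p.1 ∧ tyC p) ∨ tyJ p := by
  rcases (Al1_iff p).1 h with (h | h | h | h) | h
  · exact Or.inl (tyO_eq h)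
  · refine Or.inr (Or.inl ⟨tyA_eq h, ?_, h⟩)
    intro e
    have := tyA_mono h
    rw [site_ext_iff] at e
    omega
  · refine Or.inr (Or.inr (Or.inl ⟨tyB_eq h, ?_, h⟩))
    intro e
    have := tyB_mono h
    rw [site_ext_iff] at e
    omega
  · refine Or.inr (Or.inr (Or.inr (Or.inl ⟨tyC_eq h, ?_, h⟩)))
    intro e
    have := tyC_mono h
    rw [site_ext_iff] at e
    omega
  · exact Or.inr (Or.inr (Or.inr (Or.inr h)))

lemma tyJ_ne {p : Tri} (h : tyJ p) : p.1 ≠ p.2.1 ∧ p.1 ≠ p.2.2 ∧ p.2.1 ≠ p.2.2 := by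
  have := tyJ_rel h
  refine ⟨?_, ?_, ?_⟩ <;> intro e <;> rw [site_ext_iff] at e <;> omega

/-- arrow of type A -/
def Ar (M : Finset Tri) (s t : Site) : Prop := (s, t, t) ∈ M ∧ s ≠ t
/-- arrow of type B -/
def Br (M : Finset Tri) (s t : Site) : Prop := (t, s, t) ∈ M ∧ s ≠ t
/-- arrow of type C -/
def Cr (M : Finset Tri) (s t : Site) : Prop := (t, t, s) ∈ M ∧ s ≠ t

variable {R1 R2 R3 : Finset Site} {M : Finset Tri} {m : ℤ}

lemma Ar.ty (h : IsMat Al1 R1 R2 R3 M) {s t : Site} (hst : Ar M s t) : tyA (s, t, t) := by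
  rcases split (h.al _ hst.1) with h1 | h1 | h1 | h1 | h1
  · exact absurd h1.1.symm hst.2
  · exact h1.2.2
  · exact absurd h1.1.symm hst.2
  · exact absurd h1.1.symm hst.2
  · exact absurd rfl (tyJ_ne h1).2.2

lemma Br.ty (h : IsMat Al1 R1 R2 R3 M) {s t : Site} (hst : Br M s t) : tyB (t, s, t) := by
  rcases split (h.al _ hst.1) with h1 | h1 | h1 | h1 | h1
  · exact absurd h1.1 hst.2
  · exact absurd h1.1 hst.2
  · exact h1.2.2
  · exact absurd h1.1 hst.2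
  · exact absurd rfl (tyJ_ne h1).2.1

lemma Cr.ty (h : IsMat Al1 R1 R2 R3 M) {s t : Site} (hst : Cr M s t) : tyC (t, t, s) := by
  rcases split (h.al _ hst.1) with h1 | h1 | h1 | h1 | h1
  · exact absurd h1.2 hst.2
  · exact absurd h1.1.symm hst.2
  · exact absurd h1.1 hst.2
  · exact h1.2.2
  · exact absurd rfl (tyJ_ne h1).1

lemma Ar.mono (h : IsMat Al1 R1 R2 R3 M) {s t : Site} (hst : Ar M s t) :
    t.1 ≤ s.1 ∧ s.2.2 ≤ t.2.2 ∧ t.1 - t.2.2 < s.1 - s.2.2 := tyA_mono (hst.ty h)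

lemma Br.mono (h : IsMat Al1 R1 R2 R3 M) {s t : Site} (hst : Br M s t) :
    t.2.1 ≤ s.2.1 ∧ s.1 ≤ t.1 ∧ t.2.1 - t.1 < s.2.1 - s.1 := tyB_mono (hst.ty h)

lemma Cr.mono (h : IsMat Al1 R1 R2 R3 M) {s t : Site} (hst : Cr M s t) :
    t.2.2 ≤ s.2.2 ∧ s.2.1 ≤ t.2.1 ∧ t.2.2 - t.2.1 < s.2.2 - s.2.1 := tyC_mono (hst.ty h)

lemma Ar.left_unique (h : IsMat Al1 R1 R2 R3 M) {s s' t : Site} (h1 : Ar M s t)
    (h2 : Ar M s' t) : s = s' := by
  have := h.u2 _ h1.1 _ h2.1 rfl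
  exact congrArg Prod.fst this

lemma Br.left_unique (h : IsMat Al1 R1 R2 R3 M) {s s' t : Site} (h1 : Br M s t)
    (h2 : Br M s' t) : s = s' := by
  have := h.u1 _ h1.1 _ h2.1 rfl
  exact congrArg (fun p : Tri => p.2.1) this

lemma Cr.left_unique (h : IsMat Al1 R1 R2 R3 M) {s s' t : Site} (h1 : Cr M s t)
    (h2 : Cr M s' t) : s = s' := by
  have := h.u1 _ h1.1 _ h2.1 rfl
  exact congrArg (fun p : Tri => p.2.2) this

lemma Ar.right_unique (h : IsMat Al1 R1 R2 R3 M) {s t t' : Site} (h1 : Ar M s t)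
    (h2 : Ar M s t') : t = t' := by
  have := h.u1 _ h1.1 _ h2.1 rfl
  exact congrArg (fun p : Tri => p.2.1) this

lemma Br.right_unique (h : IsMat Al1 R1 R2 R3 M) {s t t' : Site} (h1 : Br M s t)
    (h2 : Br M s t') : t = t' := by
  have := h.u2 _ h1.1 _ h2.1 rfl
  exact congrArg (fun p : Tri => p.1) this

lemma Cr.right_unique (h : IsMat Al1 R1 R2 R3 M) {s t t' : Site} (h1 : Cr M s t)
    (h2 : Cr M s t') : t = t' := by
  have := h.u3 _ h1.1 _ h2.1 rfl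
  exact congrArg (fun p : Tri => p.1) this

/-- The e1 cell of `s` is covered by a tile containing no other cell of `s`. -/
def actA (M : Finset Tri) (s : Site) : Prop := ∃ p ∈ M, p.1 = s ∧ p.2.1 ≠ s ∧ p.2.2 ≠ s
/-- The e2 cell of `s` is covered by a tile containing no other cell of `s`. -/
def actB (M : Finset Tri) (s : Site) : Prop := ∃ p ∈ M, p.2.1 = s ∧ p.1 ≠ s ∧ p.2.2 ≠ s
/-- The e3 cell of `s` is covered by a tile containing no other cell of `s`. -/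
def actC (M : Finset Tri) (s : Site) : Prop := ∃ p ∈ M, p.2.2 = s ∧ p.1 ≠ s ∧ p.2.1 ≠ s

lemma actA.next (h : IsMat Al1 R1 R2 R3 M) {s : Site} (hs : actA M s) :
    (∃ t, Ar M s t) ∨ ∃ J ∈ M, tyJ J ∧ J.1 = s := by
  obtain ⟨p, hp, h1, h2, h3⟩ := hs
  rcases split (h.al _ hp) with h4 | h4 | h4 | h4 | h4
  · exact absurd (h4.1.trans h1) h2
  · left
    refine ⟨p.2.1, ?_, ?_⟩
    · have : p = (s, p.2.1, p.2.1) := by
        rw [← h1]
        refine Prod.ext rfl (Prod.ext rfl h4.1.symm)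
      rw [← this]
      exact hp
    · rw [← h1]; exact h4.2.1
  · exact absurd (h4.1.trans h1) h3
  · exact absurd (h4.1.trans h1) h2
  · exact Or.inr ⟨p, hp, h4, h1⟩

lemma actB.next (h : IsMat Al1 R1 R2 R3 M) {s : Site} (hs : actB M s) :
    (∃ t, Br M s t) ∨ ∃ J ∈ M, tyJ J ∧ J.2.1 = s := by
  obtain ⟨p, hp, h1, h2, h3⟩ := hs
  rcases split (h.al _ hp) with h4 | h4 | h4 | h4 | h4
  · exact absurd (h4.1.symm.trans h1) h2
  · exact absurd (h4.1.symm.trans h1) h3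
  · left
    refine ⟨p.1, ?_, ?_⟩
    · have : p = (p.1, s, p.1) := by
        rw [← h1]
        refine Prod.ext rfl (Prod.ext rfl h4.1)
      rw [← this]
      exact hp
    · rw [← h1]; exact h4.2.1
  · exact absurd (h4.1.symm.trans h1) h2
  · exact Or.inr ⟨p, hp, h4, h1⟩

lemma actC.next (h : IsMat Al1 R1 R2 R3 M) {s : Site} (hs : actC M s) :
    (∃ t, Cr M s t) ∨ ∃ J ∈ M, tyJ J ∧ J.2.2 = s := by
  obtain ⟨p, hp, h1, h2, h3⟩ := hs
  rcases split (h.al _ hp) with h4 | h4 | h4 | h4 | h4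
  · exact absurd (h4.2.symm.trans h1) h2
  · exact absurd (h4.1.trans h1) h3
  · exact absurd (h4.1.symm.trans h1) h2
  · left
    refine ⟨p.1, ?_, ?_⟩
    · have : p = (p.1, p.1, s) := by
        rw [← h1]
        refine Prod.ext rfl (Prod.ext h4.1 rfl)
      rw [← this]
      exact hp
    · rw [← h1]; exact h4.2.1
  · exact Or.inr ⟨p, hp, h4, h1⟩

lemma Ar.act (h : IsMat Al1 R1 R2 R3 M) {s t : Site} (hst : Ar M s t) (ht : t ∈ R1) :
    actA M t := by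
  obtain ⟨p, hp, rfl⟩ := h.c1 t ht
  refine ⟨p, hp, rfl, ?_, ?_⟩
  · intro e
    have := h.u2 _ hp _ hst.1 e
    exact hst.2 (congrArg Prod.fst this).symm
  · intro e
    have := h.u3 _ hp _ hst.1 e
    exact hst.2 (congrArg Prod.fst this).symm

lemma Br.act (h : IsMat Al1 R1 R2 R3 M) {s t : Site} (hst : Br M s t) (ht : t ∈ R2) :
    actB M t := by
  obtain ⟨p, hp, rfl⟩ := h.c2 t ht
  refine ⟨p, hp, rfl, ?_, ?_⟩
  · intro e
    have := h.u1 _ hp _ hst.1 e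
    exact hst.2 (congrArg (fun p : Tri => p.2.1) this).symm
  · intro e
    have := h.u3 _ hp _ hst.1 e
    exact hst.2 (congrArg (fun p : Tri => p.2.1) this).symm

lemma Cr.act (h : IsMat Al1 R1 R2 R3 M) {s t : Site} (hst : Cr M s t) (ht : t ∈ R3) :
    actC M t := by
  obtain ⟨p, hp, rfl⟩ := h.c3 t ht
  refine ⟨p, hp, rfl, ?_, ?_⟩
  · intro e
    have := h.u1 _ hp _ hst.1 e
    exact hst.2 (congrArg (fun p : Tri => p.2.2) this).symm
  · intro e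
    have := h.u2 _ hp _ hst.1 e
    exact hst.2 (congrArg (fun p : Tri => p.2.2) this).symm

/-- An A-chain ends either at a site without e1 cell or in a junction. -/
lemma fwdA (h : IsMat Al1 R1 R2 R3 M) (h2 : R2 ⊆ Dl m) {s t : Site} (hst : Ar M s t) :
    ∃ e, ReflTransGen (Ar M) t e ∧ e ∈ R2 ∧ e ∈ R3 ∧ (∀ u, ¬ Ar M e u) ∧
      (e ∉ R1 ∨ ∃ J ∈ M, tyJ J ∧ J.1 = e) ∧ e.1 ≤ t.1 ∧ t.2.2 ≤ e.2.2 := by
  obtain ⟨e, he, he2⟩ := exists_end (r := Ar M) (fun s => s.1 - s.2.2) (-m)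
    (fun s t hst => (hst.mono h).2.2)
    (fun s t hst => by
      have := mem_Dl.1 (h2 (h.m2 _ hst.1))
      simp only at this ⊢
      omega) t
  have hin : ∃ u, Ar M u e := by
    rcases ReflTransGen.cases_tail he with e1 | ⟨c, _, hc⟩
    · subst e1
      exact ⟨s, hst⟩
    · exact ⟨c, hc⟩
  obtain ⟨u, hu⟩ := hin
  have hm := mono_chain (r := Ar M) (fun s => s.1) (fun s => s.2.2)
    (fun s t hst => ⟨(hst.mono h).1, (hst.mono h).2.1⟩) he
  refine ⟨e, he, h.m2 _ hu.1, h.m3 _ hu.1, he2, ?_, hm.1, hm.2⟩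
  by_cases hR : e ∈ R1
  · right
    rcases (hu.act h hR).next h with ⟨t', ht'⟩ | h5
    · exact absurd ht' (he2 t')
    · exact h5
  · exact Or.inl hR

lemma fwdB (h : IsMat Al1 R1 R2 R3 M) (h2 : R1 ⊆ Dl m) {s t : Site} (hst : Br M s t) :
    ∃ e, ReflTransGen (Br M) t e ∧ e ∈ R1 ∧ e ∈ R3 ∧ (∀ u, ¬ Br M e u) ∧
      (e ∉ R2 ∨ ∃ J ∈ M, tyJ J ∧ J.2.1 = e) ∧ e.2.1 ≤ t.2.1 ∧ t.1 ≤ e.1 := by
  obtain ⟨e, he, he2⟩ := exists_end (r := Br M) (fun s => s.2.1 - s.1) (-m)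
    (fun s t hst => (hst.mono h).2.2)
    (fun s t hst => by
      have := mem_Dl.1 (h2 (h.m1 _ hst.1))
      simp only at this ⊢
      omega) t
  have hin : ∃ u, Br M u e := by
    rcases ReflTransGen.cases_tail he with e1 | ⟨c, _, hc⟩
    · subst e1
      exact ⟨s, hst⟩
    · exact ⟨c, hc⟩
  obtain ⟨u, hu⟩ := hin
  have hm := mono_chain (r := Br M) (fun s => s.2.1) (fun s => s.1)
    (fun s t hst => ⟨(hst.mono h).1, (hst.mono h).2.1⟩) he
  refine ⟨e, he, h.m1 _ hu.1, h.m3 _ hu.1, he2, ?_, hm.1, hm.2⟩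
  by_cases hR : e ∈ R2
  · right
    rcases (hu.act h hR).next h with ⟨t', ht'⟩ | h5
    · exact absurd ht' (he2 t')
    · exact h5
  · exact Or.inl hR

lemma fwdC (h : IsMat Al1 R1 R2 R3 M) (h2 : R1 ⊆ Dl m) {s t : Site} (hst : Cr M s t) :
    ∃ e, ReflTransGen (Cr M) t e ∧ e ∈ R1 ∧ e ∈ R2 ∧ (∀ u, ¬ Cr M e u) ∧
      (e ∉ R3 ∨ ∃ J ∈ M, tyJ J ∧ J.2.2 = e) ∧ e.2.2 ≤ t.2.2 ∧ t.2.1 ≤ e.2.1 := by
  obtain ⟨e, he, he2⟩ := exists_end (r := Cr M) (fun s => s.2.2 - s.2.1) (-m)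
    (fun s t hst => (hst.mono h).2.2)
    (fun s t hst => by
      have := mem_Dl.1 (h2 (h.m1 _ hst.1))
      simp only at this ⊢
      omega) t
  have hin : ∃ u, Cr M u e := by
    rcases ReflTransGen.cases_tail he with e1 | ⟨c, _, hc⟩
    · subst e1
      exact ⟨s, hst⟩
    · exact ⟨c, hc⟩
  obtain ⟨u, hu⟩ := hin
  have hm := mono_chain (r := Cr M) (fun s => s.2.2) (fun s => s.2.1)
    (fun s t hst => ⟨(hst.mono h).1, (hst.mono h).2.1⟩) he
  refine ⟨e, he, h.m1 _ hu.1, h.m2 _ hu.1, he2, ?_, hm.1, hm.2⟩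
  by_cases hR : e ∈ R3
  · right
    rcases (hu.act h hR).next h with ⟨t', ht'⟩ | h5
    · exact absurd ht' (he2 t')
    · exact h5
  · exact Or.inl hR

end Pool.Agent.Benzel
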