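import Pool.Agent.Benzel.Defs
import Pool.Agent.Benzel.FourCount

/-! From tilings of sets of cells to exact covers by triples of sites. -/

namespace Pool.Agent.Benzel

/-- the sum of the coordinates is `m` -/
def sm (m : ℤ) (s : Site) : Prop := s.1 + s.2.1 + s.2.2 = m

/-- first cell of a site -/
def e1c (s : Site) : Cell := (s.2.2 - s.1 + 1, s.1 - s.2.1, s.2.1 - s.2.2)
/-- second cell of a site -/
def e2c (s : Site) : Cell := (s.2.2 - s.1, s.1 - s.2.1 + 1, s.2.1 - s.2.2)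
/-- third cell of a site -/
def e3c (s : Site) : Cell := (s.2.2 - s.1, s.1 - s.2.1, s.2.1 - s.2.2 + 1)

/-- the tile recorded by a triple -/
def tileOf (p : Tri) : Finset Cell := {e1c p.1, e2c p.2.1, e3c p.2.2}

lemma tile_eq123 {a b c : Cell} {p : Tri} (h1 : e1c p.1 = a) (h2 : e2c p.2.1 = b)
    (h3 : e3c p.2.2 = c) : ({a, b, c} : Finset Cell) = tileOf p := by
  unfold tileOf
  rw [h1, h2, h3]

lemma tile_eq231 {a b c : Cell} {p : Tri} (h1 : e1c p.1 = b) (h2 : e2c p.2.1 = c)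
    (h3 : e3c p.2.2 = a) : ({a, b, c} : Finset Cell) = tileOf p := by
  unfold tileOf
  rw [h1, h2, h3]
  ext x
  simp only [Finset.mem_insert, Finset.mem_singleton]
  tauto

lemma tile_eq312 {a b c : Cell} {p : Tri} (h1 : e1c p.1 = c) (h2 : e2c p.2.1 = a)
    (h3 : e3c p.2.2 = b) : ({a, b, c} : Finset Cell) = tileOf p := by
  unfold tileOf
  rw [h1, h2, h3]
  ext x
  simp only [Finset.mem_insert, Finset.mem_singleton]
  tauto

lemma tile_eq213 {a b c : Cell} {p : Tri} (h1 : e1c p.1 = b) (h2 : e2c p.2.1 = a)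
    (h3 : e3c p.2.2 = c) : ({a, b, c} : Finset Cell) = tileOf p := by
  unfold tileOf
  rw [h1, h2, h3]
  ext x
  simp only [Finset.mem_insert, Finset.mem_singleton]
  tauto

lemma tile_eq132 {a b c : Cell} {p : Tri} (h1 : e1c p.1 = a) (h2 : e2c p.2.1 = c)
    (h3 : e3c p.2.2 = b) : ({a, b, c} : Finset Cell) = tileOf p := by
  unfold tileOf
  rw [h1, h2, h3]
  ext x
  simp only [Finset.mem_insert, Finset.mem_singleton]
  tauto

lemma tile_eq321 {a b c : Cell} {p : Tri} (h1 : e1c p.1 = c) (h2 : e2c p.2.1 = b)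
    (h3 : e3c p.2.2 = a) : ({a, b, c} : Finset Cell) = tileOf p := by
  unfold tileOf
  rw [h1, h2, h3]
  ext x
  simp only [Finset.mem_insert, Finset.mem_singleton]
  tauto

lemma classR (m : ℤ) {t : Finset Cell} (h : IsRightStone t) :
    ∃ p : Tri, sm m p.1 ∧ sm m p.2.1 ∧ sm m p.2.2 ∧ kR p ∧ t = tileOf p := by
  obtain ⟨x, y, z, hxyz, rfl⟩ := h
  obtain ⟨q, hq⟩ : ∃ q, m - (x - y) = 3 * q ∨ m - (x - y) = 3 * q + 1 ∨ m - (x - y) = 3 * q + 2 :=
    ⟨(m - (x - y)) / 3, by omega⟩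
  rcases hq with hq | hq | hq
  · refine ⟨((q, q - y, q + x), (q, q - y, q + x), (q, q - y, q + x)), ?_, ?_, ?_, Or.inl ?_, ?_⟩
    · unfold sm; dsimp only; omega
    · unfold sm; dsimp only; omega
    · unfold sm; dsimp only; omega
    · refine ⟨⟨?_, ?_, ?_⟩, ?_, ?_, ?_⟩ <;> dsimp only <;> omega
    · apply tile_eq123 <;> ((first | unfold e1c | unfold e2c | unfold e3c); refine Prod.ext ?_ (Prod.ext ?_ ?_) <;> dsimp only <;> omega)
  · refine ⟨((q + 1, q - y, q + x), (q, q - y + 1, q + x), (q, q - y, q + x + 1)), ?_, ?_, ?_, Or.inr (Or.inl ?_), ?_⟩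
    · unfold sm; dsimp only; omega
    · unfold sm; dsimp only; omega
    · unfold sm; dsimp only; omega
    · refine ⟨⟨?_, ?_, ?_⟩, ?_, ?_, ?_⟩ <;> dsimp only <;> omega
    · apply tile_eq231 <;> ((first | unfold e1c | unfold e2c | unfold e3c); refine Prod.ext ?_ (Prod.ext ?_ ?_) <;> dsimp only <;> omega)
  · refine ⟨((q + 1, q - y + 1, q + x), (q, q - y + 1, q + x + 1), (q + 1, q - y, q + x + 1)), ?_, ?_, ?_, Or.inr (Or.inr ?_), ?_⟩
    · unfold sm; dsimp only; omega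
    · unfold sm; dsimp only; omega
    · unfold sm; dsimp only; omega
    · refine ⟨⟨?_, ?_, ?_⟩, ?_, ?_, ?_⟩ <;> dsimp only <;> omega
    · apply tile_eq312 <;> ((first | unfold e1c | unfold e2c | unfold e3c); refine Prod.ext ?_ (Prod.ext ?_ ?_) <;> dsimp only <;> omega)

lemma classL (m : ℤ) {t : Finset Cell} (h : IsLeftStone t) :
    ∃ p : Tri, sm m p.1 ∧ sm m p.2.1 ∧ sm m p.2.2 ∧ kL p ∧ t = tileOf p := by
  obtain ⟨x, y, z, hxyz, rfl⟩ := h
  obtain ⟨q, hq⟩ : ∃ q, m - (x - y) = 3 * q ∨ m - (x - y) = 3 * q + 1 ∨ m - (x - y) = 3 * q + 2 :=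
    ⟨(m - (x - y)) / 3, by omega⟩
  rcases hq with hq | hq | hq
  · refine ⟨((q, q - y + 1, q + x - 1), (q, q - y + 1, q + x - 1), (q, q - y, q + x)), ?_, ?_, ?_, Or.inr (Or.inr ?_), ?_⟩
    · unfold sm; dsimp only; omega
    · unfold sm; dsimp only; omega
    · unfold sm; dsimp only; omega
    · refine ⟨⟨?_, ?_, ?_⟩, ?_, ?_, ?_⟩ <;> dsimp only <;> omega
    · apply tile_eq213 <;> ((first | unfold e1c | unfold e2c | unfold e3c); refine Prod.ext ?_ (Prod.ext ?_ ?_) <;> dsimp only <;> omega)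
  · refine ⟨((q + 1, q - y + 1, q + x - 1), (q, q - y + 1, q + x), (q, q - y + 1, q + x)), ?_, ?_, ?_, Or.inl ?_, ?_⟩
    · unfold sm; dsimp only; omega
    · unfold sm; dsimp only; omega
    · unfold sm; dsimp only; omega
    · refine ⟨⟨?_, ?_, ?_⟩, ?_, ?_, ?_⟩ <;> dsimp only <;> omega
    · apply tile_eq132 <;> ((first | unfold e1c | unfold e2c | unfold e3c); refine Prod.ext ?_ (Prod.ext ?_ ?_) <;> dsimp only <;> omega)
  · refine ⟨((q + 1, q - y + 1, q + x), (q, q - y + 2, q + x), (q + 1, q - y + 1, q + x)), ?_, ?_, ?_, Or.inr (Or.inl ?_), ?_⟩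
    · unfold sm; dsimp only; omega
    · unfold sm; dsimp only; omega
    · unfold sm; dsimp only; omega
    · refine ⟨⟨?_, ?_, ?_⟩, ?_, ?_, ?_⟩ <;> dsimp only <;> omega
    · apply tile_eq321 <;> ((first | unfold e1c | unfold e2c | unfold e3c); refine Prod.ext ?_ (Prod.ext ?_ ?_) <;> dsimp only <;> omega)

lemma class1 (m : ℤ) {t : Finset Cell} (h : IsBone 0 1 (-1) t) :
    ∃ p : Tri, sm m p.1 ∧ sm m p.2.1 ∧ sm m p.2.2 ∧ k1 p ∧ t = tileOf p := by
  obtain ⟨x, y, z, hxyz, rfl⟩ := h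
  obtain ⟨q, hq⟩ : ∃ q, m - (x - y) = 3 * q ∨ m - (x - y) = 3 * q + 1 ∨ m - (x - y) = 3 * q + 2 :=
    ⟨(m - (x - y)) / 3, by omega⟩
  rcases hq with hq | hq | hq
  · refine ⟨((q + 1, q - y - 1, q + x), (q, q - y, q + x), (q, q - y, q + x)), ?_, ?_, ?_, Or.inl ?_, ?_⟩
    · unfold sm; dsimp only; omega
    · unfold sm; dsimp only; omega
    · unfold sm; dsimp only; omega
    · refine ⟨⟨?_, ?_, ?_⟩, ?_, ?_, ?_⟩ <;> dsimp only <;> omega
    · apply tile_eq321 <;> ((first | unfold e1c | unfold e2c | unfold e3c); refine Prod.ext ?_ (Prod.ext ?_ ?_) <;> dsimp only <;> omega)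
  · refine ⟨((q + 1, q - y, q + x), (q, q - y + 1, q + x), (q + 1, q - y - 1, q + x + 1)), ?_, ?_, ?_, Or.inr (Or.inr ?_), ?_⟩
    · unfold sm; dsimp only; omega
    · unfold sm; dsimp only; omega
    · unfold sm; dsimp only; omega
    · refine ⟨⟨?_, ?_, ?_⟩, ?_, ?_, ?_⟩ <;> dsimp only <;> omega
    · apply tile_eq213 <;> ((first | unfold e1c | unfold e2c | unfold e3c); refine Prod.ext ?_ (Prod.ext ?_ ?_) <;> dsimp only <;> omega)
  · refine ⟨((q + 1, q - y + 1, q + x), (q + 1, q - y, q + x + 1), (q + 1, q - y, q + x + 1)), ?_, ?_, ?_, Or.inr (Or.inl ?_), ?_⟩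
    · unfold sm; dsimp only; omega
    · unfold sm; dsimp only; omega
    · unfold sm; dsimp only; omega
    · refine ⟨⟨?_, ?_, ?_⟩, ?_, ?_, ?_⟩ <;> dsimp only <;> omega
    · apply tile_eq132 <;> ((first | unfold e1c | unfold e2c | unfold e3c); refine Prod.ext ?_ (Prod.ext ?_ ?_) <;> dsimp only <;> omega)

lemma class2 (m : ℤ) {t : Finset Cell} (h : IsBone (-1) 0 1 t) :
    ∃ p : Tri, sm m p.1 ∧ sm m p.2.1 ∧ sm m p.2.2 ∧ k2 p ∧ t = tileOf p := by
  obtain ⟨x, y, z, hxyz, rfl⟩ := h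
  obtain ⟨q, hq⟩ : ∃ q, m - (x - y) = 3 * q ∨ m - (x - y) = 3 * q + 1 ∨ m - (x - y) = 3 * q + 2 :=
    ⟨(m - (x - y)) / 3, by omega⟩
  rcases hq with hq | hq | hq
  · refine ⟨((q + 1, q - y + 1, q + x - 2), (q, q - y + 1, q + x - 1), (q, q - y, q + x)), ?_, ?_, ?_, Or.inr (Or.inr ?_), ?_⟩
    · unfold sm; dsimp only; omega
    · unfold sm; dsimp only; omega
    · unfold sm; dsimp only; omega
    · refine ⟨⟨?_, ?_, ?_⟩, ?_, ?_, ?_⟩ <;> dsimp only <;> omega
    · apply tile_eq321 <;> ((first | unfold e1c | unfold e2c | unfold e3c); refine Prod.ext ?_ (Prod.ext ?_ ?_) <;> dsimp only <;> omega)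
  · refine ⟨((q + 1, q - y + 1, q + x - 1), (q, q - y + 1, q + x), (q + 1, q - y + 1, q + x - 1)), ?_, ?_, ?_, Or.inl ?_, ?_⟩
    · unfold sm; dsimp only; omega
    · unfold sm; dsimp only; omega
    · unfold sm; dsimp only; omega
    · refine ⟨⟨?_, ?_, ?_⟩, ?_, ?_, ?_⟩ <;> dsimp only <;> omega
    · apply tile_eq213 <;> ((first | unfold e1c | unfold e2c | unfold e3c); refine Prod.ext ?_ (Prod.ext ?_ ?_) <;> dsimp only <;> omega)
  · refine ⟨((q + 1, q - y + 1, q + x), (q + 1, q - y + 2, q + x - 1), (q + 1, q - y + 1, q + x)), ?_, ?_, ?_, Or.inr (Or.inl ?_), ?_⟩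
    · unfold sm; dsimp only; omega
    · unfold sm; dsimp only; omega
    · unfold sm; dsimp only; omega
    · refine ⟨⟨?_, ?_, ?_⟩, ?_, ?_, ?_⟩ <;> dsimp only <;> omega
    · apply tile_eq132 <;> ((first | unfold e1c | unfold e2c | unfold e3c); refine Prod.ext ?_ (Prod.ext ?_ ?_) <;> dsimp only <;> omega)

lemma class3 (m : ℤ) {t : Finset Cell} (h : IsBone 1 (-1) 0 t) :
    ∃ p : Tri, sm m p.1 ∧ sm m p.2.1 ∧ sm m p.2.2 ∧ k3 p ∧ t = tileOf p := by
  obtain ⟨x, y, z, hxyz, rfl⟩ := h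
  obtain ⟨q, hq⟩ : ∃ q, m - (x - y) = 3 * q ∨ m - (x - y) = 3 * q + 1 ∨ m - (x - y) = 3 * q + 2 :=
    ⟨(m - (x - y)) / 3, by omega⟩
  rcases hq with hq | hq | hq
  · refine ⟨((q - 1, q - y + 1, q + x), (q - 1, q - y + 1, q + x), (q, q - y, q + x)), ?_, ?_, ?_, Or.inr (Or.inl ?_), ?_⟩
    · unfold sm; dsimp only; omega
    · unfold sm; dsimp only; omega
    · unfold sm; dsimp only; omega
    · refine ⟨⟨?_, ?_, ?_⟩, ?_, ?_, ?_⟩ <;> dsimp only <;> omega
    · apply tile_eq321 <;> ((first | unfold e1c | unfold e2c | unfold e3c); refine Prod.ext ?_ (Prod.ext ?_ ?_) <;> dsimp only <;> omega)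
  · refine ⟨((q, q - y + 1, q + x), (q, q - y + 1, q + x), (q - 1, q - y + 1, q + x + 1)), ?_, ?_, ?_, Or.inl ?_, ?_⟩
    · unfold sm; dsimp only; omega
    · unfold sm; dsimp only; omega
    · unfold sm; dsimp only; omega
    · refine ⟨⟨?_, ?_, ?_⟩, ?_, ?_, ?_⟩ <;> dsimp only <;> omega
    · apply tile_eq213 <;> ((first | unfold e1c | unfold e2c | unfold e3c); refine Prod.ext ?_ (Prod.ext ?_ ?_) <;> dsimp only <;> omega)
  · refine ⟨((q + 1, q - y + 1, q + x), (q - 1, q - y + 2, q + x + 1), (q, q - y + 1, q + x + 1)), ?_, ?_, ?_, Or.inr (Or.inr ?_), ?_⟩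
    · unfold sm; dsimp only; omega
    · unfold sm; dsimp only; omega
    · unfold sm; dsimp only; omega
    · refine ⟨⟨?_, ?_, ?_⟩, ?_, ?_, ?_⟩ <;> dsimp only <;> omega
    · apply tile_eq132 <;> ((first | unfold e1c | unfold e2c | unfold e3c); refine Prod.ext ?_ (Prod.ext ?_ ?_) <;> dsimp only <;> omega)


lemma cell_ext_iff {s t : Cell} : s = t ↔ s.1 = t.1 ∧ s.2.1 = t.2.1 ∧ s.2.2 = t.2.2 := by
  rw [Prod.ext_iff, Prod.ext_iff]

lemma e1c_inj {m : ℤ} {s t : Site} (hs : sm m s) (ht : sm m t) (h : e1c s = e1c t) : s = t := by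
  unfold sm at hs ht
  unfold e1c at h
  rw [cell_ext_iff] at h
  dsimp only at h
  rw [site_ext_iff]
  omega

lemma e2c_inj {m : ℤ} {s t : Site} (hs : sm m s) (ht : sm m t) (h : e2c s = e2c t) : s = t := by
  unfold sm at hs ht
  unfold e2c at h
  rw [cell_ext_iff] at h
  dsimp only at h
  rw [site_ext_iff]
  omega

lemma e3c_inj {m : ℤ} {s t : Site} (hs : sm m s) (ht : sm m t) (h : e3c s = e3c t) : s = t := by
  unfold sm at hs ht
  unfold e3c at h
  rw [cell_ext_iff] at h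
  dsimp only at h
  rw [site_ext_iff]
  omega

lemma e12 {m : ℤ} {s t : Site} (hs : sm m s) (ht : sm m t) : e1c s ≠ e2c t := by
  intro h
  unfold sm at hs ht
  unfold e1c e2c at h
  rw [cell_ext_iff] at h
  dsimp only at h
  omega

lemma e13 {m : ℤ} {s t : Site} (hs : sm m s) (ht : sm m t) : e1c s ≠ e3c t := by
  intro h
  unfold sm at hs ht
  unfold e1c e3c at h
  rw [cell_ext_iff] at h
  dsimp only at h
  omega

lemma e23 {m : ℤ} {s t : Site} (hs : sm m s) (ht : sm m t) : e2c s ≠ e3c t := by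
  intro h
  unfold sm at hs ht
  unfold e2c e3c at h
  rw [cell_ext_iff] at h
  dsimp only at h
  omega

lemma cover_cell (m : ℤ) {c : Cell} (h : c.1 + c.2.1 + c.2.2 = 1) :
    (∃ s, sm m s ∧ e1c s = c) ∨ (∃ s, sm m s ∧ e2c s = c) ∨ (∃ s, sm m s ∧ e3c s = c) := by
  obtain ⟨q, hq⟩ : ∃ q, m - (c.1 - c.2.1) = 3 * q ∨ m - (c.1 - c.2.1) = 3 * q + 1 ∨
    m - (c.1 - c.2.1) = 3 * q + 2 := ⟨(m - (c.1 - c.2.1)) / 3, by omega⟩
  rcases hq with hq | hq | hq
  · right; right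
    refine ⟨(q, q - c.2.1, q + c.1), ?_, ?_⟩
    · unfold sm; dsimp only; omega
    · unfold e3c; rw [cell_ext_iff]; dsimp only; omega
  · right; left
    refine ⟨(q, q - c.2.1 + 1, q + c.1), ?_, ?_⟩
    · unfold sm; dsimp only; omega
    · unfold e2c; rw [cell_ext_iff]; dsimp only; omega
  · left
    refine ⟨(q + 1, q + 1 - c.2.1, q + c.1), ?_, ?_⟩
    · unfold sm; dsimp only; omega
    · unfold e1c; rw [cell_ext_iff]; dsimp only; omega

/-- all sites of the triple lie in the plane `x+y+z=m` -/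
def sm3 (m : ℤ) (p : Tri) : Prop := sm m p.1 ∧ sm m p.2.1 ∧ sm m p.2.2

lemma mem_tile1 {m : ℤ} {p : Tri} (hp : sm3 m p) {s : Site} (hs : sm m s) :
    e1c s ∈ tileOf p ↔ s = p.1 := by
  unfold tileOf
  rw [Finset.mem_insert, Finset.mem_insert, Finset.mem_singleton]
  constructor
  · rintro (h | h | h)
    · exact e1c_inj hs hp.1 h
    · exact absurd h (e12 hs hp.2.1)
    · exact absurd h (e13 hs hp.2.2)
  · rintro rfl
    exact Or.inl rfl

lemma mem_tile2 {m : ℤ} {p : Tri} (hp : sm3 m p) {s : Site} (hs : sm m s) :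
    e2c s ∈ tileOf p ↔ s = p.2.1 := by
  unfold tileOf
  rw [Finset.mem_insert, Finset.mem_insert, Finset.mem_singleton]
  constructor
  · rintro (h | h | h)
    · exact absurd h.symm (e12 hp.1 hs)
    · exact e2c_inj hs hp.2.1 h
    · exact absurd h (e23 hs hp.2.2)
  · rintro rfl
    exact Or.inr (Or.inl rfl)

lemma mem_tile3 {m : ℤ} {p : Tri} (hp : sm3 m p) {s : Site} (hs : sm m s) :
    e3c s ∈ tileOf p ↔ s = p.2.2 := by
  unfold tileOf
  rw [Finset.mem_insert, Finset.mem_insert, Finset.mem_singleton]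
  constructor
  · rintro (h | h | h)
    · exact absurd h.symm (e13 hp.1 hs)
    · exact absurd h.symm (e23 hp.2.1 hs)
    · exact e3c_inj hs hp.2.2 h
  · rintro rfl
    exact Or.inr (Or.inr rfl)

lemma tileOf_inj {m : ℤ} {p q : Tri} (hp : sm3 m p) (hq : sm3 m q)
    (h : tileOf p = tileOf q) : p = q := by
  have h1 : p.1 = q.1 := (mem_tile1 hq hp.1).1 (by rw [← h]; exact (mem_tile1 hp hp.1).2 rfl)
  have h2 : p.2.1 = q.2.1 :=
    (mem_tile2 hq hp.2.1).1 (by rw [← h]; exact (mem_tile2 hp hp.2.1).2 rfl)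
  have h3 : p.2.2 = q.2.2 :=
    (mem_tile3 hq hp.2.2).1 (by rw [← h]; exact (mem_tile3 hp hp.2.2).2 rfl)
  exact Prod.ext h1 (Prod.ext h2 h3)

lemma unclassR {p : Tri} (h : kR p) : IsRightStone (tileOf p) := by
  rcases h with h | h | h
  · refine ⟨(e1c p.1).1 - 1, (e1c p.1).2.1, (e1c p.1).2.2, ?_,
      (tile_eq123 ?_ ?_ ?_).symm⟩
    · unfold e1c; dsimp only; omega
    all_goals
      unfold dd dv at h
      rw [cell_ext_iff]
      unfold e1c
      try unfold e2c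
      try unfold e3c
      refine ⟨?_, ?_, ?_⟩ <;> dsimp only <;> omega
  · refine ⟨(e1c p.1).1, (e1c p.1).2.1 - 1, (e1c p.1).2.2, ?_,
      (tile_eq231 ?_ ?_ ?_).symm⟩
    · unfold e1c; dsimp only; omega
    all_goals
      unfold dd dv at h
      rw [cell_ext_iff]
      unfold e1c
      try unfold e2c
      try unfold e3c
      refine ⟨?_, ?_, ?_⟩ <;> dsimp only <;> omega
  · refine ⟨(e1c p.1).1, (e1c p.1).2.1, (e1c p.1).2.2 - 1, ?_,
      (tile_eq312 ?_ ?_ ?_).symm⟩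
    · unfold e1c; dsimp only; omega
    all_goals
      unfold dd dv at h
      rw [cell_ext_iff]
      unfold e1c
      try unfold e2c
      try unfold e3c
      refine ⟨?_, ?_, ?_⟩ <;> dsimp only <;> omega

lemma unclassL {p : Tri} (h : kL p) : IsLeftStone (tileOf p) := by
  rcases h with h | h | h
  · refine ⟨(e1c p.1).1 + 1, (e1c p.1).2.1, (e1c p.1).2.2, ?_,
      (tile_eq132 ?_ ?_ ?_).symm⟩
    · unfold e1c; dsimp only; omega
    all_goals
      unfold dd dv at h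
      rw [cell_ext_iff]
      unfold e1c
      try unfold e2c
      try unfold e3c
      refine ⟨?_, ?_, ?_⟩ <;> dsimp only <;> omega
  · refine ⟨(e1c p.1).1, (e1c p.1).2.1, (e1c p.1).2.2 + 1, ?_,
      (tile_eq321 ?_ ?_ ?_).symm⟩
    · unfold e1c; dsimp only; omega
    all_goals
      unfold dd dv at h
      rw [cell_ext_iff]
      unfold e1c
      try unfold e2c
      try unfold e3c
      refine ⟨?_, ?_, ?_⟩ <;> dsimp only <;> omega
  · refine ⟨(e1c p.1).1, (e1c p.1).2.1 + 1, (e1c p.1).2.2, ?_,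
      (tile_eq213 ?_ ?_ ?_).symm⟩
    · unfold e1c; dsimp only; omega
    all_goals
      unfold dd dv at h
      rw [cell_ext_iff]
      unfold e1c
      try unfold e2c
      try unfold e3c
      refine ⟨?_, ?_, ?_⟩ <;> dsimp only <;> omega

lemma unclass1 {p : Tri} (h : k1 p) : IsBone 0 1 (-1) (tileOf p) := by
  rcases h with h | h | h
  · refine ⟨(e1c p.1).1, (e1c p.1).2.1 - 2, (e1c p.1).2.2 + 2, ?_,
      (tile_eq321 ?_ ?_ ?_).symm⟩
    · unfold e1c; dsimp only; omega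
    all_goals
      unfold dd dv at h
      rw [cell_ext_iff]
      unfold e1c
      try unfold e2c
      try unfold e3c
      refine ⟨?_, ?_, ?_⟩ <;> dsimp only <;> omega
  · refine ⟨(e1c p.1).1, (e1c p.1).2.1, (e1c p.1).2.2, ?_,
      (tile_eq132 ?_ ?_ ?_).symm⟩
    · unfold e1c; dsimp only; omega
    all_goals
      unfold dd dv at h
      rw [cell_ext_iff]
      unfold e1c
      try unfold e2c
      try unfold e3c
      refine ⟨?_, ?_, ?_⟩ <;> dsimp only <;> omega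
  · refine ⟨(e1c p.1).1, (e1c p.1).2.1 - 1, (e1c p.1).2.2 + 1, ?_,
      (tile_eq213 ?_ ?_ ?_).symm⟩
    · unfold e1c; dsimp only; omega
    all_goals
      unfold dd dv at h
      rw [cell_ext_iff]
      unfold e1c
      try unfold e2c
      try unfold e3c
      refine ⟨?_, ?_, ?_⟩ <;> dsimp only <;> omega

lemma unclass2 {p : Tri} (h : k2 p) : IsBone (-1) 0 1 (tileOf p) := by
  rcases h with h | h | h
  · refine ⟨(e1c p.1).1 + 1, (e1c p.1).2.1, (e1c p.1).2.2 - 1, ?_,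
      (tile_eq213 ?_ ?_ ?_).symm⟩
    · unfold e1c; dsimp only; omega
    all_goals
      unfold dd dv at h
      rw [cell_ext_iff]
      unfold e1c
      try unfold e2c
      try unfold e3c
      refine ⟨?_, ?_, ?_⟩ <;> dsimp only <;> omega
  · refine ⟨(e1c p.1).1, (e1c p.1).2.1, (e1c p.1).2.2, ?_,
      (tile_eq132 ?_ ?_ ?_).symm⟩
    · unfold e1c; dsimp only; omega
    all_goals
      unfold dd dv at h
      rw [cell_ext_iff]
      unfold e1c
      try unfold e2c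
      try unfold e3c
      refine ⟨?_, ?_, ?_⟩ <;> dsimp only <;> omega
  · refine ⟨(e1c p.1).1 + 2, (e1c p.1).2.1, (e1c p.1).2.2 - 2, ?_,
      (tile_eq321 ?_ ?_ ?_).symm⟩
    · unfold e1c; dsimp only; omega
    all_goals
      unfold dd dv at h
      rw [cell_ext_iff]
      unfold e1c
      try unfold e2c
      try unfold e3c
      refine ⟨?_, ?_, ?_⟩ <;> dsimp only <;> omega

lemma unclass3 {p : Tri} (h : k3 p) : IsBone 1 (-1) 0 (tileOf p) := by
  rcases h with h | h | h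
  · refine ⟨(e1c p.1).1 - 1, (e1c p.1).2.1 + 1, (e1c p.1).2.2, ?_,
      (tile_eq213 ?_ ?_ ?_).symm⟩
    · unfold e1c; dsimp only; omega
    all_goals
      unfold dd dv at h
      rw [cell_ext_iff]
      unfold e1c
      try unfold e2c
      try unfold e3c
      refine ⟨?_, ?_, ?_⟩ <;> dsimp only <;> omega
  · refine ⟨(e1c p.1).1 - 2, (e1c p.1).2.1 + 2, (e1c p.1).2.2, ?_,
      (tile_eq321 ?_ ?_ ?_).symm⟩
    · unfold e1c; dsimp only; omega
    all_goals
      unfold dd dv at h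
      rw [cell_ext_iff]
      unfold e1c
      try unfold e2c
      try unfold e3c
      refine ⟨?_, ?_, ?_⟩ <;> dsimp only <;> omega
  · refine ⟨(e1c p.1).1, (e1c p.1).2.1, (e1c p.1).2.2, ?_,
      (tile_eq132 ?_ ?_ ?_).symm⟩
    · unfold e1c; dsimp only; omega
    all_goals
      unfold dd dv at h
      rw [cell_ext_iff]
      unfold e1c
      try unfold e2c
      try unfold e3c
      refine ⟨?_, ?_, ?_⟩ <;> dsimp only <;> omega

end Pool.Agent.Benzel
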