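import Mathlib

/-! Exact covers by triples of sites (helper file for the benzel results). -/

namespace Pool.Agent.Benzel

open Finset

/-- A site of the stone lattice. -/
abbrev Site := ℤ × ℤ × ℤ

/-- A tile, recorded by the sites of its three cells. -/
abbrev Tri := Site × Site × Site

/-- The triangular array of sites. -/
noncomputable def Dl (m : ℤ) : Finset Site :=
  ((Finset.Icc 0 m) ×ˢ (Finset.Icc 0 m) ×ˢ (Finset.Icc 0 m)).filter
    (fun s => s.1 + s.2.1 + s.2.2 = m)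

lemma mem_Dl {m : ℤ} {s : Site} :
    s ∈ Dl m ↔ 0 ≤ s.1 ∧ 0 ≤ s.2.1 ∧ 0 ≤ s.2.2 ∧ s.1 + s.2.1 + s.2.2 = m := by
  unfold Dl
  simp only [Finset.mem_filter, Finset.mem_product, Finset.mem_Icc]
  constructor
  · rintro ⟨⟨⟨h1, h2⟩, ⟨h3, h4⟩, h5, h6⟩, h7⟩
    exact ⟨h1, h3, h5, h7⟩
  · rintro ⟨h1, h2, h3, h4⟩
    exact ⟨⟨⟨h1, by omega⟩, ⟨h2, by omega⟩, h3, by omega⟩, h4⟩

/-- `M` is an exact cover of the region with parts `R1`, `R2`, `R3` by admissible triples. -/
structure IsMat (Al : Tri → Prop) (R1 R2 R3 : Finset Site) (M : Finset Tri) : Prop where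
  al : ∀ p ∈ M, Al p
  m1 : ∀ p ∈ M, p.1 ∈ R1
  m2 : ∀ p ∈ M, p.2.1 ∈ R2
  m3 : ∀ p ∈ M, p.2.2 ∈ R3
  u1 : ∀ p ∈ M, ∀ q ∈ M, p.1 = q.1 → p = q
  u2 : ∀ p ∈ M, ∀ q ∈ M, p.2.1 = q.2.1 → p = q
  u3 : ∀ p ∈ M, ∀ q ∈ M, p.2.2 = q.2.2 → p = q
  c1 : ∀ s ∈ R1, ∃ p ∈ M, p.1 = s
  c2 : ∀ s ∈ R2, ∃ p ∈ M, p.2.1 = s
  c3 : ∀ s ∈ R3, ∃ p ∈ M, p.2.2 = s

open Classical in
/-- The finite set of exact covers. -/
noncomputable def mats (Al : Tri → Prop) (R1 R2 R3 : Finset Site) : Finset (Finset Tri) :=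
  (R1 ×ˢ R2 ×ˢ R3).powerset.filter (fun M => IsMat Al R1 R2 R3 M)

lemma mem_mats {Al : Tri → Prop} {R1 R2 R3 : Finset Site} {M : Finset Tri} :
    M ∈ mats Al R1 R2 R3 ↔ IsMat Al R1 R2 R3 M := by
  classical
  unfold mats
  rw [Finset.mem_filter]
  constructor
  · exact fun h => h.2
  · intro h
    refine ⟨?_, h⟩
    rw [Finset.mem_powerset]
    intro p hp
    rw [Finset.mem_product, Finset.mem_product]
    exact ⟨h.m1 p hp, h.m2 p hp, h.m3 p hp⟩

variable {R : Type*} [CommSemiring R]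

/-- Weighted number of exact covers. -/
noncomputable def W (Al : Tri → Prop) (ω : Tri → R) (R1 R2 R3 : Finset Site) : R :=
  ∑ M ∈ mats Al R1 R2 R3, ∏ p ∈ M, ω p

lemma IsMat.erase {Al : Tri → Prop} {R1 R2 R3 : Finset Site} {M : Finset Tri}
    (h : IsMat Al R1 R2 R3 M) {p : Tri} (hp : p ∈ M) :
    IsMat Al (R1.erase p.1) (R2.erase p.2.1) (R3.erase p.2.2) (M.erase p) := by
  classical
  constructor
  · intro q hq; exact h.al q (Finset.mem_of_mem_erase hq)
  · intro q hq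
    rw [Finset.mem_erase] at hq ⊢
    exact ⟨fun e => hq.1 (h.u1 q hq.2 p hp e), h.m1 q hq.2⟩
  · intro q hq
    rw [Finset.mem_erase] at hq ⊢
    exact ⟨fun e => hq.1 (h.u2 q hq.2 p hp e), h.m2 q hq.2⟩
  · intro q hq
    rw [Finset.mem_erase] at hq ⊢
    exact ⟨fun e => hq.1 (h.u3 q hq.2 p hp e), h.m3 q hq.2⟩
  · intro q hq r hr e
    exact h.u1 q (Finset.mem_of_mem_erase hq) r (Finset.mem_of_mem_erase hr) e
  · intro q hq r hr e
    exact h.u2 q (Finset.mem_of_mem_erase hq) r (Finset.mem_of_mem_erase hr) e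
  · intro q hq r hr e
    exact h.u3 q (Finset.mem_of_mem_erase hq) r (Finset.mem_of_mem_erase hr) e
  · intro s hs
    rw [Finset.mem_erase] at hs
    obtain ⟨q, hq, rfl⟩ := h.c1 s hs.2
    exact ⟨q, Finset.mem_erase.2 ⟨fun e => hs.1 (by rw [e]), hq⟩, rfl⟩
  · intro s hs
    rw [Finset.mem_erase] at hs
    obtain ⟨q, hq, rfl⟩ := h.c2 s hs.2
    exact ⟨q, Finset.mem_erase.2 ⟨fun e => hs.1 (by rw [e]), hq⟩, rfl⟩
  · intro s hs
    rw [Finset.mem_erase] at hs
    obtain ⟨q, hq, rfl⟩ := h.c3 s hs.2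
    exact ⟨q, Finset.mem_erase.2 ⟨fun e => hs.1 (by rw [e]), hq⟩, rfl⟩

lemma IsMat.insert {Al : Tri → Prop} {R1 R2 R3 : Finset Site} {M : Finset Tri} {p : Tri}
    (h : IsMat Al (R1.erase p.1) (R2.erase p.2.1) (R3.erase p.2.2) M)
    (hp : Al p) (h1 : p.1 ∈ R1) (h2 : p.2.1 ∈ R2) (h3 : p.2.2 ∈ R3) :
    IsMat Al R1 R2 R3 (insert p M) := by
  classical
  constructor
  · intro q hq
    rcases Finset.mem_insert.1 hq with rfl | hq
    · exact hp
    · exact h.al q hq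
  · intro q hq
    rcases Finset.mem_insert.1 hq with rfl | hq
    · exact h1
    · exact Finset.mem_of_mem_erase (h.m1 q hq)
  · intro q hq
    rcases Finset.mem_insert.1 hq with rfl | hq
    · exact h2
    · exact Finset.mem_of_mem_erase (h.m2 q hq)
  · intro q hq
    rcases Finset.mem_insert.1 hq with rfl | hq
    · exact h3
    · exact Finset.mem_of_mem_erase (h.m3 q hq)
  · intro q hq r hr e
    rcases Finset.mem_insert.1 hq with hq' | hq' <;> rcases Finset.mem_insert.1 hr with hr' | hr'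
    · rw [hq', hr']
    · exfalso
      have := h.m1 r hr'
      rw [Finset.mem_erase] at this
      exact this.1 (by rw [← e, hq'])
    · exfalso
      have := h.m1 q hq'
      rw [Finset.mem_erase] at this
      exact this.1 (by rw [e, hr'])
    · exact h.u1 q hq' r hr' e
  · intro q hq r hr e
    rcases Finset.mem_insert.1 hq with hq' | hq' <;> rcases Finset.mem_insert.1 hr with hr' | hr'
    · rw [hq', hr']
    · exfalso
      have := h.m2 r hr'
      rw [Finset.mem_erase] at this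
      exact this.1 (by rw [← e, hq'])
    · exfalso
      have := h.m2 q hq'
      rw [Finset.mem_erase] at this
      exact this.1 (by rw [e, hr'])
    · exact h.u2 q hq' r hr' e
  · intro q hq r hr e
    rcases Finset.mem_insert.1 hq with hq' | hq' <;> rcases Finset.mem_insert.1 hr with hr' | hr'
    · rw [hq', hr']
    · exfalso
      have := h.m3 r hr'
      rw [Finset.mem_erase] at this
      exact this.1 (by rw [← e, hq'])
    · exfalso
      have := h.m3 q hq'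
      rw [Finset.mem_erase] at this
      exact this.1 (by rw [e, hr'])
    · exact h.u3 q hq' r hr' e
  · intro s hs
    by_cases e : s = p.1
    · exact ⟨p, Finset.mem_insert_self _ _, e.symm⟩
    · obtain ⟨q, hq, e2⟩ := h.c1 s (Finset.mem_erase.2 ⟨e, hs⟩)
      exact ⟨q, Finset.mem_insert_of_mem hq, e2⟩
  · intro s hs
    by_cases e : s = p.2.1
    · exact ⟨p, Finset.mem_insert_self _ _, e.symm⟩
    · obtain ⟨q, hq, e2⟩ := h.c2 s (Finset.mem_erase.2 ⟨e, hs⟩)
      exact ⟨q, Finset.mem_insert_of_mem hq, e2⟩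
  · intro s hs
    by_cases e : s = p.2.2
    · exact ⟨p, Finset.mem_insert_self _ _, e.symm⟩
    · obtain ⟨q, hq, e2⟩ := h.c3 s (Finset.mem_erase.2 ⟨e, hs⟩)
      exact ⟨q, Finset.mem_insert_of_mem hq, e2⟩

lemma IsMat.not_mem {Al : Tri → Prop} {R1 R2 R3 : Finset Site} {M : Finset Tri} {p : Tri}
    (h : IsMat Al (R1.erase p.1) R2 R3 M) : p ∉ M := by
  intro hp
  have := h.m1 p hp
  rw [Finset.mem_erase] at this
  exact this.1 rfl

open Classical in
lemma sum_mem (Al : Tri → Prop) (ω : Tri → R) (R1 R2 R3 : Finset Site) (p : Tri) (hp : Al p)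
    (h1 : p.1 ∈ R1) (h2 : p.2.1 ∈ R2) (h3 : p.2.2 ∈ R3) :
    ∑ M ∈ (mats Al R1 R2 R3).filter (fun M => p ∈ M), ∏ q ∈ M, ω q
      = ω p * W Al ω (R1.erase p.1) (R2.erase p.2.1) (R3.erase p.2.2) := by
  unfold W
  rw [Finset.mul_sum]
  refine Finset.sum_bij' (fun M _ => M.erase p) (fun M _ => insert p M) ?_ ?_ ?_ ?_ ?_
  · intro M hM
    rw [Finset.mem_filter, mem_mats] at hM
    rw [mem_mats]
    exact hM.1.erase hM.2
  · intro M hM
    rw [mem_mats] at hM
    rw [Finset.mem_filter, mem_mats]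
    exact ⟨hM.insert hp h1 h2 h3, Finset.mem_insert_self _ _⟩
  · intro M hM
    rw [Finset.mem_filter] at hM
    exact Finset.insert_erase hM.2
  · intro M hM
    rw [mem_mats] at hM
    exact Finset.erase_insert hM.not_mem
  · intro M hM
    rw [Finset.mem_filter] at hM
    exact (Finset.mul_prod_erase M ω hM.2).symm

/-- If every exact cover contains `p`, factor it out. -/
lemma W_forced (Al : Tri → Prop) (ω : Tri → R) (R1 R2 R3 : Finset Site) (p : Tri) (hp : Al p)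
    (h1 : p.1 ∈ R1) (h2 : p.2.1 ∈ R2) (h3 : p.2.2 ∈ R3)
    (hf : ∀ M, IsMat Al R1 R2 R3 M → p ∈ M) :
    W Al ω R1 R2 R3 = ω p * W Al ω (R1.erase p.1) (R2.erase p.2.1) (R3.erase p.2.2) := by
  classical
  rw [← sum_mem Al ω R1 R2 R3 p hp h1 h2 h3]
  unfold W
  apply Finset.sum_congr _ (fun _ _ => rfl)
  ext M
  rw [Finset.mem_filter]
  exact ⟨fun h => ⟨h, hf M (mem_mats.1 h)⟩, fun h => h.1⟩

end Pool.Agent.Benzel
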