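import Pool.Agent.Benzel.Defs

/-! Stones as sets of three pairwise adjacent cells. -/

namespace Pool.Agent.Benzel

/-- The cells of the hexagonal grid: triples with coordinate sum `1`. -/
def IsCell (c : Cell) : Prop := c.1 + c.2.1 + c.2.2 = 1

/-- Two cells share an edge. -/
def Adj (c d : Cell) : Prop := |c.1 - d.1| + |c.2.1 - d.2.1| + |c.2.2 - d.2.2| = 2

/-- A stone is a set of three pairwise adjacent cells. -/
def IsStone (t : Finset Cell) : Prop :=
  ∃ c d e : Cell, IsCell c ∧ IsCell d ∧ IsCell e ∧ Adj c d ∧ Adj d e ∧ Adj c e ∧ t = {c, d, e}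

/-- The permutations of `(1,-1,0)`. -/
def IsDir (d : Cell) : Prop :=
  d = (1, -1, 0) ∨ d = (-1, 1, 0) ∨ d = (0, 1, -1) ∨ d = (0, -1, 1) ∨ d = (-1, 0, 1) ∨
    d = (1, 0, -1)

/-- A bone is a set `{c, c+d, c+2d}`, where `c` is a cell and `d` is a permutation of
`(1,-1,0)`. -/
def IsAnyBone (t : Finset Cell) : Prop :=
  ∃ c d : Cell, IsCell c ∧ IsDir d ∧ t = {c, c + d, c + d + d}

/-- The number of partitions of the `(a,b)`-benzel into stones and bones. -/
noncomputable def T113 (a b : ℤ) : ℕ :=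
  Set.ncard {P : Finset (Finset Cell) | IsTiling (fun t => IsStone t ∨ IsAnyBone t) (benzel a b) P}

lemma adj_cases {c d : Cell} (hc : IsCell c) (hd : IsCell d) (h : Adj c d) :
    (d.1 = c.1 + 1 ∧ d.2.1 = c.2.1 - 1 ∧ d.2.2 = c.2.2) ∨
    (d.1 = c.1 - 1 ∧ d.2.1 = c.2.1 + 1 ∧ d.2.2 = c.2.2) ∨
    (d.1 = c.1 ∧ d.2.1 = c.2.1 + 1 ∧ d.2.2 = c.2.2 - 1) ∨
    (d.1 = c.1 ∧ d.2.1 = c.2.1 - 1 ∧ d.2.2 = c.2.2 + 1) ∨
    (d.1 = c.1 - 1 ∧ d.2.1 = c.2.1 ∧ d.2.2 = c.2.2 + 1) ∨
    (d.1 = c.1 + 1 ∧ d.2.1 = c.2.1 ∧ d.2.2 = c.2.2 - 1) := by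
  unfold IsCell at hc hd
  unfold Adj at h
  rcases abs_cases (c.1 - d.1) with h1 | h1 <;> rcases abs_cases (c.2.1 - d.2.1) with h2 | h2 <;>
    rcases abs_cases (c.2.2 - d.2.2) with h3 | h3 <;> omega

lemma set_perm012 {a b c a' b' c' : Cell} (h1 : a = a') (h2 : b = b') (h3 : c = c') :
    ({a, b, c} : Finset Cell) = {a', b', c'} := by
  subst h1 h2 h3
  rfl

lemma set_perm021 {a b c a' b' c' : Cell} (h1 : a = a') (h2 : c = b') (h3 : b = c') :
    ({a, b, c} : Finset Cell) = {a', b', c'} := by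
  subst h1 h2 h3
  ext x
  simp only [Finset.mem_insert, Finset.mem_singleton]
  tauto

lemma set_perm102 {a b c a' b' c' : Cell} (h1 : b = a') (h2 : a = b') (h3 : c = c') :
    ({a, b, c} : Finset Cell) = {a', b', c'} := by
  subst h1 h2 h3
  ext x
  simp only [Finset.mem_insert, Finset.mem_singleton]
  tauto

lemma set_perm120 {a b c a' b' c' : Cell} (h1 : b = a') (h2 : c = b') (h3 : a = c') :
    ({a, b, c} : Finset Cell) = {a', b', c'} := by
  subst h1 h2 h3
  ext x
  simp only [Finset.mem_insert, Finset.mem_singleton]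
  tauto

lemma set_perm201 {a b c a' b' c' : Cell} (h1 : c = a') (h2 : a = b') (h3 : b = c') :
    ({a, b, c} : Finset Cell) = {a', b', c'} := by
  subst h1 h2 h3
  ext x
  simp only [Finset.mem_insert, Finset.mem_singleton]
  tauto

lemma set_perm210 {a b c a' b' c' : Cell} (h1 : c = a') (h2 : b = b') (h3 : a = c') :
    ({a, b, c} : Finset Cell) = {a', b', c'} := by
  subst h1 h2 h3
  ext x
  simp only [Finset.mem_insert, Finset.mem_singleton]
  tauto

lemma stone_cases {c d e : Cell} (hc : IsCell c) (hd : IsCell d) (he : IsCell e)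
    (h1 : Adj c d) (h2 : Adj d e) (h3 : Adj c e) :
    IsRightStone {c, d, e} ∨ IsLeftStone {c, d, e} := by
  have a1 := adj_cases hc hd h1
  have a2 := adj_cases hd he h2
  have a3 := adj_cases hc he h3
  obtain ⟨i, j, k⟩ := c
  obtain ⟨i', j', k'⟩ := d
  obtain ⟨i'', j'', k''⟩ := e
  unfold IsCell at hc
  clear hd he h1 h2 h3
  dsimp only at a1 a2 a3 hc
  rcases a1 with ⟨p1, p2, p3⟩ | ⟨p1, p2, p3⟩ | ⟨p1, p2, p3⟩ | ⟨p1, p2, p3⟩ |
      ⟨p1, p2, p3⟩ | ⟨p1, p2, p3⟩ <;>
    rcases a3 with ⟨q1, q2, q3⟩ | ⟨q1, q2, q3⟩ | ⟨q1, q2, q3⟩ | ⟨q1, q2, q3⟩ |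
      ⟨q1, q2, q3⟩ | ⟨q1, q2, q3⟩
  · exfalso; omega
  · exfalso; omega
  · exfalso; omega
  · exact Or.inl ⟨i, j - 1, k, by omega,
        set_perm102 (by ext <;> dsimp only <;> omega) (by ext <;> dsimp only <;> omega)
          (by ext <;> dsimp only <;> omega)⟩
  · exfalso; omega
  · exact Or.inr ⟨i + 1, j, k, by omega,
        set_perm012 (by ext <;> dsimp only <;> omega) (by ext <;> dsimp only <;> omega)
          (by ext <;> dsimp only <;> omega)⟩
  · exfalso; omega
  · exfalso; omega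
  · exact Or.inr ⟨i, j + 1, k, by omega,
        set_perm102 (by ext <;> dsimp only <;> omega) (by ext <;> dsimp only <;> omega)
          (by ext <;> dsimp only <;> omega)⟩
  · exfalso; omega
  · exact Or.inl ⟨i - 1, j, k, by omega,
        set_perm012 (by ext <;> dsimp only <;> omega) (by ext <;> dsimp only <;> omega)
          (by ext <;> dsimp only <;> omega)⟩
  · exfalso; omega
  · exfalso; omega
  · exact Or.inr ⟨i, j + 1, k, by omega,
        set_perm201 (by ext <;> dsimp only <;> omega) (by ext <;> dsimp only <;> omega)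
          (by ext <;> dsimp only <;> omega)⟩
  · exfalso; omega
  · exfalso; omega
  · exfalso; omega
  · exact Or.inl ⟨i, j, k - 1, by omega,
        set_perm210 (by ext <;> dsimp only <;> omega) (by ext <;> dsimp only <;> omega)
          (by ext <;> dsimp only <;> omega)⟩
  · exact Or.inl ⟨i, j - 1, k, by omega,
        set_perm201 (by ext <;> dsimp only <;> omega) (by ext <;> dsimp only <;> omega)
          (by ext <;> dsimp only <;> omega)⟩
  · exfalso; omega
  · exfalso; omega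
  · exfalso; omega
  · exact Or.inr ⟨i, j, k + 1, by omega,
        set_perm210 (by ext <;> dsimp only <;> omega) (by ext <;> dsimp only <;> omega)
          (by ext <;> dsimp only <;> omega)⟩
  · exfalso; omega
  · exfalso; omega
  · exact Or.inl ⟨i - 1, j, k, by omega,
        set_perm021 (by ext <;> dsimp only <;> omega) (by ext <;> dsimp only <;> omega)
          (by ext <;> dsimp only <;> omega)⟩
  · exfalso; omega
  · exact Or.inr ⟨i, j, k + 1, by omega,
        set_perm120 (by ext <;> dsimp only <;> omega) (by ext <;> dsimp only <;> omega)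
          (by ext <;> dsimp only <;> omega)⟩
  · exfalso; omega
  · exfalso; omega
  · exact Or.inr ⟨i + 1, j, k, by omega,
        set_perm021 (by ext <;> dsimp only <;> omega) (by ext <;> dsimp only <;> omega)
          (by ext <;> dsimp only <;> omega)⟩
  · exfalso; omega
  · exact Or.inl ⟨i, j, k - 1, by omega,
        set_perm120 (by ext <;> dsimp only <;> omega) (by ext <;> dsimp only <;> omega)
          (by ext <;> dsimp only <;> omega)⟩
  · exfalso; omega
  · exfalso; omega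
  · exfalso; omega


lemma stone_iff (t : Finset Cell) : IsStone t ↔ IsRightStone t ∨ IsLeftStone t := by
  constructor
  · rintro ⟨c, d, e, hc, hd, he, h1, h2, h3, rfl⟩
    exact stone_cases hc hd he h1 h2 h3
  · rintro (⟨x, y, z, h, rfl⟩ | ⟨x, y, z, h, rfl⟩)
    · refine ⟨_, _, _, ?_, ?_, ?_, ?_, ?_, ?_, rfl⟩
      · unfold IsCell; dsimp only; omega
      · unfold IsCell; dsimp only; omega
      · unfold IsCell; dsimp only; omega
      · unfold Adj; simp
      · unfold Adj; simp
      · unfold Adj; simp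
    · refine ⟨_, _, _, ?_, ?_, ?_, ?_, ?_, ?_, rfl⟩
      · unfold IsCell; dsimp only; omega
      · unfold IsCell; dsimp only; omega
      · unfold IsCell; dsimp only; omega
      · unfold Adj; simp
      · unfold Adj; simp
      · unfold Adj; simp

lemma bone_iff (t : Finset Cell) :
    IsAnyBone t ↔ IsBone 0 1 (-1) t ∨ IsBone (-1) 0 1 t ∨ IsBone 1 (-1) 0 t := by
  constructor
  · rintro ⟨c, d, hc, hd, rfl⟩
    unfold IsCell at hc
    rcases hd with rfl | rfl | rfl | rfl | rfl | rfl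
    · exact Or.inr (Or.inr ⟨c.1, c.2.1, c.2.2, hc, set_perm012 (by ext <;> simp)
        (by ext <;> simp) (by ext <;> simp <;> omega)⟩)
    · exact Or.inr (Or.inr ⟨c.1 - 2, c.2.1 + 2, c.2.2, by omega, set_perm210 (by ext <;> simp <;> omega)
        (by ext <;> simp <;> omega) (by ext <;> simp)⟩)
    · exact Or.inl ⟨c.1, c.2.1, c.2.2, hc, set_perm012 (by ext <;> simp)
        (by ext <;> simp) (by ext <;> simp <;> omega)⟩
    · exact Or.inl ⟨c.1, c.2.1 - 2, c.2.2 + 2, by omega, set_perm210 (by ext <;> simp <;> omega)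
        (by ext <;> simp <;> omega) (by ext <;> simp)⟩
    · exact Or.inr (Or.inl ⟨c.1, c.2.1, c.2.2, hc, set_perm012 (by ext <;> simp)
        (by ext <;> simp) (by ext <;> simp <;> omega)⟩)
    · exact Or.inr (Or.inl ⟨c.1 + 2, c.2.1, c.2.2 - 2, by omega, set_perm210 (by ext <;> simp <;> omega)
        (by ext <;> simp <;> omega) (by ext <;> simp)⟩)
  · rintro (⟨x, y, z, h, rfl⟩ | ⟨x, y, z, h, rfl⟩ | ⟨x, y, z, h, rfl⟩)
    · exact ⟨(x, y, z), (0, 1, -1), h, Or.inr (Or.inr (Or.inl rfl)), set_perm012 (by ext <;> simp)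
        (by ext <;> simp) (by ext <;> simp <;> omega)⟩
    · exact ⟨(x, y, z), (-1, 0, 1), h, Or.inr (Or.inr (Or.inr (Or.inr (Or.inl rfl)))),
        set_perm012 (by ext <;> simp) (by ext <;> simp) (by ext <;> simp <;> omega)⟩
    · exact ⟨(x, y, z), (1, -1, 0), h, Or.inl rfl, set_perm012 (by ext <;> simp)
        (by ext <;> simp) (by ext <;> simp <;> omega)⟩

end Pool.Agent.Benzel
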