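import Pool.Agent.Benzel.FourTotal

/-! Sequences with eventual periods a power of two, modulo a power of two. -/

namespace Pool.Agent.Benzel

open PowerSeries

section per

variable {R : Type*} [CommRing R]

/-- `f` is periodic on `n ≥ 1` with period a power of two. -/
def Per (f : ℕ → R) : Prop := ∃ e : ℕ, ∀ n, 1 ≤ n → f (n + 2 ^ e) = f n

lemma per_mul_add {f : ℕ → R} {p : ℕ} (h : ∀ n, 1 ≤ n → f (n + p) = f n) (j n : ℕ)
    (hn : 1 ≤ n) : f (n + j * p) = f n := by
  induction j with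
  | zero => simp
  | succ j ih =>
    have e : n + (j + 1) * p = (n + j * p) + p := by ring
    rw [e, h _ (by omega), ih]

lemma Per.lift {f : ℕ → R} {e : ℕ} (h : ∀ n, 1 ≤ n → f (n + 2 ^ e) = f n) (e' : ℕ)
    (he : e ≤ e') : ∀ n, 1 ≤ n → f (n + 2 ^ e') = f n := by
  intro n hn
  have e1 : 2 ^ e' = 2 ^ (e' - e) * 2 ^ e := by
    rw [← pow_add]
    congr 1
    omega
  rw [e1]
  exact per_mul_add h _ n hn

lemma Per.two {f g : ℕ → R} (hf : Per f) (hg : Per g) :
    ∃ e : ℕ, (∀ n, 1 ≤ n → f (n + 2 ^ e) = f n) ∧ ∀ n, 1 ≤ n → g (n + 2 ^ e) = g n := by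
  obtain ⟨e1, h1⟩ := hf
  obtain ⟨e2, h2⟩ := hg
  exact ⟨max e1 e2, Per.lift h1 _ (le_max_left _ _), Per.lift h2 _ (le_max_right _ _)⟩

lemma Per.const (c : R) : Per (fun _ => c) := ⟨0, fun _ _ => rfl⟩

lemma Per.add {f g : ℕ → R} (hf : Per f) (hg : Per g) : Per (fun n => f n + g n) := by
  obtain ⟨e, h1, h2⟩ := hf.two hg
  exact ⟨e, fun n hn => by simp only [h1 n hn, h2 n hn]⟩

lemma Per.mul {f g : ℕ → R} (hf : Per f) (hg : Per g) : Per (fun n => f n * g n) := by
  obtain ⟨e, h1, h2⟩ := hf.two hg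
  exact ⟨e, fun n hn => by simp only [h1 n hn, h2 n hn]⟩

lemma Per.shift {f : ℕ → R} (hf : Per f) : Per (fun n => f (n + 1)) := by
  obtain ⟨e, h1⟩ := hf
  refine ⟨e, fun n hn => ?_⟩
  have : n + 2 ^ e + 1 = (n + 1) + 2 ^ e := by ring
  simp only [this, h1 (n + 1) (by omega)]

lemma Per.sum {ι : Type*} (s : Finset ι) (f : ι → ℕ → R) (h : ∀ i ∈ s, Per (f i)) :
    Per (fun n => ∑ i ∈ s, f i n) := by
  classical
  induction s using Finset.induction_on with
  | empty => simpa using Per.const (0 : R)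
  | insert a s ha ih =>
    have h1 := h a (Finset.mem_insert_self _ _)
    have h2 := ih (fun i hi => h i (Finset.mem_insert_of_mem hi))
    have := h1.add h2
    simpa [Finset.sum_insert ha] using this

lemma per_of_step {K : ℕ} (hK : (2 : R) ^ K = 0) {h d : ℕ → R} {e : ℕ}
    (h1 : ∀ n, 1 ≤ n → h (n + 2 ^ e) = h n + d n)
    (h2 : ∀ n, 1 ≤ n → d (n + 2 ^ e) = d n) : Per h := by
  refine ⟨K + e, fun n hn => ?_⟩
  have key : ∀ j : ℕ, h (n + j * 2 ^ e) = h n + (j : R) * d n := by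
    intro j
    induction j with
    | zero => simp
    | succ j ih =>
      have e1 : n + (j + 1) * 2 ^ e = (n + j * 2 ^ e) + 2 ^ e := by ring
      rw [e1, h1 _ (by omega), ih, per_mul_add h2 j n hn]
      push_cast
      ring
  rw [pow_add, key]
  push_cast
  rw [hK]
  ring

lemma Per.of_diff {K : ℕ} (hK : (2 : R) ^ K = 0) {f g : ℕ → R} (hg : Per g)
    (hf : ∀ n, f (n + 1) = f n + g n) : Per f := by
  obtain ⟨e, he⟩ := hg
  refine per_of_step hK (e := e) (d := fun n => ∑ i ∈ Finset.range (2 ^ e), g (n + i)) ?_ ?_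
  · intro n _
    have key : ∀ p : ℕ, f (n + p) = f n + ∑ i ∈ Finset.range p, g (n + i) := by
      intro p
      induction p with
      | zero => simp
      | succ p ih => rw [← add_assoc, hf, ih, Finset.sum_range_succ]; ring
    exact key _
  · intro n hn
    apply Finset.sum_congr rfl
    intro i _
    have : n + 2 ^ e + i = (n + i) + 2 ^ e := by ring
    rw [this, he _ (by omega)]

lemma Per.conv {K : ℕ} (hK : (2 : R) ^ K = 0) {f g : ℕ → R} (hf : Per f) (hg : Per g) :
    Per (fun n => ∑ p ∈ Finset.HasAntidiagonal.antidiagonal n, f p.1 * g p.2) := by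
  obtain ⟨e, hf', hg'⟩ := hf.two hg
  have hconv : ∀ n, ∑ p ∈ Finset.HasAntidiagonal.antidiagonal n, f p.1 * g p.2 =
      ∑ i ∈ Finset.range (n + 1), f i * g (n - i) := fun n =>
    Finset.Nat.sum_antidiagonal_eq_sum_range_succ (fun i j => f i * g j) n
  refine per_of_step hK (e := e) (d := fun n => (f (2 ^ e) - f 0) * g n +
    ∑ i ∈ Finset.range (2 ^ e), f i * g (n + 2 ^ e - i)) ?_ ?_
  · intro n hn
    simp only [hconv]
    have e1 : n + 2 ^ e + 1 = 2 ^ e + (n + 1) := by ring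
    rw [e1, Finset.sum_range_add, Finset.sum_range_succ' _ n, Finset.sum_range_succ' _ n]
    have e2 : ∑ k ∈ Finset.range n, f (2 ^ e + (k + 1)) * g (n + 2 ^ e - (2 ^ e + (k + 1)))
        = ∑ k ∈ Finset.range n, f (k + 1) * g (n - (k + 1)) := by
      apply Finset.sum_congr rfl
      intro k _
      have a1 : 2 ^ e + (k + 1) = (k + 1) + 2 ^ e := by ring
      have a2 : n + 2 ^ e - (2 ^ e + (k + 1)) = n - (k + 1) := by omega
      rw [a2, a1, hf' _ (by omega)]
    rw [e2]
    have a3 : n + 2 ^ e - (2 ^ e + 0) = n := by omega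
    rw [a3]
    simp only [add_zero, Nat.sub_zero]
    ring
  · intro n hn
    beta_reduce
    rw [hg' n hn]
    congr 1
    apply Finset.sum_congr rfl
    intro i hi
    rw [Finset.mem_range] at hi
    have : n + 2 ^ e + 2 ^ e - i = (n + 2 ^ e - i) + 2 ^ e := by omega
    rw [this, hg' _ (by omega)]

lemma per_choose {K : ℕ} (hK : (2 : R) ^ K = 0) (k : ℕ) : Per (fun n => (Nat.choose n k : R)) := by
  induction k with
  | zero => simpa using Per.const (1 : R)
  | succ k ih =>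
    refine Per.of_diff hK ih ?_
    intro n
    rw [Nat.choose_succ_succ]
    push_cast
    ring

/-- sum over triples as an iterated sum -/
lemma sum_tri {M : ℕ} (f g h : ℕ → R) : ∑ q ∈ tri M, f q.1 * g q.2.1 * h q.2.2 =
    ∑ p ∈ Finset.HasAntidiagonal.antidiagonal M, f p.1 * ∑ q ∈ Finset.HasAntidiagonal.antidiagonal p.2, g q.1 * h q.2 := by
  simp_rw [Finset.mul_sum]
  rw [Finset.sum_sigma']
  refine Finset.sum_bij' (fun q _ => ⟨(q.1, q.2.1 + q.2.2), (q.2.1, q.2.2)⟩)
    (fun p _ => (p.1.1, p.2.1, p.2.2)) ?_ ?_ ?_ ?_ ?_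
  · intro q hq
    rw [mem_tri] at hq
    rw [Finset.mem_sigma, Finset.HasAntidiagonal.mem_antidiagonal, Finset.HasAntidiagonal.mem_antidiagonal]
    dsimp only
    omega
  · intro p hp
    rw [Finset.mem_sigma, Finset.HasAntidiagonal.mem_antidiagonal, Finset.HasAntidiagonal.mem_antidiagonal] at hp
    rw [mem_tri]
    dsimp only
    omega
  · intro q _
    rfl
  · intro p hp
    rw [Finset.mem_sigma, Finset.HasAntidiagonal.mem_antidiagonal, Finset.HasAntidiagonal.mem_antidiagonal] at hp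
    obtain ⟨⟨a, b⟩, ⟨c, d⟩⟩ := p
    simp only at hp ⊢
    rw [hp.2]
  · intro q _
    simp only
    ring

lemma Per.tri {K : ℕ} (hK : (2 : R) ^ K = 0) {f g h : ℕ → R} (hf : Per f) (hg : Per g)
    (hh : Per h) : Per (fun M => ∑ q ∈ tri M, f q.1 * g q.2.1 * h q.2.2) := by
  simp_rw [sum_tri]
  exact Per.conv hK hf (Per.conv hK hg hh)

/-- finite sums of products of periodic sequences -/
def Sep (N : ℕ → ℕ → R) : Prop :=
  ∃ (K : ℕ) (α β : ℕ → ℕ → R), (∀ i, Per (α i)) ∧ (∀ i, Per (β i)) ∧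
    ∀ y z, N y z = ∑ i ∈ Finset.range K, α i y * β i z

lemma Sep.shift1 {N : ℕ → ℕ → R} (h : Sep N) : Sep (fun y z => N (y + 1) z) := by
  obtain ⟨K, α, β, h1, h2, h3⟩ := h
  exact ⟨K, fun i y => α i (y + 1), β, fun i => (h1 i).shift, h2, fun y z => h3 _ _⟩

lemma Sep.tri {K : ℕ} (hK : (2 : R) ^ K = 0) {N1 N2 N3 : ℕ → ℕ → R} (h1 : Sep N1)
    (h2 : Sep N2) (h3 : Sep N3) :
    Per (fun M => ∑ q ∈ tri M, N1 q.2.1 q.2.2 * N2 q.2.2 q.1 * N3 q.1 q.2.1) := by
  obtain ⟨K1, α1, β1, a1, b1, c1⟩ := h1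
  obtain ⟨K2, α2, β2, a2, b2, c2⟩ := h2
  obtain ⟨K3, α3, β3, a3, b3, c3⟩ := h3
  have key : ∀ M, ∑ q ∈ Pool.Agent.Benzel.tri M, N1 q.2.1 q.2.2 * N2 q.2.2 q.1 * N3 q.1 q.2.1 =
      ∑ i ∈ Finset.range K1, ∑ j ∈ Finset.range K2, ∑ k ∈ Finset.range K3,
        ∑ q ∈ Pool.Agent.Benzel.tri M, (β2 j q.1 * α3 k q.1) * (α1 i q.2.1 * β3 k q.2.1) *
          (β1 i q.2.2 * α2 j q.2.2) := by
    intro M
    have e1 : ∀ q ∈ Pool.Agent.Benzel.tri M,
        N1 q.2.1 q.2.2 * N2 q.2.2 q.1 * N3 q.1 q.2.1 =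
        ∑ i ∈ Finset.range K1, ∑ j ∈ Finset.range K2, ∑ k ∈ Finset.range K3,
          (β2 j q.1 * α3 k q.1) * (α1 i q.2.1 * β3 k q.2.1) * (β1 i q.2.2 * α2 j q.2.2) := by
      intro q _
      rw [c1, c2, c3, Finset.sum_mul_sum, Finset.sum_mul]
      apply Finset.sum_congr rfl
      intro i _
      rw [Finset.sum_mul]
      apply Finset.sum_congr rfl
      intro j _
      rw [Finset.mul_sum]
      apply Finset.sum_congr rfl
      intro k _
      ring
    rw [Finset.sum_congr rfl e1, Finset.sum_comm]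
    apply Finset.sum_congr rfl
    intro i _
    rw [Finset.sum_comm]
    apply Finset.sum_congr rfl
    intro j _
    rw [Finset.sum_comm]
  simp_rw [key]
  apply Per.sum
  intro i _
  apply Per.sum
  intro j _
  apply Per.sum
  intro k _
  exact Per.tri hK ((b2 j).mul (a3 k)) ((a1 i).mul (b3 k)) ((b1 i).mul (a2 j))

/-- coefficients periodic -/
def PerS (φ : R⟦X⟧) : Prop := Per (fun n => coeff n φ)

lemma PerS.add {φ ψ : R⟦X⟧} (h1 : PerS φ) (h2 : PerS ψ) : PerS (φ + ψ) := by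
  have := Per.add h1 h2
  unfold PerS
  simpa using this

lemma PerS.mul {K : ℕ} (hK : (2 : R) ^ K = 0) {φ ψ : R⟦X⟧} (h1 : PerS φ) (h2 : PerS ψ) :
    PerS (φ * ψ) := by
  have := Per.conv hK h1 h2
  unfold PerS
  simpa [coeff_mul] using this

lemma PerS.C (a : R) : PerS (C a : R⟦X⟧) := by
  refine ⟨0, fun n hn => ?_⟩
  simp only [coeff_C]
  rw [if_neg (by omega), if_neg (by omega)]

lemma PerS.pow {K : ℕ} (hK : (2 : R) ^ K = 0) {φ : R⟦X⟧} (h1 : PerS φ) (k : ℕ) :
    PerS (φ ^ k) := by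
  induction k with
  | zero =>
    rw [pow_zero]
    have := PerS.C (1 : R)
    simpa using this
  | succ k ih =>
    rw [pow_succ]
    exact ih.mul hK h1

/-- the series `t/(1-t)` -/
noncomputable def vS (R : Type*) [CommRing R] : R⟦X⟧ := PowerSeries.mk (fun n => if n = 0 then 0 else 1)

lemma vS_per : PerS (vS R) := by
  refine ⟨0, fun n hn => ?_⟩
  simp only [vS, coeff_mk]
  rw [if_neg (by omega), if_neg (by omega)]

lemma vS_eq : vS R = X * (1 + vS R) := by
  ext n
  rcases n with _ | n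
  · simp [vS]
  · rw [coeff_succ_X_mul]
    rcases n with _ | n
    · simp [vS]
    · simp [vS, coeff_one]

lemma C_two : (C (2 : R) : R⟦X⟧) = 2 := map_ofNat C 2

/-- iteration towards the solution -/
noncomputable def sit (μ : R) : ℕ → R⟦X⟧
  | 0 => 0
  | j + 1 => vS R * (C μ + 2 * (C μ * sit μ j + sit μ j ^ 2))

lemma sit_per {K : ℕ} (hK : (2 : R) ^ K = 0) (μ : R) (j : ℕ) : PerS (sit μ j) := by
  induction j with
  | zero =>
    have := PerS.C (0 : R)
    simpa [sit] using this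
  | succ j ih =>
    rw [sit]
    refine vS_per.mul hK ((PerS.C μ).add ?_)
    have h2 : PerS (2 : R⟦X⟧) := by
      have := PerS.C (2 : R)
      rwa [C_two] at this
    exact h2.mul hK (((PerS.C μ).mul hK ih).add (ih.pow hK 2))

lemma sit_diff (μ : R) (j : ℕ) : ∃ w : R⟦X⟧, sit μ (j + 1) - sit μ j = 2 ^ j * w := by
  induction j with
  | zero => exact ⟨sit μ 1 - sit μ 0, by ring⟩
  | succ j ih =>
    obtain ⟨w, hw⟩ := ih
    refine ⟨vS R * w * (C μ + sit μ (j + 1) + sit μ j), ?_⟩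
    have h1 : sit μ (j + 1 + 1) - sit μ (j + 1) =
        2 * vS R * (sit μ (j + 1) - sit μ j) * (C μ + sit μ (j + 1) + sit μ j) := by
      conv_lhs => rw [sit]
      have h2 : sit μ (j + 1) = vS R * (C μ + 2 * (C μ * sit μ j + sit μ j ^ 2)) := by rw [sit]
      have : vS R * (C μ + 2 * (C μ * sit μ (j + 1) + sit μ (j + 1) ^ 2)) - sit μ (j + 1) =
        vS R * (C μ + 2 * (C μ * sit μ (j + 1) + sit μ (j + 1) ^ 2)) -
          vS R * (C μ + 2 * (C μ * sit μ j + sit μ j ^ 2)) := by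
        conv_lhs => rw [sub_eq_add_neg]
        rw [← h2]
        ring
      rw [this]
      ring
    rw [h1, hw]
    ring

lemma sit_fix {K : ℕ} (hK : (2 : R) ^ K = 0) (μ : R) : sit μ (K + 1) = sit μ K := by
  obtain ⟨w, hw⟩ := sit_diff μ K
  have h2 : (2 : R⟦X⟧) ^ K = 0 := by
    rw [← C_two, ← map_pow, hK, map_zero]
  rw [h2, zero_mul] at hw
  exact sub_eq_zero.1 hw

/-- existence of the periodic series -/
lemma exists_s {K : ℕ} (hK : (2 : R) ^ K = 0) (μ : R) :
    ∃ s : R⟦X⟧, PerS s ∧ s = X * (C μ + s + 2 * (C μ * s + s ^ 2)) := by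
  refine ⟨sit μ K, sit_per hK μ K, ?_⟩
  have h1 : sit μ K = vS R * (C μ + 2 * (C μ * sit μ K + sit μ K ^ 2)) := by
    conv_lhs => rw [← sit_fix hK μ, sit]
  have h2 : (1 - X) * vS R = X := by
    have := vS_eq (R := R)
    linear_combination this
  have h3 : (1 - X) * sit μ K = X * (C μ + 2 * (C μ * sit μ K + sit μ K ^ 2)) := by
    conv_lhs => rw [h1, ← mul_assoc, h2]
  linear_combination h3

/-- Path numbers are coefficients of powers. -/
lemma pc_coeff {S : R⟦X⟧} {lam : R} (hS : S = 1 + X * (C lam * S + S ^ 2)) :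
    ∀ z y : ℕ, pc 1 lam z y = coeff z (S ^ (y + 1)) := by
  have hS0 : constantCoeff S = 1 := by
    rw [hS]
    simp
  intro z
  induction z with
  | zero =>
    intro y
    rw [pc_zero, one_pow, coeff_zero_eq_constantCoeff_apply, map_pow, hS0, one_pow]
  | succ z ihz =>
    intro y
    have step : ∀ k : ℕ, coeff (z + 1) (S ^ (k + 1)) = coeff (z + 1) (S ^ k) +
        lam * coeff z (S ^ (k + 1)) + coeff z (S ^ (k + 2)) := by
      intro k
      have h1 : S ^ (k + 1) = S ^ k + X * (C lam * S ^ (k + 1) + S ^ (k + 2)) := by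
        calc S ^ (k + 1) = S ^ k * S := pow_succ _ _
          _ = S ^ k * (1 + X * (C lam * S + S ^ 2)) := by rw [← hS]
          _ = _ := by ring
      conv_lhs => rw [h1]
      rw [map_add, coeff_succ_X_mul, map_add, coeff_C_mul]
      ring
    induction y with
    | zero =>
      rw [pc_succ_zero, ihz, ihz, step 0]
      simp [coeff_one]
      ring
    | succ y ihy =>
      rw [pc_succ_succ, ihy, ihz, ihz, step (y + 1)]
      ring

/-- Path numbers are separable modulo a power of two. -/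
theorem pc_sep {K : ℕ} (hK : (2 : R) ^ K = 0) (lam μ : R) (hlam : lam + 1 = 2 * μ) :
    Sep (fun y z => pc 1 lam z y) := by
  obtain ⟨s, hs, hs2⟩ := exists_s hK μ
  have hS : (1 + 2 * s) = 1 + X * (C lam * (1 + 2 * s) + (1 + 2 * s) ^ 2) := by
    have hl : (C lam : R⟦X⟧) = 2 * C μ - 1 := by
      have : lam = 2 * μ - 1 := by linear_combination hlam
      rw [this, map_sub, map_mul, C_two, map_one]
    rw [hl]
    linear_combination 2 * hs2
  refine ⟨K, fun i y => 2 ^ i * (Nat.choose (y + 1) i : R), fun i z => coeff z (s ^ i), ?_, ?_, ?_⟩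
  · intro i
    exact (Per.const _).mul (per_choose hK i).shift
  · intro i
    exact hs.pow hK i
  · intro y z
    beta_reduce
    rw [pc_coeff hS z y, add_comm (1 : R⟦X⟧), add_pow]
    have h2 : ∀ k, coeff z ((2 * s) ^ k * 1 ^ (y + 1 - k) * ((y + 1).choose k : R⟦X⟧)) =
        2 ^ k * (Nat.choose (y + 1) k : R) * coeff z (s ^ k) := by
      intro k
      have : (2 * s) ^ k * 1 ^ (y + 1 - k) * ((y + 1).choose k : R⟦X⟧) =
          C (2 ^ k * (Nat.choose (y + 1) k : R)) * s ^ k := by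
        rw [map_mul, map_pow, map_natCast, one_pow, mul_pow]
        rw [C_two]
        ring
      rw [this, coeff_C_mul]
    rw [map_sum, Finset.sum_congr rfl (fun k _ => h2 k)]
    rcases le_total (y + 1 + 1) K with hle | hle
    · apply Finset.sum_subset (Finset.range_subset_range.2 hle)
      intro k _ hk
      rw [Finset.mem_range, not_lt] at hk
      rw [Nat.choose_eq_zero_of_lt (by omega)]
      simp
    · symm
      apply Finset.sum_subset (Finset.range_subset_range.2 hle)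
      intro k _ hk
      rw [Finset.mem_range, not_lt] at hk
      have : (2 : R) ^ k = 0 := by
        have e : k = K + (k - K) := by omega
        rw [e, pow_add, hK, zero_mul]
      rw [this]
      ring

end per

end Pool.Agent.Benzel
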