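import Pool.Agent.Benzel.Match

/-! The fifteen kinds of tiles, in terms of the sites of their cells. -/

namespace Pool.Agent.Benzel

/-- `t - s = (a,b,c)`. -/
def dv (s t : Site) (a b c : ℤ) : Prop :=
  t.1 = s.1 + a ∧ t.2.1 = s.2.1 + b ∧ t.2.2 = s.2.2 + c

instance (s t : Site) (a b c : ℤ) : Decidable (dv s t a b c) := by unfold dv; infer_instance

/-- the tile with displacements `D2 = (a,b,c)`, `D3 = (d,e,f)`. -/
def dd (p : Tri) (a b c d e f : ℤ) : Prop := dv p.1 p.2.1 a b c ∧ dv p.1 p.2.2 d e f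

instance (p : Tri) (a b c d e f : ℤ) : Decidable (dd p a b c d e f) := by
  unfold dd; infer_instance

/-- background tiles -/
def tyO (p : Tri) : Prop := dd p 0 0 0 0 0 0
/-- tiles of type A -/
def tyA (p : Tri) : Prop := dd p (-1) 1 0 (-1) 1 0 ∨ dd p 0 (-1) 1 0 (-1) 1 ∨ dd p (-1) 0 1 (-1) 0 1
/-- tiles of type B -/
def tyB (p : Tri) : Prop := dd p (-1) 1 0 0 0 0 ∨ dd p (-1) 0 1 0 0 0 ∨ dd p 0 1 (-1) 0 0 0
/-- tiles of type C -/
def tyC (p : Tri) : Prop := dd p 0 0 0 0 (-1) 1 ∨ dd p 0 0 0 (-1) 0 1 ∨ dd p 0 0 0 1 (-1) 0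
/-- junction tiles -/
def tyJ (p : Tri) : Prop :=
  dd p (-1) 1 0 (-1) 0 1 ∨ dd p (-1) 0 1 0 (-1) 1 ∨ dd p (-1) 1 0 0 (-1) 1 ∨
    dd p (-1) 0 1 (-1) (-1) 2 ∨ dd p (-2) 1 1 (-1) 0 1

/-- right stones -/
def kR (p : Tri) : Prop :=
  dd p 0 0 0 0 0 0 ∨ dd p (-1) 1 0 (-1) 0 1 ∨ dd p (-1) 0 1 0 (-1) 1
/-- left stones -/
def kL (p : Tri) : Prop :=
  dd p (-1) 0 1 (-1) 0 1 ∨ dd p (-1) 1 0 0 0 0 ∨ dd p 0 0 0 0 (-1) 1
/-- bones of the first direction -/
def k1 (p : Tri) : Prop :=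
  dd p (-1) 1 0 (-1) 1 0 ∨ dd p 0 (-1) 1 0 (-1) 1 ∨ dd p (-1) 1 0 0 (-1) 1
/-- bones of the second direction -/
def k2 (p : Tri) : Prop :=
  dd p (-1) 0 1 0 0 0 ∨ dd p 0 1 (-1) 0 0 0 ∨ dd p (-1) 0 1 (-1) (-1) 2
/-- bones of the third direction -/
def k3 (p : Tri) : Prop :=
  dd p 0 0 0 (-1) 0 1 ∨ dd p 0 0 0 1 (-1) 0 ∨ dd p (-2) 1 1 (-1) 0 1

instance (p : Tri) : Decidable (kR p) := by unfold kR; infer_instance
instance (p : Tri) : Decidable (kL p) := by unfold kL; infer_instance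
instance (p : Tri) : Decidable (k1 p) := by unfold k1; infer_instance
instance (p : Tri) : Decidable (k2 p) := by unfold k2; infer_instance
instance (p : Tri) : Decidable (k3 p) := by unfold k3; infer_instance

/-- non-junction tiles -/
def Al0 (p : Tri) : Prop := tyO p ∨ tyA p ∨ tyB p ∨ tyC p
/-- all tiles -/
def Al1 (p : Tri) : Prop := kR p ∨ kL p ∨ k1 p ∨ k2 p ∨ k3 p

lemma Al1_iff (p : Tri) : Al1 p ↔ Al0 p ∨ tyJ p := by
  unfold Al1 Al0 kR kL k1 k2 k3 tyO tyA tyB tyC tyJ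
  tauto

lemma Al0.al1 {p : Tri} (h : Al0 p) : Al1 p := (Al1_iff p).2 (Or.inl h)
lemma tyJ.al1 {p : Tri} (h : tyJ p) : Al1 p := (Al1_iff p).2 (Or.inr h)

lemma site_ext_iff {s t : Site} : s = t ↔ s.1 = t.1 ∧ s.2.1 = t.2.1 ∧ s.2.2 = t.2.2 := by
  rw [Prod.ext_iff, Prod.ext_iff]

lemma tyO_eq {p : Tri} (h : tyO p) : p.2.1 = p.1 ∧ p.2.2 = p.1 := by
  unfold tyO dd dv at h
  rw [site_ext_iff, site_ext_iff]
  omega

lemma tyA_eq {p : Tri} (h : tyA p) : p.2.1 = p.2.2 := by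
  unfold tyA dd dv at h
  rw [site_ext_iff]
  omega

lemma tyB_eq {p : Tri} (h : tyB p) : p.2.2 = p.1 := by
  unfold tyB dd dv at h
  rw [site_ext_iff]
  omega

lemma tyC_eq {p : Tri} (h : tyC p) : p.2.1 = p.1 := by
  unfold tyC dd dv at h
  rw [site_ext_iff]
  omega

lemma tyA_mono {p : Tri} (h : tyA p) :
    p.2.1.1 ≤ p.1.1 ∧ p.1.2.2 ≤ p.2.1.2.2 ∧ p.2.1.1 - p.2.1.2.2 < p.1.1 - p.1.2.2 := by
  unfold tyA dd dv at h
  omega

lemma tyB_mono {p : Tri} (h : tyB p) :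
    p.1.2.1 ≤ p.2.1.2.1 ∧ p.2.1.1 ≤ p.1.1 ∧ p.1.2.1 - p.1.1 < p.2.1.2.1 - p.2.1.1 := by
  unfold tyB dd dv at h
  omega

lemma tyC_mono {p : Tri} (h : tyC p) :
    p.1.2.2 ≤ p.2.2.2.2 ∧ p.2.2.2.1 ≤ p.1.2.1 ∧ p.1.2.2 - p.1.2.1 < p.2.2.2.2 - p.2.2.2.1 := by
  unfold tyC dd dv at h
  omega

lemma tyJ_rel {p : Tri} (h : tyJ p) :
    p.2.1.1 < p.1.1 ∧ p.2.2.2.1 < p.2.1.2.1 ∧ p.1.2.2 < p.2.2.2.2 ∧
    p.1.2.2 ≤ p.2.1.2.2 ∧ p.2.1.2.2 ≤ p.2.2.2.2 := by
  unfold tyJ dd dv at h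
  omega

variable {R : Type*} [CommSemiring R]

/-- weights of the five prototiles -/
def wt (r l b1 b2 b3 : R) (p : Tri) : R :=
  if kR p then r else if kL p then l else if k1 p then b1 else if k2 p then b2 else
    if k3 p then b3 else 0

/-- rotation of sites -/
def rho (s : Site) : Site := (s.2.1, s.2.2, s.1)

/-- rotation of triples -/
def rotT (p : Tri) : Tri := (rho p.2.1, rho p.2.2, rho p.1)

/-- rotation of triples as an equivalence -/
def rotE : Tri ≃ Tri where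
  toFun := rotT
  invFun := fun p => ((p.2.2.2.2, p.2.2.1, p.2.2.2.1), (p.1.2.2, p.1.1, p.1.2.1),
    (p.2.1.2.2, p.2.1.1, p.2.1.2.1))
  left_inv := fun _ => rfl
  right_inv := fun _ => rfl

lemma kR_rot (p : Tri) : kR (rotT p) ↔ kR p := by
  unfold kR rotT rho dd dv
  simp only
  omega
lemma kL_rot (p : Tri) : kL (rotT p) ↔ kL p := by
  unfold kL rotT rho dd dv
  simp only
  omega
lemma k1_rot (p : Tri) : k1 (rotT p) ↔ k2 p := by
  unfold k1 k2 rotT rho dd dv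
  simp only
  omega
lemma k2_rot (p : Tri) : k2 (rotT p) ↔ k3 p := by
  unfold k2 k3 rotT rho dd dv
  simp only
  omega
lemma k3_rot (p : Tri) : k3 (rotT p) ↔ k1 p := by
  unfold k3 k1 rotT rho dd dv
  simp only
  omega

lemma tyO_rot (p : Tri) : tyO (rotT p) ↔ tyO p := by
  unfold tyO rotT rho dd dv
  simp only
  omega
lemma tyA_rot (p : Tri) : tyA (rotT p) ↔ tyB p := by
  unfold tyA tyB rotT rho dd dv
  simp only
  omega
lemma tyB_rot (p : Tri) : tyB (rotT p) ↔ tyC p := by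
  unfold tyB tyC rotT rho dd dv
  simp only
  omega
lemma tyC_rot (p : Tri) : tyC (rotT p) ↔ tyA p := by
  unfold tyA tyC rotT rho dd dv
  simp only
  omega

lemma Al0_rot (p : Tri) : Al0 (rotT p) ↔ Al0 p := by
  unfold Al0
  rw [tyO_rot, tyA_rot, tyB_rot, tyC_rot]
  tauto

lemma Al1_rot (p : Tri) : Al1 (rotT p) ↔ Al1 p := by
  unfold Al1
  rw [kR_rot, kL_rot, k1_rot, k2_rot, k3_rot]
  tauto

lemma wt_rot (r l b1 b2 b3 : R) (p : Tri) : wt r l b2 b3 b1 (rotT p) = wt r l b1 b2 b3 p := by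
  unfold wt
  simp only [kR_rot, kL_rot, k1_rot, k2_rot, k3_rot]
  by_cases h1 : kR p
  · simp [h1]
  by_cases h2 : kL p
  · simp [h1, h2]
  by_cases h3 : k1 p
  · have h4 : ¬ k2 p := by
      unfold k1 k2 dd dv at *
      omega
    have h5 : ¬ k3 p := by
      unfold k1 k3 dd dv at *
      omega
    simp [h1, h2, h3, h4, h5]
  by_cases h4 : k2 p
  · simp [h1, h2, h3, h4]
  simp [h1, h2, h3, h4]

lemma W_rot {Al Al' : Tri → Prop} {ω ω' : Tri → R} {R1 R2 R3 R1' R2' R3' : Finset Site}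
    (hAl : ∀ p, Al' (rotT p) ↔ Al p) (hω : ∀ p, ω' (rotT p) = ω p)
    (h1 : ∀ s, rho s ∈ R1' ↔ s ∈ R2) (h2 : ∀ s, rho s ∈ R2' ↔ s ∈ R3)
    (h3 : ∀ s, rho s ∈ R3' ↔ s ∈ R1) :
    W Al ω R1 R2 R3 = W Al' ω' R1' R2' R3' := by
  classical
  unfold W
  have hr : ∀ s : Site, ∃ t, rho t = s := fun s => ⟨(s.2.2, s.1, s.2.1), rfl⟩
  have hinj : ∀ s t : Site, rho s = rho t → s = t := by
    intro s t h
    rw [site_ext_iff] at h ⊢
    unfold rho at h
    simp only at h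
    exact ⟨h.2.2, h.1, h.2.1⟩
  refine Finset.sum_equiv rotE.finsetCongr ?_ ?_
  · intro M
    rw [mem_mats, mem_mats]
    have hmem : ∀ q, q ∈ rotE.finsetCongr M ↔ ∃ p ∈ M, rotT p = q := by
      intro q
      rw [Equiv.finsetCongr_apply, Finset.mem_map]
      rfl
    have hmem2 : ∀ p, rotT p ∈ rotE.finsetCongr M ↔ p ∈ M := by
      intro p
      rw [hmem]
      constructor
      · rintro ⟨q, hq, e⟩
        have := rotE.injective (a₁ := q) (a₂ := p) e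
        rwa [← this]
      · exact fun h => ⟨p, h, rfl⟩
    constructor
    · intro h
      constructor
      · intro q hq
        obtain ⟨p, hp, rfl⟩ := (hmem q).1 hq
        exact (hAl p).2 (h.al p hp)
      · intro q hq
        obtain ⟨p, hp, rfl⟩ := (hmem q).1 hq
        exact (h1 _).2 (h.m2 p hp)
      · intro q hq
        obtain ⟨p, hp, rfl⟩ := (hmem q).1 hq
        exact (h2 _).2 (h.m3 p hp)
      · intro q hq
        obtain ⟨p, hp, rfl⟩ := (hmem q).1 hq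
        exact (h3 _).2 (h.m1 p hp)
      · intro q hq q' hq' e
        obtain ⟨p, hp, rfl⟩ := (hmem q).1 hq
        obtain ⟨p', hp', rfl⟩ := (hmem q').1 hq'
        rw [h.u2 p hp p' hp' (hinj _ _ e)]
      · intro q hq q' hq' e
        obtain ⟨p, hp, rfl⟩ := (hmem q).1 hq
        obtain ⟨p', hp', rfl⟩ := (hmem q').1 hq'
        rw [h.u3 p hp p' hp' (hinj _ _ e)]
      · intro q hq q' hq' e
        obtain ⟨p, hp, rfl⟩ := (hmem q).1 hq
        obtain ⟨p', hp', rfl⟩ := (hmem q').1 hq'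
        rw [h.u1 p hp p' hp' (hinj _ _ e)]
      · intro s hs
        obtain ⟨t, rfl⟩ := hr s
        obtain ⟨p, hp, e⟩ := h.c2 t ((h1 t).1 hs)
        exact ⟨rotT p, (hmem2 p).2 hp, congrArg rho e⟩
      · intro s hs
        obtain ⟨t, rfl⟩ := hr s
        obtain ⟨p, hp, e⟩ := h.c3 t ((h2 t).1 hs)
        exact ⟨rotT p, (hmem2 p).2 hp, congrArg rho e⟩
      · intro s hs
        obtain ⟨t, rfl⟩ := hr s
        obtain ⟨p, hp, e⟩ := h.c1 t ((h3 t).1 hs)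
        exact ⟨rotT p, (hmem2 p).2 hp, congrArg rho e⟩
    · intro h
      constructor
      · intro p hp
        exact (hAl p).1 (h.al _ ((hmem2 p).2 hp))
      · intro p hp
        exact (h3 _).1 (h.m3 _ ((hmem2 p).2 hp))
      · intro p hp
        exact (h1 _).1 (h.m1 _ ((hmem2 p).2 hp))
      · intro p hp
        exact (h2 _).1 (h.m2 _ ((hmem2 p).2 hp))
      · intro p hp p' hp' e
        exact rotE.injective (h.u3 _ ((hmem2 p).2 hp) _ ((hmem2 p').2 hp') (congrArg rho e))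
      · intro p hp p' hp' e
        exact rotE.injective (h.u1 _ ((hmem2 p).2 hp) _ ((hmem2 p').2 hp') (congrArg rho e))
      · intro p hp p' hp' e
        exact rotE.injective (h.u2 _ ((hmem2 p).2 hp) _ ((hmem2 p').2 hp') (congrArg rho e))
      · intro s hs
        obtain ⟨q, hq, e⟩ := h.c3 (rho s) ((h3 s).2 hs)
        obtain ⟨p, hp, rfl⟩ := (hmem q).1 hq
        exact ⟨p, hp, hinj _ _ e⟩
      · intro s hs
        obtain ⟨q, hq, e⟩ := h.c1 (rho s) ((h1 s).2 hs)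
        obtain ⟨p, hp, rfl⟩ := (hmem q).1 hq
        exact ⟨p, hp, hinj _ _ e⟩
      · intro s hs
        obtain ⟨q, hq, e⟩ := h.c2 (rho s) ((h2 s).2 hs)
        obtain ⟨p, hp, rfl⟩ := (hmem q).1 hq
        exact ⟨p, hp, hinj _ _ e⟩
  · intro M _
    rw [Equiv.finsetCongr_apply, Finset.prod_map]
    apply Finset.prod_congr rfl
    intro p _
    exact (hω p).symm

end Pool.Agent.Benzel
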